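import Mathlib
set_option autoImplicit false
set_option linter.all false
open Classical

namespace SgK4

variable {V : Type}

/-- cut-based connectivity of a finite set under a (symmetric) relation -/
def Conn (R : V → V → Prop) (S : Finset V) : Prop :=
  S.Nonempty ∧ ∀ J : Finset V, J ⊆ S → J.Nonempty → J ≠ S → ∃ a ∈ J, ∃ b ∈ S, b ∉ J ∧ R a b

/-- A signed graph is a relation `E a b x` (`x : ℤ`, only the parity of `x` matters). -/
structure SGr (E : V → V → ℤ → Prop) : Prop where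
  symm : ∀ a b x, E a b x → E b a (-x)
  par : ∀ a b x, E a b x → E a b (x + 2)
  irr : ∀ a b x, E a b x → a ≠ b

def Adj (E : V → V → ℤ → Prop) (a b : V) : Prop := ∃ x, E a b x

/-- flat edges for a potential `h` -/
def Fl (E : V → V → ℤ → Prop) (h : V → ℤ) (a b : V) : Prop := E a b (h b - h a)

/-- odd K4 minor model: four disjoint flat-connected sets, pairwise joined by odd edges -/
def OddK4 (E : V → V → ℤ → Prop) (S : Finset V) : Prop :=
  ∃ (B : Fin 4 → Finset V) (h : V → ℤ), (∀ i, B i ⊆ S) ∧ (∀ i j, i ≠ j → Disjoint (B i) (B j)) ∧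
    (∀ i, Conn (Fl E h) (B i)) ∧ (∀ i j, i ≠ j → ∃ a ∈ B i, ∃ b ∈ B j, E a b (h b - h a + 1))

/-- balanced -/
def Bal (E : V → V → ℤ → Prop) (S : Finset V) : Prop :=
  ∃ h : V → ℤ, ∀ a ∈ S, ∀ b ∈ S, ∀ x, E a b x → Even (x - (h b - h a))

/-- integer lift `T` of the signed graph `E` on `S` -/
structure Lift (E : V → V → ℤ → Prop) (S : Finset V) (T : V → V → ℤ → Prop) : Prop where
  symm : ∀ a b x, T a b x → T b a (-x)
  sub : ∀ a b x, T a b x → a ∈ S ∧ b ∈ S ∧ E a b x
  ex : ∀ a ∈ S, ∀ b ∈ S, ∀ x, E a b x → ∃ y, T a b y ∧ Even (y - x)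
  dev : ∀ X ⊆ S, ∀ h : V → ℤ, Conn (Fl T h) X →
    ∀ a ∈ X, ∀ b ∈ X, ∀ x, T a b x → |x - (h b - h a)| ≤ 1

/-- contraction of `v` into `u` along an edge `u v` of label `c` -/
def Ctr (E : V → V → ℤ → Prop) (u v : V) (c : ℤ) : V → V → ℤ → Prop := fun a b x =>
  a ≠ v ∧ b ≠ v ∧ a ≠ b ∧ (E a b x ∨ (a = u ∧ E v b (x - c)) ∨ (b = u ∧ E a v (x + c)))

/-- delete the edges between `u` and `v` whose label is congruent to `c` mod 2 -/
def Del (E : V → V → ℤ → Prop) (u v : V) (c : ℤ) : V → V → ℤ → Prop := fun a b x =>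
  E a b x ∧ ¬ (a = u ∧ b = v ∧ Even (x - c)) ∧ ¬ (a = v ∧ b = u ∧ Even (x + c))

/-- weighted signed graph: `W a b x l`, edge with label `x` (mod 2) and length `l` -/
structure WGr (W : V → V → ℤ → ℕ → Prop) : Prop where
  symm : ∀ a b x l, W a b x l → W b a (-x) l
  par : ∀ a b x l, W a b x l → W a b (x + 2) l
  irr : ∀ a b x l, W a b x l → a ≠ b

def Sup (W : V → V → ℤ → ℕ → Prop) : V → V → ℤ → Prop := fun a b x => ∃ l, W a b x l

/-- walks inside `S` with total label and total length -/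
inductive Wk (W : V → V → ℤ → ℕ → Prop) (S : Finset V) : V → V → ℤ → ℕ → Prop
  | nil (a : V) (ha : a ∈ S) : Wk W S a a 0 0
  | cons {a b c : V} {x y : ℤ} {l m : ℕ} (ha : a ∈ S) (h : W a b x l) (t : Wk W S b c y m) :
      Wk W S a c (x + y) (l + m)

/-- windings: maps to the hexagon -/
def Wind (W : V → V → ℤ → ℕ → Prop) (S : Finset V) (f : V → ℤ) : Prop :=
  ∀ a ∈ S, ∀ b ∈ S, ∀ x l, W a b x l → ∃ k : ℤ, |f b - f a + 3 * x + 6 * k| ≤ (l : ℤ)

def IsPQ (p q a b : V) : Prop := (a = p ∧ b = q) ∨ (a = q ∧ b = p)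

/-- remove the `p q` edges -/
def NoPQ (W : V → V → ℤ → ℕ → Prop) (p q : V) : V → V → ℤ → ℕ → Prop := fun a b x l =>
  W a b x l ∧ ¬ IsPQ p q a b

/-- odd closed walks have length at least `g` -/
def Neg (W : V → V → ℤ → ℕ → Prop) (S : Finset V) (g : ℕ) : Prop :=
  ∀ a x l, Wk W S a a x l → Odd x → g ≤ l

/-- add edges `a b` representing walks through `S₂` -/
def Ext (W : V → V → ℤ → ℕ → Prop) (S₂ : Finset V) (a b : V) : V → V → ℤ → ℕ → Prop := fun s t x l =>
  W s t x l ∨ (IsPQ a b s t ∧ ∃ y, Even (y - x) ∧ Wk W S₂ s t y l)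

/-- add a digon `a b` forcing distance `d` (`d ≤ 3`) on the hexagon -/
def Root (W : V → V → ℤ → ℕ → Prop) (a b : V) (d : ℕ) : V → V → ℤ → ℕ → Prop := fun s t x l =>
  W s t x l ∨ (IsPQ a b s t ∧ ((Even x ∧ l = d) ∨ (Odd x ∧ l = 3 - d)))

end SgK4

namespace SgK4
variable {V : Type}

theorem SGr.evn {E : V → V → ℤ → Prop} (hE : SGr E) {a b : V} {x y : ℤ} (h : E a b x) (hxy : Even (y - x)) :
    E a b y := by
  obtain ⟨k, hk⟩ := hxy
  have key : ∀ n : ℕ, ∀ z, E a b z → E a b (z + 2 * n) := by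
    intro n; induction n with
    | zero => intro z hz; simpa using hz
    | succ n ih => intro z hz; have := hE.par _ _ _ (ih z hz); push_cast; convert this using 1; ring
  have key2 : ∀ n : ℕ, ∀ z, E a b z → E a b (z - 2 * n) := by
    intro n z hz
    have h1 := hE.symm _ _ _ hz
    have h2 : ∀ m : ℕ, ∀ z, E b a z → E b a (z + 2 * m) := by
      intro m; induction m with
      | zero => intro z hz; simpa using hz
      | succ n ih => intro z hz; have := hE.par _ _ _ (ih z hz); push_cast; convert this using 1; ring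
    have h3 := hE.symm _ _ _ (h2 n _ h1)
    convert h3 using 1; ring
  have hy : y = x + 2 * k := by omega
  rcases le_total 0 k with hk0 | hk0
  · obtain ⟨n, rfl⟩ := Int.eq_ofNat_of_zero_le hk0
    rw [hy]; exact key n x h
  · obtain ⟨n, hn⟩ := Int.eq_ofNat_of_zero_le (neg_nonneg.mpr hk0)
    have : y = x - 2 * n := by omega
    rw [this]; exact key2 n x h

theorem Fl.symm {E : V → V → ℤ → Prop} (hs : ∀ a b x, E a b x → E b a (-x)) {h : V → ℤ} {a b : V}
    (hab : Fl E h a b) : Fl E h b a := by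
  have := hs _ _ _ hab
  unfold Fl; convert this using 1; ring

theorem Adj.symm {E : V → V → ℤ → Prop} (hs : ∀ a b x, E a b x → E b a (-x)) {a b : V}
    (hab : Adj E a b) : Adj E b a := by
  obtain ⟨x, hx⟩ := hab; exact ⟨-x, hs _ _ _ hx⟩

theorem Conn.mono {R R' : V → V → Prop} {S : Finset V} (h : Conn R S) (hR : ∀ a ∈ S, ∀ b ∈ S, R a b → R' a b) :
    Conn R' S := by
  refine ⟨h.1, fun J hJ h1 h2 => ?_⟩
  obtain ⟨a, ha, b, hb, hb', hab⟩ := h.2 J hJ h1 h2
  exact ⟨a, ha, b, hb, hb', hR a (hJ ha) b hb hab⟩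

theorem Conn.single (R : V → V → Prop) (a : V) : Conn R {a} := by
  refine ⟨Finset.singleton_nonempty a, fun J hJ h1 h2 => ?_⟩
  exfalso
  rcases Finset.subset_singleton_iff.mp hJ with h | h
  · rw [h] at h1; exact Finset.not_nonempty_empty h1
  · exact h2 h

/-- union of two connected sets joined by an edge -/
theorem Conn.union {R : V → V → Prop} (hs : ∀ a b, R a b → R b a) {S T : Finset V} (h1 : Conn R S) (h2 : Conn R T)
    (he : ∃ a ∈ S, ∃ b ∈ T, R a b) : Conn R (S ∪ T) := by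
  refine ⟨h1.1.mono Finset.subset_union_left, fun J hJ hne hJn => ?_⟩
  obtain ⟨a, ha, b, hb, hab⟩ := he
  by_cases hSJ : S ⊆ J
  · by_cases hTJ : T ⊆ J
    · exact absurd (Finset.Subset.antisymm hJ (Finset.union_subset hSJ hTJ)) hJn
    · by_cases hTe : (J ∩ T).Nonempty
      · have hne2 : J ∩ T ≠ T := by
          intro h; apply hTJ; rw [← h]; exact Finset.inter_subset_left
        obtain ⟨c, hc, d, hd, hd', hcd⟩ := h2.2 (J ∩ T) Finset.inter_subset_right hTe hne2
        refine ⟨c, (Finset.mem_inter.mp hc).1, d, Finset.mem_union_right _ hd, ?_, hcd⟩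
        intro h; exact hd' (Finset.mem_inter.mpr ⟨h, hd⟩)
      · refine ⟨a, hSJ ha, b, Finset.mem_union_right _ hb, ?_, hab⟩
        intro h; exact hTe ⟨b, Finset.mem_inter.mpr ⟨h, hb⟩⟩
  · by_cases hSe : (J ∩ S).Nonempty
    · have hne2 : J ∩ S ≠ S := by
        intro h; apply hSJ; rw [← h]; exact Finset.inter_subset_left
      obtain ⟨c, hc, d, hd, hd', hcd⟩ := h1.2 (J ∩ S) Finset.inter_subset_right hSe hne2
      refine ⟨c, (Finset.mem_inter.mp hc).1, d, Finset.mem_union_left _ hd, ?_, hcd⟩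
      intro h; exact hd' (Finset.mem_inter.mpr ⟨h, hd⟩)
    · -- J ⊆ T
      have hJT : J ⊆ T := by
        intro z hz
        rcases Finset.mem_union.mp (hJ hz) with h | h
        · exact absurd ⟨z, Finset.mem_inter.mpr ⟨hz, h⟩⟩ hSe
        · exact h
      by_cases hJT' : J = T
      · refine ⟨b, hJT' ▸ hb, a, Finset.mem_union_left _ ha, ?_, hs _ _ hab⟩
        intro h; exact hSe ⟨a, Finset.mem_inter.mpr ⟨h, ha⟩⟩
      · obtain ⟨c, hc, d, hd, hd', hcd⟩ := h2.2 J hJT hne hJT'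
        exact ⟨c, hc, d, Finset.mem_union_right _ hd, hd', hcd⟩

theorem Conn.insert {R : V → V → Prop} (hs : ∀ a b, R a b → R b a) {S : Finset V} (h1 : Conn R S) {a b : V}
    (ha : a ∈ S) (hab : R a b) : Conn R (insert b S) := by
  have := Conn.union hs h1 (Conn.single R b) ⟨a, ha, b, Finset.mem_singleton_self b, hab⟩
  rwa [Finset.union_comm, ← Finset.insert_eq] at this

theorem Fl.shift {E : V → V → ℤ → Prop} {h : V → ℤ} {c : ℤ} {a b : V} (hab : Fl E h a b) :
    Fl E (fun t => h t + c) a b := by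
  unfold Fl at *; convert hab using 1; ring

/-- extend a flat-connected set to a connected superset -/
theorem exists_flat_ext {T : V → V → ℤ → Prop} (hs : ∀ a b x, T a b x → T b a (-x)) {S X : Finset V} (hXS : X ⊆ S)
    (hS : Conn (Adj T) S) (h : V → ℤ) (hX : Conn (Fl T h) X) :
    ∃ h' : V → ℤ, (∀ t ∈ X, h' t = h t) ∧ Conn (Fl T h') S := by
  -- maximal Y
  have main : ∀ n : ℕ, ∀ X : Finset V, X ⊆ S → (S \ X).card = n → ∀ h : V → ℤ, Conn (Fl T h) X →
      ∃ h' : V → ℤ, (∀ t ∈ X, h' t = h t) ∧ Conn (Fl T h') S := by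
    intro n
    induction n with
    | zero =>
      intro X hXS hc h hX
      have : X = S := by
        apply Finset.Subset.antisymm hXS
        exact Finset.sdiff_eq_empty_iff_subset.mp (Finset.card_eq_zero.mp hc)
      exact ⟨h, fun _ _ => rfl, this ▸ hX⟩
    | succ n ih =>
      intro X hXS hc h hX
      have hne : X ≠ S := by
        intro h; rw [h, Finset.sdiff_self, Finset.card_empty] at hc; omega
      obtain ⟨a, ha, b, hb, hb', x, hx⟩ := hS.2 X hXS hX.1 hne
      set h1 : V → ℤ := fun t => if t = b then h a + x else h t with hh1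
      have hX1 : Conn (Fl T h1) X := by
        refine hX.mono fun c hc d hd hcd => ?_
        have hc' : c ≠ b := fun h => hb' (h ▸ hc)
        have hd' : d ≠ b := fun h => hb' (h ▸ hd)
        unfold Fl at *
        simp only [hh1, if_neg hc', if_neg hd']; exact hcd
      have hab : Fl T h1 a b := by
        have ha' : a ≠ b := fun h => hb' (h ▸ ha)
        unfold Fl
        simp only [hh1, if_neg ha', if_true]
        convert hx using 1; ring
      have hX2 : Conn (Fl T h1) (insert b X) := Conn.insert (fun _ _ h => Fl.symm hs h) hX1 ha hab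
      have hsub : insert b X ⊆ S := Finset.insert_subset hb hXS
      have hcard : (S \ insert b X).card = n := by
        rw [Finset.card_sdiff_of_subset hsub, Finset.card_insert_of_notMem hb']
        rw [Finset.card_sdiff_of_subset hXS] at hc
        omega
      obtain ⟨h', h'1, h'2⟩ := ih _ hsub hcard h1 hX2
      refine ⟨h', fun t ht => ?_, h'2⟩
      rw [h'1 t (Finset.mem_insert_of_mem ht)]
      have : t ≠ b := fun h => hb' (h ▸ ht)
      simp only [hh1, if_neg this]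
  exact main _ X hXS rfl h hX

theorem exists_flat {T : V → V → ℤ → Prop} (hs : ∀ a b x, T a b x → T b a (-x)) {S : Finset V}
    (hS : Conn (Adj T) S) {s : V} (hsS : s ∈ S) (c : ℤ) : ∃ h : V → ℤ, h s = c ∧ Conn (Fl T h) S := by
  obtain ⟨h', h1, h2⟩ := exists_flat_ext hs (Finset.singleton_subset_iff.mpr hsS) hS (fun _ => c) (Conn.single _ s)
  exact ⟨h', h1 s (Finset.mem_singleton_self s), h2⟩

/-- grow two disjoint flat-connected sets to a partition of a connected set -/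
theorem exists_flat_part {T : V → V → ℤ → Prop} (hs : ∀ a b x, T a b x → T b a (-x)) {S P Q : Finset V}
    (hP : P ⊆ S) (hQ : Q ⊆ S) (hd : Disjoint P Q) (hS : Conn (Adj T) S) (h : V → ℤ)
    (hPc : Conn (Fl T h) P) (hQc : Conn (Fl T h) Q) :
    ∃ (P' Q' : Finset V) (h' : V → ℤ), P ⊆ P' ∧ Q ⊆ Q' ∧ Disjoint P' Q' ∧ P' ∪ Q' = S ∧
      (∀ t ∈ P, h' t = h t) ∧ (∀ t ∈ Q, h' t = h t) ∧ Conn (Fl T h') P' ∧ Conn (Fl T h') Q' := by
  have main : ∀ n : ℕ, ∀ P Q : Finset V, P ⊆ S → Q ⊆ S → Disjoint P Q → (S \ (P ∪ Q)).card = n → ∀ h : V → ℤ,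
      Conn (Fl T h) P → Conn (Fl T h) Q →
      ∃ (P' Q' : Finset V) (h' : V → ℤ), P ⊆ P' ∧ Q ⊆ Q' ∧ Disjoint P' Q' ∧ P' ∪ Q' = S ∧
      (∀ t ∈ P, h' t = h t) ∧ (∀ t ∈ Q, h' t = h t) ∧ Conn (Fl T h') P' ∧ Conn (Fl T h') Q' := by
    intro n
    induction n with
    | zero =>
      intro P Q hP hQ hd hc h hPc hQc
      have : P ∪ Q = S := by
        apply Finset.Subset.antisymm (Finset.union_subset hP hQ)
        exact Finset.sdiff_eq_empty_iff_subset.mp (Finset.card_eq_zero.mp hc)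
      exact ⟨P, Q, h, subset_rfl, subset_rfl, hd, this, fun _ _ => rfl, fun _ _ => rfl, hPc, hQc⟩
    | succ n ih =>
      intro P Q hP hQ hd hc h hPc hQc
      have hU : P ∪ Q ⊆ S := Finset.union_subset hP hQ
      have hne : P ∪ Q ≠ S := by
        intro h; rw [h, Finset.sdiff_self, Finset.card_empty] at hc; omega
      obtain ⟨a, ha, b, hb, hb', x, hx⟩ := hS.2 (P ∪ Q) hU (hPc.1.mono Finset.subset_union_left) hne
      have hbP : b ∉ P := fun h => hb' (Finset.mem_union_left _ h)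
      have hbQ : b ∉ Q := fun h => hb' (Finset.mem_union_right _ h)
      set h1 : V → ℤ := fun t => if t = b then h a + x else h t with hh1
      have hmono : ∀ Y : Finset V, b ∉ Y → Conn (Fl T h) Y → Conn (Fl T h1) Y := by
        intro Y hbY hY
        refine hY.mono fun c hc d hd hcd => ?_
        have hc' : c ≠ b := fun h => hbY (h ▸ hc)
        have hd' : d ≠ b := fun h => hbY (h ▸ hd)
        unfold Fl at *
        simp only [hh1, if_neg hc', if_neg hd']; exact hcd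
      have hab : Fl T h1 a b := by
        have ha' : a ≠ b := fun h => hb' (h ▸ ha)
        unfold Fl
        simp only [hh1, if_neg ha', if_true]
        convert hx using 1; ring
      have hsame : ∀ t, t ≠ b → h1 t = h t := fun t ht => by simp only [hh1, if_neg ht]
      rcases Finset.mem_union.mp ha with haP | haQ
      · have hX2 : Conn (Fl T h1) (insert b P) := Conn.insert (fun _ _ h => Fl.symm hs h) (hmono P hbP hPc) haP hab
        have hcard : (S \ (insert b P ∪ Q)).card = n := by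
          rw [Finset.insert_union, Finset.card_sdiff_of_subset (Finset.insert_subset hb hU), Finset.card_insert_of_notMem hb']
          rw [Finset.card_sdiff_of_subset hU] at hc
          omega
        have hd2 : Disjoint (insert b P) Q := by
          rw [Finset.disjoint_insert_left]; exact ⟨hbQ, hd⟩
        obtain ⟨P', Q', h', e1, e2, e3, e4, e5, e6, e7, e8⟩ :=
          ih (insert b P) Q (Finset.insert_subset hb hP) hQ hd2 hcard h1 hX2 (hmono Q hbQ hQc)
        refine ⟨P', Q', h', (Finset.subset_insert _ _).trans e1, e2, e3, e4, fun t ht => ?_, fun t ht => ?_, e7, e8⟩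
        · rw [e5 t (Finset.mem_insert_of_mem ht)]; exact hsame t (fun h => hbP (h ▸ ht))
        · rw [e6 t ht]; exact hsame t (fun h => hbQ (h ▸ ht))
      · have hX2 : Conn (Fl T h1) (insert b Q) := Conn.insert (fun _ _ h => Fl.symm hs h) (hmono Q hbQ hQc) haQ hab
        have hcard : (S \ (P ∪ insert b Q)).card = n := by
          rw [Finset.union_insert, Finset.card_sdiff_of_subset (Finset.insert_subset hb hU), Finset.card_insert_of_notMem hb']
          rw [Finset.card_sdiff_of_subset hU] at hc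
          omega
        have hd2 : Disjoint P (insert b Q) := by
          rw [Finset.disjoint_insert_right]; exact ⟨hbP, hd⟩
        obtain ⟨P', Q', h', e1, e2, e3, e4, e5, e6, e7, e8⟩ :=
          ih P (insert b Q) hP (Finset.insert_subset hb hQ) hd2 hcard h1 (hmono P hbP hPc) hX2
        refine ⟨P', Q', h', e1, (Finset.subset_insert _ _).trans e2, e3, e4, fun t ht => ?_, fun t ht => ?_, e7, e8⟩
        · rw [e5 t ht]; exact hsame t (fun h => hbP (h ▸ ht))
        · rw [e6 t (Finset.mem_insert_of_mem ht)]; exact hsame t (fun h => hbQ (h ▸ ht))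
  exact main _ P Q hP hQ hd rfl h hPc hQc

/-- labels of a lift are unique in each parity class -/
theorem Lift.label_unique {E T : V → V → ℤ → Prop} {S : Finset V} (hE : SGr E) (hL : Lift E S T) {a b : V} {x y : ℤ}
    (h1 : T a b x) (h2 : T a b y) : |x - y| ≤ 1 := by
  have hab : a ≠ b := hE.irr _ _ _ (hL.sub _ _ _ h1).2.2
  set h : V → ℤ := fun t => if t = b then y else 0 with hh
  have hfl : Fl T h a b := by
    unfold Fl; simp only [hh, if_neg hab, if_true]; simpa using h2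
  have hconn : Conn (Fl T h) (insert b {a}) :=
    Conn.insert (fun _ _ h => Fl.symm hL.symm h) (Conn.single _ a) (Finset.mem_singleton_self a) hfl
  have haS := (hL.sub _ _ _ h1).1
  have hbS := (hL.sub _ _ _ h1).2.1
  have hX : (insert b {a} : Finset V) ⊆ S := by
    intro t ht; rcases Finset.mem_insert.mp ht with h | h
    · rw [h]; exact hbS
    · rw [Finset.mem_singleton.mp h]; exact haS
  have := hL.dev _ hX h hconn a (by simp) b (by simp) x h1
  simp only [hh, if_neg hab, if_true] at this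
  simpa using this

end SgK4

namespace SgK4
variable {V : Type}

theorem Wk.left_mem {W : V → V → ℤ → ℕ → Prop} {S : Finset V} {a b : V} {x : ℤ} {l : ℕ} (h : Wk W S a b x l) : a ∈ S := by
  cases h with
  | nil ha => assumption
  | cons ha _ _ => exact ha

theorem Wk.right_mem {W : V → V → ℤ → ℕ → Prop} {S : Finset V} {a b : V} {x : ℤ} {l : ℕ} (h : Wk W S a b x l) : b ∈ S := by
  induction h with
  | nil a ha => exact ha
  | cons _ _ _ ih => exact ih

theorem Wk.trans {W : V → V → ℤ → ℕ → Prop} {S : Finset V} {a b c : V} {x y : ℤ} {l m : ℕ}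
    (h1 : Wk W S a b x l) (h2 : Wk W S b c y m) : Wk W S a c (x + y) (l + m) := by
  induction h1 with
  | nil a ha => simpa using h2
  | cons ha h _ ih =>
    have := Wk.cons ha h (ih h2)
    rw [add_assoc, add_assoc]; exact this

theorem Wk.single {W : V → V → ℤ → ℕ → Prop} {S : Finset V} {a b : V} {x : ℤ} {l : ℕ} (ha : a ∈ S) (hb : b ∈ S)
    (h : W a b x l) : Wk W S a b x l := by
  have := Wk.cons ha h (Wk.nil b hb)
  simpa using this

theorem Wk.symm {W : V → V → ℤ → ℕ → Prop} (hs : ∀ a b x l, W a b x l → W b a (-x) l) {S : Finset V} {a b : V}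
    {x : ℤ} {l : ℕ} (h : Wk W S a b x l) : Wk W S b a (-x) l := by
  induction h with
  | nil a ha => simpa using Wk.nil a ha
  | cons ha h t ih =>
    have := ih.trans (Wk.single t.left_mem ha (hs _ _ _ _ h))
    convert this using 1
    · ring
    · ring

theorem Wk.mono {W W' : V → V → ℤ → ℕ → Prop} {S S' : Finset V} (hS : S ⊆ S')
    (hW : ∀ a ∈ S, ∀ b ∈ S, ∀ x l, W a b x l → W' a b x l) {a b : V} {x : ℤ} {l : ℕ} (h : Wk W S a b x l) :
    Wk W' S' a b x l := by
  induction h with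
  | nil a ha => exact Wk.nil a (hS ha)
  | cons ha h t ih => exact Wk.cons (hS ha) (hW _ ha _ t.left_mem _ _ h) ih

theorem WGr.sup {W : V → V → ℤ → ℕ → Prop} (hW : WGr W) : SGr (Sup W) := by
  refine ⟨?_, ?_, ?_⟩
  · rintro a b x ⟨l, h⟩; exact ⟨l, hW.symm _ _ _ _ h⟩
  · rintro a b x ⟨l, h⟩; exact ⟨l, hW.par _ _ _ _ h⟩
  · rintro a b x ⟨l, h⟩; exact hW.irr _ _ _ _ h

theorem WGr.evn {W : V → V → ℤ → ℕ → Prop} (hW : WGr W) {a b : V} {x y : ℤ} {l : ℕ} (h : W a b x l) (hxy : Even (y - x)) :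
    W a b y l := by
  have hs : SGr (fun a b x => W a b x l) :=
    ⟨fun a b x h => hW.symm _ _ _ _ h, fun a b x h => hW.par _ _ _ _ h, fun a b x h => hW.irr _ _ _ _ h⟩
  exact hs.evn h hxy

theorem IsPQ.swap {p q a b : V} (h : IsPQ p q a b) : IsPQ p q b a := by
  rcases h with ⟨h1, h2⟩ | ⟨h1, h2⟩
  · exact Or.inr ⟨h2, h1⟩
  · exact Or.inl ⟨h2, h1⟩

end SgK4

/-! ### contractible3 -/

namespace SgK4
variable {V : Type}


theorem frag_of_not_conn {R : V → V → Prop} {T : Finset V} (hne : T.Nonempty) (h : ¬ Conn R T) :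
    ∃ J ⊆ T, J.Nonempty ∧ J ≠ T ∧ ∀ a ∈ J, ∀ b ∈ T, b ∉ J → ¬ R a b := by
  unfold Conn at h
  push Not at h
  obtain ⟨J, h1, h2, h3, h4⟩ := h hne
  exact ⟨J, h1, h2, h3, h4⟩

theorem mem_er3 {S : Finset V} {u v t x : V} :
    x ∈ ((S.erase u).erase v).erase t ↔ x ≠ t ∧ x ≠ v ∧ x ≠ u ∧ x ∈ S := by
  simp only [Finset.mem_erase]

theorem mem_er2 {S : Finset V} {u v x : V} :
    x ∈ (S.erase u).erase v ↔ x ≠ v ∧ x ≠ u ∧ x ∈ S := by
  simp only [Finset.mem_erase]

/-- if the third vertex is one of the first two there is no fragment -/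
theorem frag_ne {R : V → V → Prop} {S : Finset V}
    (hc : ∀ s ∈ S, ∀ t ∈ S, Conn R ((S.erase s).erase t)) {u v t : V} (hu : u ∈ S) (hv : v ∈ S)
    {J : Finset V} (h1 : J ⊆ ((S.erase u).erase v).erase t) (h2 : J.Nonempty)
    (h3 : J ≠ ((S.erase u).erase v).erase t)
    (h4 : ∀ a ∈ J, ∀ b ∈ ((S.erase u).erase v).erase t, b ∉ J → ¬ R a b) : t ≠ u ∧ t ≠ v := by
  have key : t ∈ (S.erase u).erase v := by
    by_contra h
    rw [Finset.erase_eq_of_notMem h] at h1 h3 h4
    obtain ⟨a, ha, b, hb, hb', hab⟩ := (hc u hu v hv).2 J h1 h2 h3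
    exact h4 a ha b hb hb' hab
  rw [mem_er2] at key
  exact ⟨key.2.1, key.1⟩

theorem frag_induct (R : V → V → Prop) (hs : ∀ a b, R a b → R b a)
    (S : Finset V) (hc : ∀ s ∈ S, ∀ t ∈ S, Conn R ((S.erase s).erase t))
    (H : ∀ u ∈ S, ∀ v ∈ S, R u v → ∃ t ∈ S, ∃ J ⊆ ((S.erase u).erase v).erase t, J.Nonempty ∧
      J ≠ ((S.erase u).erase v).erase t ∧
      ∀ a ∈ J, ∀ b ∈ ((S.erase u).erase v).erase t, b ∉ J → ¬ R a b) (n : ℕ) :
    ∀ u ∈ S, ∀ v ∈ S, R u v → u ≠ v → ∀ t ∈ S, ∀ J ⊆ ((S.erase u).erase v).erase t, J.Nonempty →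
      J ≠ ((S.erase u).erase v).erase t →
      (∀ a ∈ J, ∀ b ∈ ((S.erase u).erase v).erase t, b ∉ J → ¬ R a b) → J.card = n → False := by
  induction n using Nat.strong_induction_on with
  | _ n ih =>
  intro u hu v hv huv hune t ht J hJ hJne hJn hJc hn
  obtain ⟨htu, htv⟩ := frag_ne hc hu hv hJ hJne hJn hJc
  -- neighbour w of t in J
  have hJ2 : J ⊆ (S.erase u).erase v := fun x hx => Finset.mem_of_mem_erase (hJ hx)
  have htJ : t ∉ J := fun h => (mem_er3.1 (hJ h)).1 rfl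
  have htS : t ∈ (S.erase u).erase v := mem_er2.2 ⟨htv, htu, ht⟩
  obtain ⟨w, hw, b, hb, hbJ, hwb⟩ := (hc u hu v hv).2 J hJ2 hJne (fun h => htJ (h ▸ htS))
  have hbt : b = t := by
    by_contra hne
    exact hJc w hw b (Finset.mem_erase.2 ⟨hne, hb⟩) hbJ hwb
  subst hbt
  obtain ⟨hwt, hwv, hwu, hwS⟩ := mem_er3.1 (hJ hw)
  obtain ⟨s, hsS, J2, k1, k2, k3, k4⟩ := H b ht w hwS (hs _ _ hwb)
  obtain ⟨hst, hsw⟩ := frag_ne hc ht hwS k1 k2 k3 k4
  -- choose J3
  have hJ3 : ∃ J3 ⊆ ((S.erase b).erase w).erase s, J3.Nonempty ∧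
      (∀ a ∈ J3, ∀ c ∈ ((S.erase b).erase w).erase s, c ∉ J3 → ¬ R a c) ∧ u ∉ J3 ∧ v ∉ J3 := by
    by_cases hcase : u ∈ J2 ∨ v ∈ J2
    · refine ⟨(((S.erase b).erase w).erase s) \ J2, Finset.sdiff_subset, ?_, ?_, ?_⟩
      · rw [Finset.sdiff_nonempty]
        intro h
        exact k3 (Finset.Subset.antisymm k1 h)
      · intro a ha c hc' hc2 hac
        rw [Finset.mem_sdiff] at ha hc2
        have : c ∈ J2 := by
          by_contra h; exact hc2 ⟨hc', h⟩
        exact k4 c this a ha.1 ha.2 (hs _ _ hac)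
      · constructor
        · intro h
          rw [Finset.mem_sdiff] at h
          rcases hcase with h1 | h1
          · exact h.2 h1
          · exact k4 v h1 u h.1 h.2 (hs _ _ huv)
        · intro h
          rw [Finset.mem_sdiff] at h
          rcases hcase with h1 | h1
          · exact k4 u h1 v h.1 h.2 huv
          · exact h.2 h1
    · push Not at hcase
      exact ⟨J2, k1, k2, k4, hcase.1, hcase.2⟩
  obtain ⟨J3, l1, l2, l3, hu3, hv3⟩ := hJ3
  have hw3 : w ∉ J3 := fun h => (mem_er3.1 (l1 h)).2.1 rfl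
  -- neighbour y of w in J3
  have l1' : J3 ⊆ (S.erase b).erase s := by
    intro x hx
    have := mem_er3.1 (l1 hx)
    exact mem_er2.2 ⟨this.1, this.2.2.1, this.2.2.2⟩
  have hwbs : w ∈ (S.erase b).erase s := mem_er2.2 ⟨fun h => hsw h.symm, hwt, hwS⟩
  obtain ⟨y, hy, c, hc1, hc2, hyc⟩ := (hc b ht s hsS).2 J3 l1' l2 (fun h => hw3 (h ▸ hwbs))
  have hcw : c = w := by
    by_contra hne
    rw [mem_er2] at hc1
    exact l3 y hy c (mem_er3.2 ⟨hc1.1, hne, hc1.2.1, hc1.2.2⟩) hc2 hyc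
  subst hcw
  have inJ : ∀ x ∈ J3, ∀ a ∈ J, R a x → x ∈ J := by
    intro x hx a ha hax
    by_contra hxJ
    have hx1 := mem_er3.1 (l1 hx)
    refine hJc a ha x (mem_er3.2 ⟨hx1.2.2.1, ?_, ?_, hx1.2.2.2⟩) hxJ hax
    · rintro rfl; exact hv3 hx
    · rintro rfl; exact hu3 hx
  have hyJ : y ∈ J := inJ y hy c hw (hs _ _ hyc)
  refine ih (J3 ∩ J).card ?_ b ht c hwS (hs _ _ hwb) hwt.symm s hsS (J3 ∩ J)
    (Finset.inter_subset_left.trans l1) ⟨y, Finset.mem_inter.2 ⟨hy, hyJ⟩⟩ ?_ ?_ rfl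
  · rw [← hn]
    refine Finset.card_lt_card ⟨Finset.inter_subset_right, fun h => ?_⟩
    exact hw3 (Finset.mem_inter.1 (h hw)).1
  · intro heq
    have hcontra : ∀ x, x ∈ S → x ≠ s → x ≠ c → x ≠ b → x ∉ J → False := by
      intro x h1 h2 h3 h4 h5
      have : x ∈ J3 ∩ J := by rw [heq]; exact mem_er3.2 ⟨h2, h3, h4, h1⟩
      exact h5 (Finset.mem_inter.1 this).2
    by_cases hus : u = s
    · exact hcontra v hv (fun h => hune (hus.trans h.symm)) hwv.symm htv.symm
        (fun h => (mem_er3.1 (hJ h)).2.1 rfl)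
    · exact hcontra u hu hus hwu.symm htu.symm (fun h => (mem_er3.1 (hJ h)).2.2.1 rfl)
  · intro a ha x hx hx2 hax
    rw [Finset.mem_inter] at ha
    have hx3 : x ∈ J3 := by
      by_contra h; exact l3 a ha.1 x hx h hax
    exact hx2 (Finset.mem_inter.2 ⟨hx3, inJ x hx3 a ha.2 hax⟩)

/-- fragment lemma: contractible edge in a 3-connected graph -/
theorem contractible3 (R : V → V → Prop) (hs : ∀ a b, R a b → R b a) (hi : ∀ a, ¬ R a a)
    (S : Finset V) (h4 : 4 ≤ S.card) (hc : ∀ s ∈ S, ∀ t ∈ S, Conn R ((S.erase s).erase t)) :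
    ∃ u ∈ S, ∃ v ∈ S, R u v ∧ ∀ t ∈ S, Conn R (((S.erase u).erase v).erase t) := by
  by_contra hcon
  push Not at hcon
  have H : ∀ u ∈ S, ∀ v ∈ S, R u v → ∃ t ∈ S, ∃ J ⊆ ((S.erase u).erase v).erase t, J.Nonempty ∧
      J ≠ ((S.erase u).erase v).erase t ∧
      ∀ a ∈ J, ∀ b ∈ ((S.erase u).erase v).erase t, b ∉ J → ¬ R a b := by
    intro u hu v hv huv
    obtain ⟨t, ht, hnc⟩ := hcon u hu v hv huv
    refine ⟨t, ht, frag_of_not_conn ?_ hnc⟩
    rw [← Finset.card_pos]
    have h1 := Finset.pred_card_le_card_erase (s := (S.erase u).erase v) (a := t)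
    have h2 := Finset.pred_card_le_card_erase (s := S.erase u) (a := v)
    have h3 := Finset.pred_card_le_card_erase (s := S) (a := u)
    omega
  -- an adjacent pair
  obtain ⟨x, hx⟩ : S.Nonempty := Finset.card_pos.1 (by omega)
  have hcx := hc x hx x hx
  obtain ⟨z, hz⟩ := hcx.1
  have hzne : ({z} : Finset V) ≠ (S.erase x).erase x := by
    intro h
    have h1 := Finset.pred_card_le_card_erase (s := S.erase x) (a := x)
    have h3 := Finset.pred_card_le_card_erase (s := S) (a := x)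
    have h2 : ((S.erase x).erase x).card = 1 := by rw [← h]; exact Finset.card_singleton z
    omega
  obtain ⟨a, ha, b, hb, hb', hab⟩ := hcx.2 {z} (Finset.singleton_subset_iff.2 hz)
    (Finset.singleton_nonempty z) hzne
  rw [Finset.mem_singleton] at ha
  subst ha
  have haS : a ∈ S := (mem_er2.1 hz).2.2
  have hbS : b ∈ S := (mem_er2.1 hb).2.2
  obtain ⟨t, ht, J, j1, j2, j3, j4⟩ := H a haS b hbS hab
  exact frag_induct R hs S hc H _ a haS b hbS hab (fun h => hi a (by rw [← h] at hab; exact hab))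
    t ht J j1 j2 j3 j4 rfl

end SgK4


/-! ### contractible2 -/

namespace SgK4
variable {V : Type}

/-- fragment lemma: contractible edge in a 2-connected graph -/
theorem contractible2 (R : V → V → Prop) (hs : ∀ a b, R a b → R b a) (hi : ∀ a, ¬ R a a)
    (S : Finset V) (h3 : 3 ≤ S.card) (hc : ∀ s ∈ S, Conn R (S.erase s)) :
    ∃ u ∈ S, ∃ v ∈ S, R u v ∧ Conn R ((S.erase u).erase v) := by
  have hne2 : ∀ u v : V, ((S.erase u).erase v).Nonempty := by
    intro u v
    rw [← Finset.card_pos]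
    have h1 : S.card - 1 ≤ (S.erase u).card := Finset.pred_card_le_card_erase
    have h2 : (S.erase u).card - 1 ≤ ((S.erase u).erase v).card := Finset.pred_card_le_card_erase
    omega
  by_contra hcon
  push Not at hcon
  have key : ∀ n : ℕ, ∀ (u v : V) (J : Finset V), J.card = n → u ∈ S → v ∈ S → R u v →
      J ⊆ (S.erase u).erase v → J.Nonempty → J ≠ (S.erase u).erase v →
      (∀ a ∈ J, ∀ b ∈ (S.erase u).erase v, b ∉ J → ¬ R a b) → False := by
    intro n
    induction n using Nat.strong_induction_on with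
    | _ n ih =>
      intro u v J hn hu hv huv hJ hJne hJT hJc
      have huv' : u ≠ v := fun h => hi v (h ▸ huv)
      -- a neighbour w of v in J
      obtain ⟨w, hwJ, b, hb, hbJ, hwb⟩ := (hc u hu).2 J (hJ.trans (Finset.erase_subset _ _)) hJne (by
        intro h
        have : v ∈ J := by rw [h]; exact Finset.mem_erase.2 ⟨huv'.symm, hv⟩
        exact (Finset.mem_erase.1 (hJ this)).1 rfl)
      have hbv : b = v := by
        by_contra hbv
        exact hJc w hwJ b (Finset.mem_erase.2 ⟨hbv, hb⟩) hbJ hwb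
      rw [hbv] at hwb
      have hw2 := Finset.mem_erase.1 (hJ hwJ)
      have hwv : w ≠ v := hw2.1
      have hwu : w ≠ u := (Finset.mem_erase.1 hw2.2).1
      have hwS : w ∈ S := (Finset.mem_erase.1 hw2.2).2
      have hnc := hcon v hv w hwS (hs _ _ hwb)
      have hJ2 : ∃ J2 : Finset V, J2 ⊆ (S.erase v).erase w ∧ J2.Nonempty ∧ J2 ≠ (S.erase v).erase w ∧
          ∀ a ∈ J2, ∀ b ∈ (S.erase v).erase w, b ∉ J2 → ¬ R a b := by
        unfold Conn at hnc
        rw [not_and] at hnc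
        have := hnc (hne2 v w)
        push Not at this
        obtain ⟨J2, a1, a2, a3, a4⟩ := this
        exact ⟨J2, a1, a2, a3, a4⟩
      obtain ⟨J2, b1, b2, b3, b4⟩ := hJ2
      have hJ3 : ∃ J3 : Finset V, J3 ⊆ (S.erase v).erase w ∧ J3.Nonempty ∧ J3 ≠ (S.erase v).erase w ∧
          (∀ a ∈ J3, ∀ b ∈ (S.erase v).erase w, b ∉ J3 → ¬ R a b) ∧ u ∉ J3 := by
        by_cases huJ : u ∈ J2
        · refine ⟨(S.erase v).erase w \ J2, Finset.sdiff_subset, ?_, ?_, ?_, ?_⟩
          · rw [Finset.sdiff_nonempty]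
            intro h
            exact b3 (Finset.Subset.antisymm b1 h)
          · intro h
            obtain ⟨x, hx⟩ := b2
            have : x ∈ (S.erase v).erase w \ J2 := by rw [h]; exact b1 hx
            exact (Finset.mem_sdiff.1 this).2 hx
          · intro a ha b hb hb2 hab
            have hbJ2 : b ∈ J2 := by
              by_contra h
              exact hb2 (Finset.mem_sdiff.2 ⟨hb, h⟩)
            exact b4 b hbJ2 a (Finset.mem_sdiff.1 ha).1 (Finset.mem_sdiff.1 ha).2 (hs _ _ hab)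
          · intro h
            exact (Finset.mem_sdiff.1 h).2 huJ
        · exact ⟨J2, b1, b2, b3, b4, huJ⟩
      obtain ⟨J3, c1, c2, c3, c4, c5⟩ := hJ3
      have hwJ3 : w ∉ J3 := fun h => (Finset.mem_erase.1 (c1 h)).1 rfl
      obtain ⟨y, hyJ3, b', hb', hb'J, hyb⟩ := (hc v hv).2 J3 (c1.trans (Finset.erase_subset _ _)) c2 (by
        intro h
        exact hwJ3 (by rw [h]; exact Finset.mem_erase.2 ⟨hwv, hwS⟩))
      have hbw : b' = w := by
        by_contra hbw
        exact c4 y hyJ3 b' (Finset.mem_erase.2 ⟨hbw, hb'⟩) hb'J hyb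
      rw [hbw] at hyb
      have hy2 := Finset.mem_erase.1 (c1 hyJ3)
      have hyv : y ≠ v := (Finset.mem_erase.1 hy2.2).1
      have hyS : y ∈ S := (Finset.mem_erase.1 hy2.2).2
      have hyu : y ≠ u := fun h => c5 (h ▸ hyJ3)
      have hyJ : y ∈ J := by
        by_contra h
        exact hJc w hwJ y (Finset.mem_erase.2 ⟨hyv, Finset.mem_erase.2 ⟨hyu, hyS⟩⟩) h (hs _ _ hyb)
      have hlt : (J3 ∩ J).card < n := by
        rw [← hn]
        apply Finset.card_lt_card
        refine ⟨Finset.inter_subset_right, ?_⟩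
        intro h
        exact hwJ3 (Finset.mem_inter.1 (h hwJ)).1
      refine ih _ hlt v w (J3 ∩ J) rfl hv hwS (hs _ _ hwb) (Finset.inter_subset_left.trans c1)
        ⟨y, Finset.mem_inter.2 ⟨hyJ3, hyJ⟩⟩ ?_ ?_
      · intro h
        have : u ∈ J3 ∩ J := by
          rw [h]
          exact Finset.mem_erase.2 ⟨hwu.symm, Finset.mem_erase.2 ⟨huv', hu⟩⟩
        exact c5 (Finset.mem_inter.1 this).1
      · intro a ha b hb hb2 hab
        rw [Finset.mem_inter] at ha
        by_cases hb3 : b ∈ J3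
        · have hbJ' : b ∉ J := fun h => hb2 (Finset.mem_inter.2 ⟨hb3, h⟩)
          have hb4 := Finset.mem_erase.1 (c1 hb3)
          have hb5 := Finset.mem_erase.1 hb4.2
          exact hJc a ha.2 b (Finset.mem_erase.2 ⟨hb5.1, Finset.mem_erase.2
            ⟨fun h => c5 (h ▸ hb3), hb5.2⟩⟩) hbJ' hab
        · exact c4 a ha.1 b hb hb3 hab
  -- an adjacent pair exists
  have hSne : S.Nonempty := Finset.card_pos.1 (by omega)
  obtain ⟨s, hsS⟩ := hSne
  have hcs := hc s hsS
  obtain ⟨a, ha⟩ := hcs.1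
  obtain ⟨a', ha', b, hb, hbJ, hab⟩ := hcs.2 {a} (by simpa using ha) (Finset.singleton_nonempty a) (by
    intro h
    have h1 : S.card - 1 ≤ (S.erase s).card := Finset.pred_card_le_card_erase
    rw [← h, Finset.card_singleton] at h1
    omega)
  rw [Finset.mem_singleton] at ha'
  subst ha'
  have haS : a' ∈ S := (Finset.mem_erase.1 ha).2
  have hbS : b ∈ S := (Finset.mem_erase.1 hb).2
  have hnc := hcon a' haS b hbS hab
  unfold Conn at hnc
  rw [not_and] at hnc
  have := hnc (hne2 a' b)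
  push Not at this
  obtain ⟨J2, a1, a2, a3, a4⟩ := this
  exact key _ a' b J2 rfl haS hbS hab a1 a2 a3 a4

end SgK4


/-! ### digon_model -/

namespace SgK4
variable {V : Type}


theorem swing (E : V → V → ℤ → Prop) (hE : SGr E) (Y : Finset V) (t : V) (ht : t ∉ Y) (h0 : V → ℤ)
    (hb : ∀ a ∈ Y, ∀ b ∈ Y, ∀ x, E a b x → Even (x - (h0 b - h0 a)))
    (hub : ¬ Bal E (insert t Y)) (c : ℤ) : ∃ a ∈ Y, E a t (c - h0 a + 1) := by
  by_contra hcon
  push Not at hcon
  apply hub
  have hne : ∀ a ∈ Y, a ≠ t := fun a ha h => ht (h ▸ ha)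
  have key : ∀ a ∈ Y, ∀ x, E a t x → Even (x - (c - h0 a)) := by
    intro a ha x hx
    by_contra hodd
    rw [Int.not_even_iff_odd] at hodd
    apply hcon a ha
    apply hE.evn hx
    obtain ⟨k, hk⟩ := hodd
    exact ⟨-k, by omega⟩
  refine ⟨fun s => if s = t then c else h0 s, ?_⟩
  intro a ha b hb' x hx
  have hab := hE.irr _ _ _ hx
  rcases Finset.mem_insert.mp ha with rfl | haY
  · rcases Finset.mem_insert.mp hb' with rfl | hbY
    · exact absurd rfl hab
    · have h1 := key b hbY _ (hE.symm _ _ _ hx)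
      simp only [if_true, if_neg (hne b hbY)]
      obtain ⟨k, hk⟩ := h1
      exact ⟨-k, by omega⟩
  · rcases Finset.mem_insert.mp hb' with rfl | hbY
    · have h1 := key a haY _ hx
      simp only [if_true, if_neg (hne a haY)]
      exact h1
    · simp only [if_neg (hne a haY), if_neg (hne b hbY)]
      exact hb a haY b hbY x hx

theorem conn_flat_of_bal (E : V → V → ℤ → Prop) (hE : SGr E) (Y : Finset V) (hc : Conn (Adj E) Y) (h0 h : V → ℤ)
    (hb : ∀ a ∈ Y, ∀ b ∈ Y, ∀ x, E a b x → Even (x - (h0 b - h0 a))) (hh : ∀ a ∈ Y, h a = h0 a) :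
    Conn (Fl E h) Y := by
  refine hc.mono fun a ha b hb' hab => ?_
  obtain ⟨x, hx⟩ := hab
  unfold Fl
  rw [hh a ha, hh b hb']
  apply hE.evn hx
  obtain ⟨k, hk⟩ := hb a ha b hb' x hx
  exact ⟨-k, by omega⟩

/-- extraction of a closed set avoiding `u` -/
theorem not_conn_closed {R : V → V → Prop} (hs : ∀ a b, R a b → R b a) {Y : Finset V} {u : V} (hu : u ∈ Y)
    (hn : ¬ Conn R Y) : ∃ J ⊆ Y, J.Nonempty ∧ u ∉ J ∧ ∀ a ∈ J, ∀ b ∈ Y, b ∉ J → ¬ R a b := by
  have : ∃ J : Finset V, J ⊆ Y ∧ J.Nonempty ∧ J ≠ Y ∧ ∀ a ∈ J, ∀ b ∈ Y, b ∉ J → ¬ R a b := by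
    by_contra hcon
    apply hn
    refine ⟨⟨u, hu⟩, fun J hJ h1 h2 => ?_⟩
    by_contra hcon2
    push Not at hcon2
    exact hcon ⟨J, hJ, h1, h2, hcon2⟩
  obtain ⟨J, hJ, hne, hnY, hcl⟩ := this
  by_cases huJ : u ∈ J
  · refine ⟨Y \ J, Finset.sdiff_subset, ?_, ?_, ?_⟩
    · rw [Finset.sdiff_nonempty]
      intro h; exact hnY (Finset.Subset.antisymm hJ h)
    · simp [huJ]
    · intro a ha b hb hb' hab
      rw [Finset.mem_sdiff] at ha
      have hbJ : b ∈ J := by
        by_contra h; exact hb' (Finset.mem_sdiff.mpr ⟨hb, h⟩)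
      exact hcl b hbJ a ha.1 ha.2 (hs _ _ hab)
  · exact ⟨J, hJ, hne, huJ, hcl⟩

theorem conn_of_avoid {R : V → V → Prop} (hs : ∀ a b, R a b → R b a) {Y : Finset V} {u : V} (hu : u ∈ Y)
    (h : ∀ J ⊆ Y, J.Nonempty → u ∉ J → ∃ a ∈ J, ∃ b ∈ Y, b ∉ J ∧ R a b) : Conn R Y := by
  by_contra hn
  obtain ⟨J, hJ, hne, huJ, hcl⟩ := not_conn_closed hs hu hn
  obtain ⟨a, ha, b, hb, hb', hab⟩ := h J hJ hne huJ
  exact hcl a ha b hb hb' hab

theorem exists_peel (E : V → V → ℤ → Prop) (hE : SGr E) (S : Finset V) (u v : V) (hu : u ∈ S) 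
    (H : ∀ t ∈ S, ∀ J : Finset V, J ⊆ S.erase t → J.Nonempty → u ∉ J → v ∉ J →
      ∃ a ∈ J, ∃ b ∈ S.erase t, b ∉ J ∧ Adj E a b)
    (Y Z : Finset V) (huY : u ∈ Y) (hvZ : v ∈ Z) (hd : Disjoint Y Z) (hU : Y ∪ Z = S)
    (hY : Conn (Adj E) Y) (hub : ¬ Bal E Y) :
    ∃ t ∈ Y, t ≠ u ∧ (∃ z ∈ Z, Adj E t z) ∧ Conn (Adj E) (Y.erase t) := by
  have hs : ∀ a b, Adj E a b → Adj E b a := fun a b h => Adj.symm hE.symm h
  have hYS : Y ⊆ S := hU ▸ Finset.subset_union_left
  have hvY : v ∉ Y := fun h => (Finset.disjoint_left.mp hd h) hvZ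
  have hmem : ∀ b ∈ S, b ∉ Y → b ∈ Z := by
    intro b hb hbY
    rw [← hU] at hb
    exact (Finset.mem_union.mp hb).resolve_left hbY
  by_contra hcon
  push Not at hcon
  -- M minus u nonempty
  have hM : ∃ t ∈ Y, t ≠ u ∧ ∃ z ∈ Z, Adj E t z := by
    have hne : (Y.erase u).Nonempty := by
      by_contra hemp
      rw [Finset.not_nonempty_iff_eq_empty] at hemp
      apply hub
      refine ⟨fun _ => 0, fun a ha b hb x hx => ?_⟩
      have h1 : ∀ a ∈ Y, a = u := by
        intro a ha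
        by_contra h
        have : a ∈ Y.erase u := Finset.mem_erase.mpr ⟨h, ha⟩
        rw [hemp] at this; exact absurd this (Finset.notMem_empty _)
      exact absurd ((h1 a ha).trans (h1 b hb).symm) (hE.irr _ _ _ hx)
    obtain ⟨a, ha, b, hb, hb', hab⟩ := H u hu (Y.erase u) (Finset.erase_subset_erase u hYS) hne
      (Finset.notMem_erase u Y) (fun h => hvY (Finset.mem_of_mem_erase h))
    rw [Finset.mem_erase] at ha hb
    refine ⟨a, ha.2, ha.1, b, hmem b hb.2 ?_, hab⟩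
    intro h; exact hb' (Finset.mem_erase.mpr ⟨hb.1, h⟩)
  have main : ∀ n : ℕ, ∀ t ∈ Y, t ≠ u → (∃ z ∈ Z, Adj E t z) → ∀ J ⊆ Y.erase t, J.Nonempty → u ∉ J →
      (∀ a ∈ J, ∀ b ∈ Y.erase t, b ∉ J → ¬ Adj E a b) → J.card = n → False := by
    intro n
    induction n using Nat.strong_induction_on with
    | _ n ih =>
      intro t ht htu htM J hJ hJne huJ hcl hcard
      have hJY : J ⊆ Y := fun a ha => Finset.mem_of_mem_erase (hJ ha)
      by_cases hJM : ∃ t' ∈ J, ∃ z ∈ Z, Adj E t' z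
      · obtain ⟨t', ht'J, ht'M⟩ := hJM
        have ht'u : t' ≠ u := fun h => huJ (h ▸ ht'J)
        have ht'Y := hJY ht'J
        have hnc := hcon t' ht'Y ht'u
        obtain ⟨z, hz, hz'⟩ := ht'M
        have hnc' : ¬ Conn (Adj E) (Y.erase t') := hnc ⟨z, hz, hz'⟩
        have hu' : u ∈ Y.erase t' := Finset.mem_erase.mpr ⟨ht'u.symm, huY⟩
        obtain ⟨J', hJ', hJ'ne, huJ', hcl'⟩ := not_conn_closed hs hu' hnc'
        -- Y \ J connected
        have hconn : Conn (Adj E) (Y \ J) := by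
          have aux : ∀ K ⊆ Y \ J, K.Nonempty → t ∉ K → ∃ a ∈ K, ∃ b ∈ Y \ J, b ∉ K ∧ Adj E a b := by
            intro K hK hKne htK
            have hKY : K ⊆ Y := fun a ha => (Finset.mem_sdiff.mp (hK ha)).1
            have hKn : K ≠ Y := fun h => htK (h ▸ ht)
            obtain ⟨a, ha, b, hb, hb', hab⟩ := hY.2 K hKY hKne hKn
            refine ⟨a, ha, b, Finset.mem_sdiff.mpr ⟨hb, fun hbJ => ?_⟩, hb', hab⟩
            have haJ := (Finset.mem_sdiff.mp (hK ha)).2
            exact hcl b hbJ a (Finset.mem_erase.mpr ⟨fun h => htK (h ▸ ha), hKY ha⟩) haJ (hs _ _ hab)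
          have htJ : t ∉ J := fun h => (Finset.mem_erase.mp (hJ h)).1 rfl
          exact conn_of_avoid hs (Finset.mem_sdiff.mpr ⟨ht, htJ⟩) aux
        have hJ'J : J' ⊆ J := by
          intro a ha
          by_contra haJ
          have ha' := Finset.mem_erase.mp (hJ' ha)
          have hne : (J' ∩ (Y \ J)).Nonempty := ⟨a, Finset.mem_inter.mpr ⟨ha, Finset.mem_sdiff.mpr ⟨ha'.2, haJ⟩⟩⟩
          have hneq : J' ∩ (Y \ J) ≠ Y \ J := by
            intro h
            have : u ∈ J' ∩ (Y \ J) := by rw [h]; exact Finset.mem_sdiff.mpr ⟨huY, huJ⟩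
            exact huJ' (Finset.mem_inter.mp this).1
          obtain ⟨c, hc, d, hd1, hd2, hcd⟩ := hconn.2 _ Finset.inter_subset_right hne hneq
          rw [Finset.mem_inter] at hc
          have hdJ' : d ∉ J' := fun h => hd2 (Finset.mem_inter.mpr ⟨h, hd1⟩)
          rw [Finset.mem_sdiff] at hd1
          refine hcl' c hc.1 d (Finset.mem_erase.mpr ⟨fun h => hd1.2 (h ▸ ht'J), hd1.1⟩) hdJ' hcd
        have hlt : J'.card < n := by
          rw [← hcard]
          apply Finset.card_lt_card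
          refine ⟨hJ'J, fun h => ?_⟩
          exact (Finset.mem_erase.mp (hJ' (h ht'J))).1 rfl
        exact ih _ hlt t' ht'Y ht'u ⟨z, hz, hz'⟩ J' hJ' hJ'ne huJ' hcl' rfl
      · push Not at hJM
        have hJS : J ⊆ S.erase t := hJ.trans (Finset.erase_subset_erase t hYS)
        obtain ⟨a, ha, b, hb, hb', hab⟩ := H t (hYS ht) J hJS hJne huJ (fun h => hvY (hJY h))
        rw [Finset.mem_erase] at hb
        by_cases hbY : b ∈ Y
        · exact hcl a ha b (Finset.mem_erase.mpr ⟨hb.1, hbY⟩) hb' hab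
        · exact hJM a ha b (hmem b hb.2 hbY) hab
  obtain ⟨t, htY, htu, z, hz, htz⟩ := hM
  have hnc := hcon t htY htu ⟨z, hz, htz⟩
  have hu' : u ∈ Y.erase t := Finset.mem_erase.mpr ⟨htu.symm, huY⟩
  obtain ⟨J, hJ, hJne, huJ, hcl⟩ := not_conn_closed hs hu' hnc
  exact main _ t htY htu ⟨z, hz, htz⟩ J hJ hJne huJ hcl rfl

theorem digon_model (E : V → V → ℤ → Prop) (hE : SGr E) (S : Finset V) (u v : V) (hu : u ∈ S) (hv : v ∈ S)
    (huv : u ≠ v)
    (H : ∀ t ∈ S, ∀ J : Finset V, J ⊆ S.erase t → J.Nonempty → u ∉ J → v ∉ J →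
      ∃ a ∈ J, ∃ b ∈ S.erase t, b ∉ J ∧ Adj E a b)
    (hub : ¬ Bal E S) :
    ∃ (Y Z : Finset V) (h : V → ℤ), u ∈ Y ∧ v ∈ Z ∧ Disjoint Y Z ∧ Y ∪ Z = S ∧
      Conn (Fl E h) Y ∧ Conn (Fl E h) Z ∧
      (∃ a ∈ Y, ∃ b ∈ Z, E a b (h b - h a)) ∧ (∃ a ∈ Y, ∃ b ∈ Z, E a b (h b - h a + 1)) := by
  have hs : ∀ a b, Adj E a b → Adj E b a := fun a b h => Adj.symm hE.symm h
  -- general finishing lemma
  have finish : ∀ (Y Z : Finset V) (t : V), u ∈ Y → t ∉ Y → t ∉ Z → v ∈ insert t Z → Disjoint Y Z →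
      Y ∪ insert t Z = S → Conn (Adj E) Y → (Z = ∅ ∨ (Conn (Adj E) Z ∧ ∃ z ∈ Z, Adj E t z)) →
      Bal E Y → ¬ Bal E (insert t Y) → 
    ∃ (Y Z : Finset V) (h : V → ℤ), u ∈ Y ∧ v ∈ Z ∧ Disjoint Y Z ∧ Y ∪ Z = S ∧
      Conn (Fl E h) Y ∧ Conn (Fl E h) Z ∧
      (∃ a ∈ Y, ∃ b ∈ Z, E a b (h b - h a)) ∧ (∃ a ∈ Y, ∃ b ∈ Z, E a b (h b - h a + 1)) := by
    intro Y Z t huY htY htZ hvZ hd hU hYc hZ hbal hnb
    obtain ⟨hY, hYb⟩ := hbal
    have hZh : ∃ hZ : V → ℤ, Conn (Fl E (fun s => if s ∈ Z then hZ s else if s = t then 0 else hY s)) (insert t Z) := by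
      rcases hZ with rfl | ⟨hZc, z, hz, x, hx⟩
      · refine ⟨fun _ => 0, ?_⟩
        have := Conn.single (Fl E (fun s => if s ∈ (∅ : Finset V) then (0:ℤ) else if s = t then 0 else hY s)) t
        simpa using this
      · obtain ⟨hZ, hZz, hZfl⟩ := exists_flat hE.symm hZc hz x
        refine ⟨hZ, Conn.insert (fun _ _ h => Fl.symm hE.symm h) ?_ hz ?_⟩
        · refine hZfl.mono fun a ha b hb hab => ?_
          unfold Fl at *
          simp only [if_pos ha, if_pos hb]; exact hab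
        · apply Fl.symm hE.symm
          unfold Fl
          simp only [if_pos hz, if_neg htZ, if_true]
          rw [hZz]; simpa using hx
    obtain ⟨hZ', hZ'c⟩ := hZh
    set h : V → ℤ := fun s => if s ∈ Z then hZ' s else if s = t then 0 else hY s with hh
    have hht : h t = 0 := by simp only [hh, if_neg htZ, if_true]
    have hhY : ∀ a ∈ Y, h a = hY a := by
      intro a ha
      have h1 : a ∉ Z := fun h => Finset.disjoint_left.mp hd ha h
      have h2 : a ≠ t := fun h => htY (h ▸ ha)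
      simp only [hh, if_neg h1, if_neg h2]
    refine ⟨Y, insert t Z, h, huY, hvZ, ?_, hU, conn_flat_of_bal E hE Y hYc hY h hYb hhY, hZ'c, ?_, ?_⟩
    · rw [Finset.disjoint_insert_right]; exact ⟨htY, hd⟩
    · obtain ⟨a, ha, hat⟩ := swing E hE Y t htY hY hYb hnb 1
      refine ⟨a, ha, t, Finset.mem_insert_self _ _, ?_⟩
      rw [hht, hhY a ha]
      exact hE.evn hat ⟨-1, by ring⟩
    · obtain ⟨a, ha, hat⟩ := swing E hE Y t htY hY hYb hnb 0
      refine ⟨a, ha, t, Finset.mem_insert_self _ _, ?_⟩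
      rw [hht, hhY a ha]
      exact hat
  have hc0 : Conn (Adj E) (S.erase v) := by
    refine conn_of_avoid hs (Finset.mem_erase.mpr ⟨huv, hu⟩) fun J hJ hne huJ => ?_
    exact H v hv J hJ hne huJ (fun h => (Finset.mem_erase.mp (hJ h)).1 rfl)
  have main : ∀ n : ℕ, ∀ Y Z : Finset V, Y.card = n → u ∈ Y → v ∈ Z → Disjoint Y Z → Y ∪ Z = S →
      Conn (Adj E) Y → Conn (Adj E) Z → ¬ Bal E Y → 
    ∃ (Y Z : Finset V) (h : V → ℤ), u ∈ Y ∧ v ∈ Z ∧ Disjoint Y Z ∧ Y ∪ Z = S ∧
      Conn (Fl E h) Y ∧ Conn (Fl E h) Z ∧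
      (∃ a ∈ Y, ∃ b ∈ Z, E a b (h b - h a)) ∧ (∃ a ∈ Y, ∃ b ∈ Z, E a b (h b - h a + 1)) := by
    intro n
    induction n with
    | zero =>
      intro Y Z hc huY
      rw [Finset.card_eq_zero] at hc
      rw [hc] at huY; exact absurd huY (Finset.notMem_empty _)
    | succ n ih =>
      intro Y Z hc huY hvZ hd hU hYc hZc hnb
      obtain ⟨t, htY, htu, ⟨z, hz, htz⟩, htc⟩ := exists_peel E hE S u v hu H Y Z huY hvZ hd hU hYc hnb
      have htZ : t ∉ Z := fun h => Finset.disjoint_left.mp hd htY h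
      have huY' : u ∈ Y.erase t := Finset.mem_erase.mpr ⟨htu.symm, huY⟩
      have hd' : Disjoint (Y.erase t) Z := Finset.disjoint_of_subset_left (Finset.erase_subset _ _) hd
      have hU' : Y.erase t ∪ insert t Z = S := by
        rw [← hU]; ext s
        simp only [Finset.mem_union, Finset.mem_erase, Finset.mem_insert]
        constructor
        · rintro (⟨_, h⟩ | rfl | h)
          · exact Or.inl h
          · exact Or.inl htY
          · exact Or.inr h
        · rintro (h | h)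
          · by_cases hst : s = t
            · exact Or.inr (Or.inl hst)
            · exact Or.inl ⟨hst, h⟩
          · exact Or.inr (Or.inr h)
      have hins : insert t (Y.erase t) = Y := Finset.insert_erase htY
      by_cases hb : Bal E (Y.erase t)
      · exact finish (Y.erase t) Z t huY' (Finset.notMem_erase t Y) htZ (Finset.mem_insert_of_mem hvZ) hd' hU' htc
          (Or.inr ⟨hZc, z, hz, htz⟩) hb (by rw [hins]; exact hnb)
      · refine ih (Y.erase t) (insert t Z) ?_ huY' (Finset.mem_insert_of_mem hvZ) ?_ hU' htc ?_ hb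
        · rw [Finset.card_erase_of_mem htY, hc]; rfl
        · rw [Finset.disjoint_insert_right]; exact ⟨Finset.notMem_erase t Y, hd'⟩
        · exact Conn.insert hs hZc hz (hs _ _ htz)
  by_cases hb : Bal E (S.erase v)
  · refine finish (S.erase v) ∅ v (Finset.mem_erase.mpr ⟨huv, hu⟩) (Finset.notMem_erase v S) (Finset.notMem_empty _)
      (Finset.mem_insert_self _ _) (Finset.disjoint_empty_right _) ?_ hc0 (Or.inl rfl) hb ?_
    · rw [Finset.union_comm, insert_empty_eq, ← Finset.insert_eq]; exact Finset.insert_erase hv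
    · rw [Finset.insert_erase hv]; exact hub
  · refine main _ (S.erase v) {v} rfl (Finset.mem_erase.mpr ⟨huv, hu⟩) (Finset.mem_singleton_self v) ?_ ?_ hc0
      (Conn.single _ v) hb
    · rw [Finset.disjoint_singleton_right]; exact Finset.notMem_erase v S
    · rw [Finset.union_comm, ← Finset.insert_eq]; exact Finset.insert_erase hv

end SgK4



/-! ### oddK4_quot -/

namespace SgK4
variable {V : Type}

/-- odd K4 models pull back along quotient maps with flat-connected fibres -/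
theorem oddK4_quot {E E' : V → V → ℤ → Prop} (hE : SGr E) {S S' : Finset V} (φ : V → V) (h : V → ℤ)
    (hmap : ∀ t ∈ S, φ t ∈ S')
    (hfib : ∀ s ∈ S', Conn (Fl E h) (S.filter (fun t => φ t = s)))
    (hedge : ∀ s ∈ S', ∀ s' ∈ S', ∀ x, E' s s' x → s ≠ s' →
      ∃ a ∈ S, ∃ b ∈ S, φ a = s ∧ φ b = s' ∧ E a b (x + h b - h a)) :
    OddK4 E' S' → OddK4 E S := by
  rintro ⟨B', h', hsub, hdis, hconn, hodd⟩
  have hmem : ∀ i t, t ∈ S.filter (fun t => φ t ∈ B' i) ↔ t ∈ S ∧ φ t ∈ B' i := fun i t => by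
    simp
  refine ⟨fun i => S.filter (fun t => φ t ∈ B' i), fun t => h' (φ t) + h t, ?_, ?_, ?_, ?_⟩
  · intro i; exact Finset.filter_subset _ _
  · intro i j hij
    rw [Finset.disjoint_left]
    intro t ht1 ht2
    rw [hmem] at ht1 ht2
    exact Finset.disjoint_left.mp (hdis i j hij) ht1.2 ht2.2
  · intro i
    have hne : ∀ s ∈ B' i, ∃ t ∈ S, φ t = s := by
      intro s hs
      obtain ⟨t, ht⟩ := (hfib s (hsub i hs)).1
      rw [Finset.mem_filter] at ht
      exact ⟨t, ht.1, ht.2⟩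
    refine ⟨?_, ?_⟩
    · obtain ⟨s, hs⟩ := (hconn i).1
      obtain ⟨t, ht, hts⟩ := hne s hs
      exact ⟨t, (hmem i t).2 ⟨ht, by rw [hts]; exact hs⟩⟩
    · intro J hJ hJne hJS
      by_cases hcase : ∃ s ∈ B' i, (∃ t ∈ S, φ t = s ∧ t ∈ J) ∧ (∃ t ∈ S, φ t = s ∧ t ∉ J)
      · obtain ⟨s, hs, ⟨t1, ht1, hφ1, hJ1⟩, ⟨t2, ht2, hφ2, hJ2⟩⟩ := hcase
        have hF := (hfib s (hsub i hs)).2 ((S.filter (fun t => φ t = s)).filter (fun t => t ∈ J))
          (Finset.filter_subset _ _)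
          ⟨t1, by simp only [Finset.mem_filter]; exact ⟨⟨ht1, hφ1⟩, hJ1⟩⟩
          (by
            intro heq
            have : t2 ∈ (S.filter (fun t => φ t = s)) := by
              simp only [Finset.mem_filter]; exact ⟨ht2, hφ2⟩
            rw [← heq] at this
            simp only [Finset.mem_filter] at this
            exact hJ2 this.2)
        obtain ⟨a, ha, b, hb, hb', hab⟩ := hF
        simp only [Finset.mem_filter] at ha hb hb'
        refine ⟨a, ha.2, b, ?_, ?_, ?_⟩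
        · rw [hmem]; exact ⟨hb.1, by rw [hb.2]; exact hs⟩
        · intro hbJ; exact hb' ⟨hb, hbJ⟩
        · unfold Fl at hab ⊢
          beta_reduce
          rw [ha.1.2, hb.2]
          convert hab using 1; ring
      · push Not at hcase
        have hfull : ∀ s ∈ B' i, (∃ t ∈ S, φ t = s ∧ t ∈ J) → ∀ t ∈ S, φ t = s → t ∈ J := by
          intro s hs ⟨t1, ht1, h1, h2⟩ t ht hφ
          exact hcase s hs ⟨t1, ht1, h1, h2⟩ t ht hφ
        have hJ'1 : ((B' i).filter (fun s => ∃ t ∈ S, φ t = s ∧ t ∈ J)).Nonempty := by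
          obtain ⟨t, ht⟩ := hJne
          have h1 := (hmem i t).1 (hJ ht)
          exact ⟨φ t, by simp only [Finset.mem_filter]; exact ⟨h1.2, t, h1.1, rfl, ht⟩⟩
        have hJ'2 : ((B' i).filter (fun s => ∃ t ∈ S, φ t = s ∧ t ∈ J)) ≠ B' i := by
          intro heq
          apply hJS
          apply Finset.Subset.antisymm hJ
          intro t ht
          have h1 := (hmem i t).1 ht
          have h2 := h1.2
          rw [← heq] at h2
          simp only [Finset.mem_filter] at h2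
          exact hfull _ h1.2 h2.2 t h1.1 rfl
        obtain ⟨s, hs, s', hs', hs'n, hE'⟩ := (hconn i).2 _ (Finset.filter_subset _ _) hJ'1 hJ'2
        simp only [Finset.mem_filter] at hs hs'n
        have hne' : s ≠ s' := by
          intro h; subst h; exact hs'n hs
        obtain ⟨a, ha, b, hb, hφa, hφb, hab⟩ := hedge s (hsub i hs.1) s' (hsub i hs') _ hE' hne'
        refine ⟨a, hfull s hs.1 hs.2 a ha hφa, b, ?_, ?_, ?_⟩
        · rw [hmem]; exact ⟨hb, by rw [hφb]; exact hs'⟩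
        · intro hbJ; exact hs'n ⟨hs', b, hb, hφb, hbJ⟩
        · unfold Fl
          beta_reduce
          rw [hφa, hφb]
          convert hab using 1; ring
  · intro i j hij
    obtain ⟨s, hs, s', hs', hE'⟩ := hodd i j hij
    have hne' : s ≠ s' := by
      intro h; subst h; exact Finset.disjoint_left.mp (hdis i j hij) hs hs'
    obtain ⟨a, ha, b, hb, hφa, hφb, hab⟩ := hedge s (hsub i hs) s' (hsub j hs') _ hE' hne'
    refine ⟨a, ?_, b, ?_, ?_⟩
    · rw [hmem]; exact ⟨ha, by rw [hφa]; exact hs⟩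
    · rw [hmem]; exact ⟨hb, by rw [hφb]; exact hs'⟩
    · beta_reduce
      rw [hφa, hφb]
      convert hab using 1; ring

end SgK4


/-! ### potential -/

namespace SgK4
variable {V : Type}

/-- walks with costs -/
inductive CW (A : V → V → ℤ → Prop) (S : Finset V) : V → V → ℤ → Prop
  | nil (a : V) (ha : a ∈ S) : CW A S a a 0
  | cons {a b c : V} {x y : ℤ} (ha : a ∈ S) (h : A a b x) (t : CW A S b c y) : CW A S a c (x + y)


/-- elimination step relation -/
def ElimR (A : V → V → ℤ → Prop) (t : V) : V → V → ℤ → Prop := fun a b c =>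
  A a b c ∨ ∃ c1 c2, A a t c1 ∧ A t b c2 ∧ c = c1 + c2

theorem CW.of_elim {A : V → V → ℤ → Prop} {S : Finset V} {t : V} {a b : V} {c : ℤ}
    (h : CW (ElimR A t) S a b c) : CW A (insert t S) a b c := by
  induction h with
  | nil a ha => exact CW.nil a (Finset.mem_insert_of_mem ha)
  | cons ha h _ ih =>
    rcases h with h | ⟨c1, c2, h1, h2, rfl⟩
    · exact CW.cons (Finset.mem_insert_of_mem ha) h ih
    · rw [add_assoc]
      exact CW.cons (Finset.mem_insert_of_mem ha) h1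
        (CW.cons (Finset.mem_insert_self t S) h2 ih)

/-- potentials exist if no closed walk is negative (vertex elimination) -/
theorem potential (A : V → V → ℤ → Prop) (S : Finset V)
    (hb : ∃ B : ℤ, ∀ a ∈ S, ∀ b ∈ S, ∀ c, A a b c → -B ≤ c)
    (hcl : ∀ a c, CW A S a a c → 0 ≤ c) :
    ∃ f : V → ℤ, ∀ a ∈ S, ∀ b ∈ S, ∀ c, A a b c → f b ≤ f a + c := by
  induction S using Finset.induction_on generalizing A with
  | empty => exact ⟨fun _ => 0, by simp⟩
  | insert t S htS ih =>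
    obtain ⟨B, hB⟩ := hb
    have hB' : ∀ a ∈ insert t S, ∀ b ∈ insert t S, ∀ c, A a b c → -|B| ≤ c := by
      intro a ha b hb c hc
      have := hB a ha b hb c hc
      have := le_abs_self B
      omega
    obtain ⟨f, hf⟩ := ih (ElimR A t) ⟨2 * |B|, by
        intro a ha b hb c hc
        have ha' := Finset.mem_insert_of_mem (a := a) (b := t) ha
        have hb' := Finset.mem_insert_of_mem (a := b) (b := t) hb
        have ht' := Finset.mem_insert_self t S
        have hBn := abs_nonneg B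
        rcases hc with h | ⟨c1, c2, h1, h2, rfl⟩
        · have := hB' a ha' b hb' c h
          omega
        · have := hB' a ha' t ht' c1 h1
          have := hB' t ht' b hb' c2 h2
          omega⟩
      (by
        intro a c hc
        exact hcl a c (CW.of_elim hc))
    have hM : ∀ a ∈ S, |f a| ≤ ∑ x ∈ S, |f x| := fun a ha =>
      Finset.single_le_sum (f := fun x => |f x|) (fun x _ => abs_nonneg (f x)) ha
    set M := ∑ x ∈ S, |f x| with hMdef
    have key : ∃ v : ℤ, (∀ a ∈ S, ∀ c, A a t c → v ≤ f a + c) ∧ (∀ b ∈ S, ∀ c, A t b c → f b ≤ v + c) := by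
      by_cases hU : ∃ z : ℤ, ∃ a ∈ S, ∃ c, A a t c ∧ z = f a + c
      · obtain ⟨v, ⟨a, ha, c, hac, hv⟩, hmin⟩ := Int.exists_least_of_bdd
          (P := fun z => ∃ a ∈ S, ∃ c, A a t c ∧ z = f a + c) ⟨-M - |B|, by
            rintro z ⟨a, ha, c, hac, rfl⟩
            have h1 := hB' a (Finset.mem_insert_of_mem ha) t (Finset.mem_insert_self t S) c hac
            have h2 := hM a ha
            have h3 := neg_abs_le (f a)
            omega⟩ hU
        refine ⟨v, fun a' ha' c' h' => hmin _ ⟨a', ha', c', h', rfl⟩, fun b hb c' h' => ?_⟩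
        have := hf a ha b hb (c + c') (Or.inr ⟨c, c', hac, h', rfl⟩)
        omega
      · push Not at hU
        refine ⟨M + |B|, fun a ha c hac => absurd rfl (hU (f a + c) a ha c hac), fun b hb c h => ?_⟩
        have h1 := hB' t (Finset.mem_insert_self t S) b (Finset.mem_insert_of_mem hb) c h
        have h2 := hM b hb
        have h3 := le_abs_self (f b)
        omega
    obtain ⟨v, hv1, hv2⟩ := key
    refine ⟨fun x => if x = t then v else f x, ?_⟩
    have hne : ∀ x ∈ S, x ≠ t := fun x hx h => htS (h ▸ hx)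
    intro a ha b hb c hc
    rcases Finset.mem_insert.mp ha with rfl | ha2
    · rcases Finset.mem_insert.mp hb with rfl | hb
      · have := hcl _ (c + 0) (CW.cons (Finset.mem_insert_self _ S) hc (CW.nil _ (Finset.mem_insert_self _ S)))
        simp only [if_true]
        omega
      · simp only [if_true, if_neg (hne b hb)]
        exact hv2 b hb c hc
    · rcases Finset.mem_insert.mp hb with rfl | hb
      · simp only [if_true, if_neg (hne a ha2)]
        exact hv1 a ha2 c hc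
      · simp only [if_neg (hne a ha2), if_neg (hne b hb)]
        exact hf a ha2 b hb c (Or.inl hc)


end SgK4


/-! ### closed_nonneg -/

namespace SgK4
variable {V : Type}

theorem mkWk17 (W : V → V → ℤ → ℕ → Prop) (S : Finset V) : ∀ (j : ℕ) (p : ℕ → V) (x : ℕ → ℤ) (l : ℕ → ℕ),
    (∀ i ≤ j, p i ∈ S) → (∀ i < j, W (p i) (p (i + 1)) (x i) (l i)) →
    Wk W S (p 0) (p j) (∑ i ∈ Finset.range j, x i) (∑ i ∈ Finset.range j, l i) := by
  intro j
  induction j with
  | zero =>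
    intro p x l hp _
    simpa using Wk.nil (W := W) (S := S) (p 0) (hp 0 le_rfl)
  | succ j ih =>
    intro p x l hp he
    have h1 := ih (fun i => p (i + 1)) (fun i => x (i + 1)) (fun i => l (i + 1))
      (fun i hi => hp (i + 1) (by omega)) (fun i hi => he (i + 1) (by omega))
    have h2 := Wk.cons (hp 0 (by omega)) (he 0 (by omega)) h1
    rw [Finset.sum_range_succ', Finset.sum_range_succ', add_comm _ (x 0), add_comm _ (l 0)]
    exact h2

/-- a simple cycle satisfies the inequality -/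
theorem cycle17 (W : V → V → ℤ → ℕ → Prop) (S : Finset V) (T : V → V → ℤ → Prop)
    (hL : Lift (Sup W) S T) (h3 : Neg W S 3) (j : ℕ) (p : ℕ → V) (x : ℕ → ℤ) (l : ℕ → ℕ)
    (hp : ∀ i ≤ j, p i ∈ S) (hinj : ∀ i ≤ j, ∀ k ≤ j, p i = p k → i = k)
    (he : ∀ i < j, T (p i) (p (i + 1)) (x i) ∧ W (p i) (p (i + 1)) (x i) (l i))
    (x0 : ℤ) (l0 : ℕ) (hT : T (p j) (p 0) x0) (hW0 : W (p j) (p 0) x0 l0) :
    3 * (x0 + ∑ i ∈ Finset.range j, x i) ≤ ((l0 + ∑ i ∈ Finset.range j, l i : ℕ) : ℤ) := by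
  -- potential
  set h : V → ℤ := fun v => if hv : ∃ i, i ≤ j ∧ p i = v then ∑ k ∈ Finset.range hv.choose, x k else 0 with hh
  have hval : ∀ i ≤ j, h (p i) = ∑ k ∈ Finset.range i, x k := by
    intro i hi
    have hv : ∃ i', i' ≤ j ∧ p i' = p i := ⟨i, hi, rfl⟩
    simp only [hh, dif_pos hv]
    have := hinj _ hv.choose_spec.1 i hi hv.choose_spec.2
    rw [this]
  have hconn : ∀ i ≤ j, Conn (Fl T h) ((Finset.range (i + 1)).image p) := by
    intro i
    induction i with
    | zero =>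
      intro _
      have : (Finset.range (0 + 1)).image p = {p 0} := by simp
      rw [this]
      exact Conn.single _ _
    | succ i ih =>
      intro hi
      have h1 := ih (by omega)
      rw [Finset.range_add_one, Finset.image_insert]
      refine Conn.insert (fun _ _ h => Fl.symm hL.symm h) h1 (a := p i)
        (Finset.mem_image_of_mem _ (Finset.mem_range.2 (by omega))) ?_
      unfold Fl
      rw [hval (i + 1) hi, hval i (by omega), Finset.sum_range_succ]
      have := (he i (by omega)).1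
      convert this using 1
      ring
  have hX : (Finset.range (j + 1)).image p ⊆ S := by
    intro v hv
    obtain ⟨i, hi, rfl⟩ := Finset.mem_image.1 hv
    exact hp i (by have := Finset.mem_range.1 hi; omega)
  have hdev := hL.dev _ hX h (hconn j le_rfl) (p j) (Finset.mem_image_of_mem _ (Finset.mem_range.2 (by omega)))
    (p 0) (Finset.mem_image_of_mem _ (Finset.mem_range.2 (by omega))) x0 hT
  rw [hval 0 (by omega), hval j le_rfl, Finset.range_zero, Finset.sum_empty] at hdev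
  have hle : x0 + ∑ i ∈ Finset.range j, x i ≤ 1 := by
    have := (abs_le.1 hdev).2
    linarith
  have hnn : (0 : ℤ) ≤ ((l0 + ∑ i ∈ Finset.range j, l i : ℕ) : ℤ) := Int.natCast_nonneg _
  rcases lt_or_eq_of_le hle with h1 | h1
  · have h2 : x0 + ∑ i ∈ Finset.range j, x i ≤ 0 := by omega
    linarith
  · have h4 := Wk.cons (hp j le_rfl) hW0 (mkWk17 W S j p x l hp (fun i hi => (he i hi).2))
    have h5 := h3 _ _ _ h4 (by rw [h1]; exact odd_one)
    have h6 : (3 : ℤ) ≤ ((l0 + ∑ i ∈ Finset.range j, l i : ℕ) : ℤ) := by exact_mod_cast h5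
    rw [h1]
    linarith

/-- loop erasure -/
theorem loop17 (W : V → V → ℤ → ℕ → Prop) (S : Finset V) (T : V → V → ℤ → Prop)
    (hL : Lift (Sup W) S T) (h3 : Neg W S 3) {a b : V} {X : ℤ} {L : ℕ}
    (h : Wk (fun a b x l => T a b x ∧ W a b x l) S a b X L) :
    ∃ (m : ℕ) (p : ℕ → V) (x : ℕ → ℤ) (l : ℕ → ℕ), p 0 = a ∧ p m = b ∧ (∀ i ≤ m, p i ∈ S) ∧
      (∀ i ≤ m, ∀ k ≤ m, p i = p k → i = k) ∧
      (∀ i < m, T (p i) (p (i + 1)) (x i) ∧ W (p i) (p (i + 1)) (x i) (l i)) ∧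
      3 * X + ((∑ i ∈ Finset.range m, l i : ℕ) : ℤ) ≤ 3 * (∑ i ∈ Finset.range m, x i) + (L : ℤ) := by
  induction h with
  | nil a ha =>
    refine ⟨0, fun _ => a, fun _ => 0, fun _ => 0, rfl, rfl, fun _ _ => ha, ?_, ?_, ?_⟩
    · intro i hi k hk _; omega
    · intro i hi; omega
    · simp
  | @cons a b c x0 y l0 M ha hab t ih =>
    obtain ⟨m, p, x, l, hp0, hpm, hpS, hinj, he, hsum⟩ := ih
    by_cases hex : ∃ j, j ≤ m ∧ p j = a
    · obtain ⟨j, hj, hja⟩ := hex
      have hcyc := cycle17 W S T hL h3 j p x l (fun i hi => hpS i (by omega))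
        (fun i hi k hk => hinj i (by omega) k (by omega)) (fun i hi => he i (by omega)) x0 l0
        (by rw [hja, hp0]; exact hab.1) (by rw [hja, hp0]; exact hab.2)
      obtain ⟨r, rfl⟩ : ∃ r, m = j + r := ⟨m - j, by omega⟩
      refine ⟨r, fun i => p (j + i), fun i => x (j + i), fun i => l (j + i), hja, hpm,
        fun i hi => hpS _ (by omega), ?_, ?_, ?_⟩
      · intro i hi k hk hik
        have := hinj (j + i) (by omega) (j + k) (by omega) hik
        omega
      · intro i hi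
        exact he (j + i) (by omega)
      · rw [Finset.sum_range_add, Finset.sum_range_add] at hsum
        push_cast at hsum hcyc ⊢
        linarith
    · have hne : ∀ i ≤ m, p i ≠ a := fun i hi h' => hex ⟨i, hi, h'⟩
      refine ⟨m + 1, fun i => Nat.casesOn i a p, fun i => Nat.casesOn i x0 x,
        fun i => Nat.casesOn i l0 l, rfl, hpm, ?_, ?_, ?_, ?_⟩
      · intro i hi
        cases i with
        | zero => exact ha
        | succ i => exact hpS i (by omega)
      · intro i hi k hk hik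
        cases i with
        | zero =>
          cases k with
          | zero => rfl
          | succ k => exact absurd hik.symm (hne k (by omega))
        | succ i =>
          cases k with
          | zero => exact absurd hik (hne i (by omega))
          | succ k =>
            have := hinj i (by omega) k (by omega) hik
            omega
      · intro i hi
        cases i with
        | zero =>
          show T a (p 0) x0 ∧ W a (p 0) x0 l0
          rw [hp0]
          exact hab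
        | succ i => exact he i (by omega)
      · rw [Finset.sum_range_succ', Finset.sum_range_succ']
        show 3 * (x0 + y) + ((∑ i ∈ Finset.range m, l i + l0 : ℕ) : ℤ) ≤
          3 * (∑ i ∈ Finset.range m, x i + x0) + ((l0 + M : ℕ) : ℤ)
        push_cast at hsum ⊢
        linarith

/-- closed walks along lifted edges: `3 x ≤ l` -/
theorem closed_nonneg (W : V → V → ℤ → ℕ → Prop) (hW : WGr W) (S : Finset V) (T : V → V → ℤ → Prop)
    (hL : Lift (Sup W) S T) (h3 : Neg W S 3) :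
    ∀ a x l, Wk (fun a b x l => T a b x ∧ W a b x l) S a a x l → 3 * x ≤ (l : ℤ) := by
  intro a X L h
  obtain ⟨m, p, x, l, hp0, hpm, hpS, hinj, he, hsum⟩ := loop17 W S T hL h3 h
  have hm : 0 = m := hinj 0 (by omega) m le_rfl (hp0.trans hpm.symm)
  subst hm
  simpa using hsum

end SgK4



/-! ### lift3 -/

namespace SgK4
variable {V : Type}

/-- lifts on three vertices when one pair is not a digon -/
theorem lift3 (E : V → V → ℤ → Prop) (hE : SGr E) (a b c : V) (hab : a ≠ b) (hac : a ≠ c) (hbc : b ≠ c)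
    (hs : ∀ x y, E a b x → E a b y → Even (x - y)) : ∃ T, Lift E {a, b, c} T := by
  obtain ⟨x0, hx0⟩ : ∃ x0 : ℤ, ∀ x, E a b x → E a b x0 ∧ Even (x0 - x) := by
    by_cases h : ∃ x, E a b x
    · obtain ⟨x0, h0⟩ := h
      exact ⟨x0, fun x hx => ⟨h0, hs _ _ h0 hx⟩⟩
    · exact ⟨0, fun x hx => absurd ⟨x, hx⟩ h⟩
  have hba := hab.symm
  have hca := hac.symm
  have hcb := hbc.symm
  let T : V → V → ℤ → Prop := fun s t x =>
    (s = a ∧ t = b ∧ x = x0 ∧ E a b x0) ∨ (s = b ∧ t = a ∧ -x = x0 ∧ E a b x0) ∨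
    (s = c ∧ t = a ∧ E c a x ∧ (x = 0 ∨ x = 1)) ∨ (s = a ∧ t = c ∧ E c a (-x) ∧ (-x = 0 ∨ -x = 1)) ∨
    (s = c ∧ t = b ∧ E c b x ∧ (x = x0 ∨ x = x0 + 1)) ∨
    (s = b ∧ t = c ∧ E c b (-x) ∧ (-x = x0 ∨ -x = x0 + 1))
  have hsymm : ∀ s t x, T s t x → T t s (-x) := by
    intro s t x h
    rcases h with ⟨h1, h2, h3, h4⟩ | ⟨h1, h2, h3, h4⟩ | ⟨h1, h2, h3, h4⟩ | ⟨h1, h2, h3, h4⟩ |
      ⟨h1, h2, h3, h4⟩ | ⟨h1, h2, h3, h4⟩
    · exact Or.inr (Or.inl ⟨h2, h1, by rw [neg_neg]; exact h3, h4⟩)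
    · exact Or.inl ⟨h2, h1, h3, h4⟩
    · exact Or.inr (Or.inr (Or.inr (Or.inl ⟨h2, h1, by rw [neg_neg]; exact h3, by rw [neg_neg]; exact h4⟩)))
    · exact Or.inr (Or.inr (Or.inl ⟨h2, h1, h3, h4⟩))
    · exact Or.inr (Or.inr (Or.inr (Or.inr (Or.inr ⟨h2, h1, by rw [neg_neg]; exact h3, by rw [neg_neg]; exact h4⟩))))
    · exact Or.inr (Or.inr (Or.inr (Or.inr (Or.inl ⟨h2, h1, h3, h4⟩))))
  refine ⟨T, hsymm, ?_, ?_, ?_⟩
  · intro s t x h
    rcases h with ⟨rfl, rfl, h3, h4⟩ | ⟨rfl, rfl, h3, h4⟩ | ⟨rfl, rfl, h3, h4⟩ | ⟨rfl, rfl, h3, h4⟩ |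
      ⟨rfl, rfl, h3, h4⟩ | ⟨rfl, rfl, h3, h4⟩
    · exact ⟨by simp, by simp, by rw [h3]; exact h4⟩
    · refine ⟨by simp, by simp, ?_⟩
      have := hE.symm _ _ _ h4
      rw [← h3, neg_neg] at this
      exact this
    · exact ⟨by simp, by simp, h3⟩
    · refine ⟨by simp, by simp, ?_⟩
      have := hE.symm _ _ _ h3
      rw [neg_neg] at this
      exact this
    · exact ⟨by simp, by simp, h3⟩
    · refine ⟨by simp, by simp, ?_⟩
      have := hE.symm _ _ _ h3
      rw [neg_neg] at this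
      exact this
  · -- existence
    have eab : ∀ x, E a b x → ∃ y, T a b y ∧ Even (y - x) := fun x hx =>
      ⟨x0, Or.inl ⟨rfl, rfl, rfl, (hx0 x hx).1⟩, (hx0 x hx).2⟩
    have eca : ∀ x, E c a x → ∃ y, T c a y ∧ Even (y - x) := by
      intro x hx
      rcases Int.even_or_odd x with he | he
      · refine ⟨0, Or.inr (Or.inr (Or.inl ⟨rfl, rfl, hE.evn hx (by simpa using he), Or.inl rfl⟩)), ?_⟩
        simpa using he
      · have : Even (1 - x) := by
          obtain ⟨k, hk⟩ := he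
          exact ⟨-k, by omega⟩
        exact ⟨1, Or.inr (Or.inr (Or.inl ⟨rfl, rfl, hE.evn hx this, Or.inr rfl⟩)), this⟩
    have ecb : ∀ x, E c b x → ∃ y, T c b y ∧ Even (y - x) := by
      intro x hx
      rcases Int.even_or_odd (x0 - x) with he | he
      · exact ⟨x0, Or.inr (Or.inr (Or.inr (Or.inr (Or.inl ⟨rfl, rfl, hE.evn hx he, Or.inl rfl⟩)))), he⟩
      · have : Even (x0 + 1 - x) := by
          obtain ⟨k, hk⟩ := he
          exact ⟨k + 1, by omega⟩
        exact ⟨x0 + 1, Or.inr (Or.inr (Or.inr (Or.inr (Or.inl ⟨rfl, rfl, hE.evn hx this, Or.inr rfl⟩)))), this⟩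
    have rev : ∀ s t, (∀ x, E s t x → ∃ y, T s t y ∧ Even (y - x)) →
        ∀ x, E t s x → ∃ y, T t s y ∧ Even (y - x) := by
      intro s t h x hx
      obtain ⟨y, hy, k, hk⟩ := h (-x) (hE.symm _ _ _ hx)
      exact ⟨-y, hsymm _ _ _ hy, -k, by omega⟩
    intro s hs' t ht' x hx
    have hst := hE.irr _ _ _ hx
    simp only [Finset.mem_insert, Finset.mem_singleton] at hs' ht'
    rcases hs' with rfl | rfl | rfl <;> rcases ht' with rfl | rfl | rfl
    · exact absurd rfl hst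
    · exact eab x hx
    · exact rev _ _ eca x hx
    · exact rev _ _ eab x hx
    · exact absurd rfl hst
    · exact rev _ _ ecb x hx
    · exact eca x hx
    · exact ecb x hx
    · exact absurd rfl hst
  · intro X hX h hconn s hsX t htX x hx
    have fab : Fl T h a b → h b - h a = x0 := by
      intro hf
      rcases hf with ⟨h1, h2, h3, h4⟩ | ⟨h1, h2, h3, h4⟩ | ⟨h1, h2, h3, h4⟩ | ⟨h1, h2, h3, h4⟩ |
        ⟨h1, h2, h3, h4⟩ | ⟨h1, h2, h3, h4⟩
      · exact h3
      · exact absurd h1 hab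
      · exact absurd h1 hac
      · exact absurd h2 hbc
      · exact absurd h1 hac
      · exact absurd h1 hab
    have fca : Fl T h c a → (h a - h c = 0 ∨ h a - h c = 1) := by
      intro hf
      rcases hf with ⟨h1, h2, h3, h4⟩ | ⟨h1, h2, h3, h4⟩ | ⟨h1, h2, h3, h4⟩ | ⟨h1, h2, h3, h4⟩ |
        ⟨h1, h2, h3, h4⟩ | ⟨h1, h2, h3, h4⟩
      · exact absurd h1 hca
      · exact absurd h1 hcb
      · exact h4
      · exact absurd h1 hca
      · exact absurd h2 hab
      · exact absurd h1 hcb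
    have fcb : Fl T h c b → (h b - h c = x0 ∨ h b - h c = x0 + 1) := by
      intro hf
      rcases hf with ⟨h1, h2, h3, h4⟩ | ⟨h1, h2, h3, h4⟩ | ⟨h1, h2, h3, h4⟩ | ⟨h1, h2, h3, h4⟩ |
        ⟨h1, h2, h3, h4⟩ | ⟨h1, h2, h3, h4⟩
      · exact absurd h1 hca
      · exact absurd h1 hcb
      · exact absurd h2 hba
      · exact absurd h1 hca
      · exact h4
      · exact absurd h1 hcb
    have key : ∀ s t u, s ≠ t → s ∈ X → t ∈ X → (∀ v ∈ X, v = s ∨ v = t ∨ v = u) →
        Fl T h s t ∨ (Fl T h s u ∧ Fl T h t u) := by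
      intro s t u hst hs ht hu
      obtain ⟨a', ha', b', hb', hb'', hf⟩ := hconn.2 {s} (Finset.singleton_subset_iff.2 hs)
        (Finset.singleton_nonempty s) (by
          intro he
          rw [← he] at ht
          exact hst (Finset.mem_singleton.1 ht).symm)
      obtain ⟨a'', ha'', c', hc', hc'', hg⟩ := hconn.2 {t} (Finset.singleton_subset_iff.2 ht)
        (Finset.singleton_nonempty t) (by
          intro he
          rw [← he] at hs
          exact hst (Finset.mem_singleton.1 hs))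
      rw [Finset.mem_singleton] at ha' ha'' hb'' hc''
      subst ha' ha''
      rcases hu b' hb' with rfl | rfl | rfl
      · exact absurd rfl hb''
      · exact Or.inl hf
      · rcases hu c' hc' with rfl | rfl | rfl
        · exact Or.inl (Fl.symm hsymm hg)
        · exact absurd rfl hc''
        · exact Or.inr ⟨hf, hg⟩
    have hmem : ∀ v ∈ X, v = a ∨ v = b ∨ v = c := by
      intro v hv
      have := hX hv
      simpa using this
    -- the three pairs
    have pab : a ∈ X → b ∈ X → |x0 - (h b - h a)| ≤ 1 := by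
      intro ha hb
      rcases key a b c hab ha hb hmem with hf | ⟨hf, hg⟩
      · rw [fab hf]; simp
      · have h1 := fca (Fl.symm hsymm hf)
        have h2 := fcb (Fl.symm hsymm hg)
        rw [abs_le]; constructor <;> rcases h1 with h1 | h1 <;> rcases h2 with h2 | h2 <;> omega
    have pca : c ∈ X → a ∈ X → (h a - h c = 0 ∨ h a - h c = 1) := by
      intro hc ha
      rcases key c a b hca hc ha (fun v hv => by
        rcases hmem v hv with h | h | h
        · exact Or.inr (Or.inl h)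
        · exact Or.inr (Or.inr h)
        · exact Or.inl h) with hf | ⟨hf, hg⟩
      · exact fca hf
      · have h1 := fcb hf
        have h2 := fab hg
        rcases h1 with h1 | h1
        · left; omega
        · right; omega
    have pcb : c ∈ X → b ∈ X → (h b - h c = x0 ∨ h b - h c = x0 + 1) := by
      intro hc hb
      rcases key c b a hcb hc hb (fun v hv => by
        rcases hmem v hv with h | h | h
        · exact Or.inr (Or.inr h)
        · exact Or.inr (Or.inl h)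
        · exact Or.inl h) with hf | ⟨hf, hg⟩
      · exact fcb hf
      · have h1 := fca hf
        have h2 := fab (Fl.symm hsymm hg)
        rcases h1 with h1 | h1
        · left; omega
        · right; omega
    rcases hx with ⟨rfl, rfl, h3, h4⟩ | ⟨rfl, rfl, h3, h4⟩ | ⟨rfl, rfl, h3, h4⟩ | ⟨rfl, rfl, h3, h4⟩ |
      ⟨rfl, rfl, h3, h4⟩ | ⟨rfl, rfl, h3, h4⟩
    · rw [h3]; exact pab hsX htX
    · have := pab htX hsX
      rw [abs_le] at this ⊢
      constructor <;> omega
    · have := pca hsX htX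
      rw [abs_le]
      constructor <;> omega
    · have := pca htX hsX
      rw [abs_le]
      constructor <;> omega
    · have := pcb hsX htX
      rw [abs_le]
      constructor <;> omega
    · have := pcb htX hsX
      rw [abs_le]
      constructor <;> omega

end SgK4


/-! ### k4base -/

namespace SgK4
variable {V : Type}

theorem k4base_aux (E : V → V → ℤ → Prop) (hE : SGr E) (u v x : V) (hux : u ≠ x) (c r : ℤ)
    (a1 : Adj E u x) (a3 : Adj E v x)
    (c1 : Ctr E u v c u x r) (c2 : Ctr E u v c u x (r + 1)) :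
    ∃ ξ : ℤ, E u x (ξ + 1) ∧ E v x (ξ - c) := by
  have hall : ∀ z : ℤ, E u x z ∨ E v x (z - c) := by
    have e1 : E u x r ∨ E v x (r - c) := by
      obtain ⟨_, _, _, h | ⟨_, h⟩ | ⟨h, _⟩⟩ := c1
      · exact Or.inl h
      · exact Or.inr h
      · exact absurd h.symm hux
    have e2 : E u x (r + 1) ∨ E v x (r + 1 - c) := by
      obtain ⟨_, _, _, h | ⟨_, h⟩ | ⟨h, _⟩⟩ := c2
      · exact Or.inl h
      · exact Or.inr h
      · exact absurd h.symm hux
    intro z
    rcases Int.even_or_odd (z - r) with hz | hz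
    · rcases e1 with h | h
      · exact Or.inl (hE.evn h hz)
      · refine Or.inr (hE.evn h ?_)
        obtain ⟨k, hk⟩ := hz; exact ⟨k, by omega⟩
    · rcases e2 with h | h
      · refine Or.inl (hE.evn h ?_)
        obtain ⟨k, hk⟩ := hz; exact ⟨k, by omega⟩
      · refine Or.inr (hE.evn h ?_)
        obtain ⟨k, hk⟩ := hz; exact ⟨k, by omega⟩
  obtain ⟨α, hα⟩ := a1
  obtain ⟨β, hβ⟩ := a3
  rcases hall (α + 1) with h | h
  · refine ⟨β + c, ?_, ?_⟩
    · rcases Int.even_or_odd (β + c + 1 - α) with hz | hz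
      · exact hE.evn hα hz
      · refine hE.evn h ?_
        obtain ⟨k, hk⟩ := hz; exact ⟨k, by omega⟩
    · refine hE.evn hβ ⟨0, by omega⟩
  · exact ⟨α + 1, hE.evn hα ⟨1, by omega⟩, h⟩

/-- a 4-vertex graph whose contraction is the all-digon triangle has an odd K4 -/
theorem k4base (E : V → V → ℤ → Prop) (hE : SGr E) (u v x y : V) (huv : u ≠ v) (hux : u ≠ x) (huy : u ≠ y)
    (hvx : v ≠ x) (hvy : v ≠ y) (hxy : x ≠ y) (c d r s : ℤ) (h0 : E u v c)
    (a1 : Adj E u x) (a2 : Adj E u y) (a3 : Adj E v x) (a4 : Adj E v y)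
    (b1 : E x y d) (b2 : E x y (d + 1))
    (c1 : Ctr E u v c u x r) (c2 : Ctr E u v c u x (r + 1))
    (d1 : Ctr E u v c u y s) (d2 : Ctr E u v c u y (s + 1)) : OddK4 E {u, v, x, y} := by
  obtain ⟨ξ, x1, x2⟩ := k4base_aux E hE u v x hux c r a1 a3 c1 c2
  obtain ⟨η, y1, y2⟩ := k4base_aux E hE u v y huy c s a2 a4 d1 d2
  set h : V → ℤ := fun t => if t = u then 0 else if t = v then c + 1 else if t = x then ξ else η with hh
  have hu : h u = 0 := by simp [hh]
  have hv : h v = c + 1 := by simp [hh, huv.symm]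
  have hx : h x = ξ := by simp [hh, hux.symm, hvx.symm]
  have hy : h y = η := by simp [hh, huy.symm, hvy.symm, hxy.symm]
  have rev : ∀ a b : V, E a b (h b - h a + 1) → E b a (h a - h b + 1) := by
    intro a b hab
    refine hE.evn (hE.symm _ _ _ hab) ⟨1, by omega⟩
  have euv : E u v (h v - h u + 1) := hE.evn h0 ⟨1, by omega⟩
  have eux : E u x (h x - h u + 1) := hE.evn x1 ⟨0, by omega⟩
  have euy : E u y (h y - h u + 1) := hE.evn y1 ⟨0, by omega⟩
  have evx : E v x (h x - h v + 1) := hE.evn x2 ⟨0, by omega⟩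
  have evy : E v y (h y - h v + 1) := hE.evn y2 ⟨0, by omega⟩
  have exy : E x y (h y - h x + 1) := by
    rcases Int.even_or_odd (h y - h x + 1 - d) with hz | hz
    · exact hE.evn b1 hz
    · refine hE.evn b2 ?_
      obtain ⟨k, hk⟩ := hz; exact ⟨k, by omega⟩
  refine ⟨![{u}, {v}, {x}, {y}], h, ?_, ?_, ?_, ?_⟩
  · intro i
    fin_cases i <;> simp
  · intro i j hij
    fin_cases i <;> fin_cases j <;> simp_all [huv, hux, huy, hvx, hvy, hxy, huv.symm, hux.symm,
      huy.symm, hvx.symm, hvy.symm, hxy.symm]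
  · intro i
    fin_cases i
    · exact Conn.single _ u
    · exact Conn.single _ v
    · exact Conn.single _ x
    · exact Conn.single _ y
  · intro i j hij
    fin_cases i <;> fin_cases j
    · exact absurd rfl hij
    · exact ⟨u, by simp, v, by simp, euv⟩
    · exact ⟨u, by simp, x, by simp, eux⟩
    · exact ⟨u, by simp, y, by simp, euy⟩
    · exact ⟨v, by simp, u, by simp, rev _ _ euv⟩
    · exact absurd rfl hij
    · exact ⟨v, by simp, x, by simp, evx⟩
    · exact ⟨v, by simp, y, by simp, evy⟩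
    · exact ⟨x, by simp, u, by simp, rev _ _ eux⟩
    · exact ⟨x, by simp, v, by simp, rev _ _ evx⟩
    · exact absurd rfl hij
    · exact ⟨x, by simp, y, by simp, exy⟩
    · exact ⟨y, by simp, u, by simp, rev _ _ euy⟩
    · exact ⟨y, by simp, v, by simp, rev _ _ evy⟩
    · exact ⟨y, by simp, x, by simp, rev _ _ exy⟩
    · exact absurd rfl hij

end SgK4


/-! ### wind_tri -/

namespace SgK4
variable {V : Type}

noncomputable def hiW (W : V → V → ℤ → ℕ → Prop) (a b : V) : ℕ :=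
  if W a b 0 0 then 0 else if W a b 0 1 then 1 else if W a b 0 2 then 2 else 3

noncomputable def loW (W : V → V → ℤ → ℕ → Prop) (a b : V) : ℕ :=
  if W a b 1 0 then 3 else if W a b 1 1 then 2 else if W a b 1 2 then 1 else 0

theorem hiW_le3 (W : V → V → ℤ → ℕ → Prop) (a b : V) : hiW W a b ≤ 3 := by
  unfold hiW; split_ifs <;> omega

theorem loW_le3 (W : V → V → ℤ → ℕ → Prop) (a b : V) : loW W a b ≤ 3 := by
  unfold loW; split_ifs <;> omega

theorem hiW_le {W : V → V → ℤ → ℕ → Prop} {a b : V} {l : ℕ} (h : W a b 0 l) : hiW W a b ≤ l := by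
  unfold hiW
  split_ifs with h0 h1 h2
  · omega
  · rcases Nat.eq_zero_or_pos l with rfl | h'
    · exact absurd h h0
    · omega
  · have : l ≠ 0 := fun e => h0 (e ▸ h)
    have : l ≠ 1 := fun e => h1 (e ▸ h)
    omega
  · have : l ≠ 0 := fun e => h0 (e ▸ h)
    have : l ≠ 1 := fun e => h1 (e ▸ h)
    have : l ≠ 2 := fun e => h2 (e ▸ h)
    omega

theorem loW_ge {W : V → V → ℤ → ℕ → Prop} {a b : V} {l : ℕ} (h : W a b 1 l) :
    3 ≤ loW W a b + l := by
  unfold loW
  split_ifs with h0 h1 h2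
  · omega
  · have : l ≠ 0 := fun e => h0 (e ▸ h)
    omega
  · have : l ≠ 0 := fun e => h0 (e ▸ h)
    have : l ≠ 1 := fun e => h1 (e ▸ h)
    omega
  · have : l ≠ 0 := fun e => h0 (e ▸ h)
    have : l ≠ 1 := fun e => h1 (e ▸ h)
    have : l ≠ 2 := fun e => h2 (e ▸ h)
    omega

theorem hiW_wit (W : V → V → ℤ → ℕ → Prop) (a b : V) : hiW W a b = 3 ∨ W a b 0 (hiW W a b) := by
  unfold hiW
  split_ifs with h0 h1 h2
  · exact Or.inr h0
  · exact Or.inr h1
  · exact Or.inr h2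
  · exact Or.inl rfl

theorem loW_wit (W : V → V → ℤ → ℕ → Prop) (a b : V) :
    loW W a b = 0 ∨ W a b 1 (3 - loW W a b) := by
  unfold loW
  split_ifs with h0 h1 h2
  · exact Or.inr h0
  · exact Or.inr h1
  · exact Or.inr h2
  · exact Or.inl rfl

/-- a circular distance in the interval satisfies all constraints of a pair -/
theorem pair_ok {W : V → V → ℤ → ℕ → Prop} (hW : WGr W) {a b : V} {D : ℤ} {d : ℕ}
    (hD : ∃ k : ℤ, D = d + 6 * k ∨ D = -d + 6 * k) (h1 : loW W a b ≤ d) (h2 : d ≤ hiW W a b)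
    {x : ℤ} {l : ℕ} (h : W a b x l) : ∃ k : ℤ, |D + 3 * x + 6 * k| ≤ (l : ℤ) := by
  have hd3 := hiW_le3 W a b
  obtain ⟨k, hk⟩ := hD
  rcases Int.even_or_odd' x with ⟨j, hj | hj⟩
  · have h0 : W a b 0 l := hW.evn h ⟨-j, by omega⟩
    have h3 := hiW_le h0
    refine ⟨-k - j, ?_⟩
    rw [abs_le]
    rcases hk with hk | hk <;> constructor <;> omega
  · have h0 : W a b 1 l := hW.evn h ⟨-j, by omega⟩
    have h3 := loW_ge h0
    rcases hk with hk | hk
    · refine ⟨-k - j - 1, ?_⟩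
      rw [abs_le]
      constructor <;> omega
    · refine ⟨-k - j, ?_⟩
      rw [abs_le]
      constructor <;> omega

theorem pair_rev {W : V → V → ℤ → ℕ → Prop} (hW : WGr W) {a b : V} {D : ℤ}
    (h : ∀ x l, W a b x l → ∃ k : ℤ, |D + 3 * x + 6 * k| ≤ (l : ℤ)) :
    ∀ x l, W b a x l → ∃ k : ℤ, |-D + 3 * x + 6 * k| ≤ (l : ℤ) := by
  intro x l hx
  obtain ⟨k, hk⟩ := h (-x) l (hW.symm _ _ _ _ hx)
  refine ⟨-k, ?_⟩
  rw [← abs_neg]
  convert hk using 2
  ring

theorem digon {W : V → V → ℤ → ℕ → Prop} (hW : WGr W) {S : Finset V} {g : ℕ} (hN : Neg W S g)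
    {a b : V} (ha : a ∈ S) (hb : b ∈ S) {m0 m1 : ℕ} (h0 : W a b 0 m0) (h1 : W a b 1 m1) :
    g ≤ m0 + m1 := by
  have hw := Wk.cons (S := S) ha h0 (Wk.cons hb (hW.symm _ _ _ _ h1) (Wk.nil a ha))
  have := hN a _ _ hw (by decide)
  simpa using this

theorem tri_eeo {W : V → V → ℤ → ℕ → Prop} {S : Finset V} {g : ℕ} (hN : Neg W S g)
    {a b c : V} (ha : a ∈ S) (hb : b ∈ S) (hc : c ∈ S) {x1 x2 x3 : ℤ} {m1 m2 m3 : ℕ}
    (h1 : W a b x1 m1) (h2 : W b c x2 m2) (h3 : W c a x3 m3) (ho : Odd (x1 + (x2 + (x3 + 0)))) :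
    g ≤ m1 + m2 + m3 := by
  have hw := Wk.cons (S := S) ha h1 (Wk.cons hb h2 (Wk.cons hc h3 (Wk.nil a ha)))
  have := hN a _ _ hw ho
  omega

theorem lo_le_hi {W : V → V → ℤ → ℕ → Prop} (hW : WGr W) {S : Finset V} (hN : Neg W S 3)
    {a b : V} (ha : a ∈ S) (hb : b ∈ S) : loW W a b ≤ hiW W a b := by
  have h3 := loW_le3 W a b
  rcases hiW_wit W a b with h | h
  · omega
  · rcases loW_wit W a b with h' | h'
    · omega
    · have := digon hW hN ha hb h h'
      omega

theorem lo_lt_hi {W : V → V → ℤ → ℕ → Prop} (hW : WGr W) {S : Finset V} {p q : V}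
    (hN : Neg (NoPQ W p q) S 4) 
    (h1 : ∀ a ∈ S, ∀ b ∈ S, ∀ x l, W a b x l → ¬ IsPQ p q a b → 1 ≤ l)
    {a b : V} (ha : a ∈ S) (hb : b ∈ S) (hab : ¬ IsPQ p q a b) : loW W a b + 1 ≤ hiW W a b := by
  have h3 := loW_le3 W a b
  have hba : ¬ IsPQ p q b a := by
    intro h; apply hab
    rcases h with ⟨h, h'⟩ | ⟨h, h'⟩
    · exact Or.inr ⟨h', h⟩
    · exact Or.inl ⟨h', h⟩
  rcases hiW_wit W a b with h | h
  · rcases loW_wit W a b with h' | h'
    · omega
    · have := h1 a ha b hb _ _ h' hab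
      omega
  · have h5 := h1 a ha b hb _ _ h hab
    rcases loW_wit W a b with h' | h'
    · omega
    · have h6 := h1 a ha b hb _ _ h' hab
      have hw := Wk.cons (W := NoPQ W p q) (S := S) ha ⟨h, hab⟩
        (Wk.cons hb ⟨hW.symm _ _ _ _ h', hba⟩ (Wk.nil a ha))
      have := hN a _ _ hw (by decide)
      omega

theorem lo_le_hi_hi {W : V → V → ℤ → ℕ → Prop} (hW : WGr W) {S : Finset V} (hN : Neg W S 3)
    {a b c : V} (ha : a ∈ S) (hb : b ∈ S) (hc : c ∈ S) :
    loW W a b ≤ hiW W b c + hiW W c a := by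
  have h3 := loW_le3 W a b
  rcases hiW_wit W b c with h | h
  · omega
  · rcases hiW_wit W c a with h' | h'
    · omega
    · rcases loW_wit W a b with h'' | h''
      · omega
      · have := tri_eeo hN ha hb hc h'' h h' (by decide)
        omega

theorem lo_lo_lo {W : V → V → ℤ → ℕ → Prop} (hW : WGr W) {S : Finset V} (hN : Neg W S 3)
    {a b c : V} (ha : a ∈ S) (hb : b ∈ S) (hc : c ∈ S) :
    loW W a b + loW W b c + loW W c a ≤ 6 := by
  have h1 := loW_le3 W a b
  have h2 := loW_le3 W b c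
  have h3 := loW_le3 W c a
  rcases loW_wit W a b with h | h
  · omega
  · rcases loW_wit W b c with h' | h'
    · omega
    · rcases loW_wit W c a with h'' | h''
      · omega
      · have := tri_eeo hN ha hb hc h h' h'' (by decide)
        omega

theorem hi_comm {W : V → V → ℤ → ℕ → Prop} (hW : WGr W) (a b : V) : hiW W a b = hiW W b a := by
  have key : ∀ a b : V, ∀ l, W a b 0 l → W b a 0 l := by
    intro a b l h
    have := hW.symm _ _ _ _ h
    simpa using this
  unfold hiW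
  have e : ∀ l, W a b 0 l ↔ W b a 0 l := fun l => ⟨key a b l, key b a l⟩
  simp only [e]

theorem lo_comm {W : V → V → ℤ → ℕ → Prop} (hW : WGr W) (a b : V) : loW W a b = loW W b a := by
  have key : ∀ a b : V, ∀ l, W a b 1 l → W b a 1 l := by
    intro a b l h
    have := hW.symm _ _ _ _ h
    exact hW.evn this ⟨1, by norm_num⟩
  unfold loW
  have e : ∀ l, W a b 1 l ↔ W b a 1 l := fun l => ⟨key a b l, key b a l⟩
  simp only [e]

def chk1 (l1 h1 l2 h2 l3 h3 : ℕ) : Bool :=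
  (List.range 4).any fun d1 => (List.range 4).any fun d2 => (List.range 4).any fun d3 =>
    Nat.ble l1 d1 && Nat.ble d1 h1 && Nat.ble l2 d2 && Nat.ble d2 h2 && Nat.ble l3 d3 &&
      Nat.ble d3 h3 && (Nat.beq d1 (d2 + d3) || Nat.beq d2 (d1 + d3) || Nat.beq d3 (d1 + d2) ||
        Nat.beq (d1 + d2 + d3) 6)

def chk0 (l1 h1 l2 h2 l3 h3 : ℕ) : Bool :=
  Nat.ble l1 h1 && Nat.ble l2 h2 && Nat.ble l3 h3 &&
    ((Nat.ble (l1 + 1) h1 && Nat.ble (l2 + 1) h2) || (Nat.ble (l1 + 1) h1 && Nat.ble (l3 + 1) h3) ||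
      (Nat.ble (l2 + 1) h2 && Nat.ble (l3 + 1) h3)) &&
    Nat.ble l1 (h2 + h3) && Nat.ble l2 (h1 + h3) && Nat.ble l3 (h1 + h2) &&
    Nat.ble (l1 + l2 + l3) 6

theorem chk_all : ((List.range 4).all fun l1 => (List.range 4).all fun h1 =>
    (List.range 4).all fun l2 => (List.range 4).all fun h2 => (List.range 4).all fun l3 =>
      (List.range 4).all fun h3 => !(chk0 l1 h1 l2 h2 l3 h3) || chk1 l1 h1 l2 h2 l3 h3) = true := by
  decide +kernel

theorem num_tri' (l1 h1 l2 h2 l3 h3 : ℕ) (a1 : h1 ≤ 3) (a2 : h2 ≤ 3) (a3 : h3 ≤ 3)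
    (b1 : l1 ≤ h1) (b2 : l2 ≤ h2) (b3 : l3 ≤ h3)
    (c : (l1 + 1 ≤ h1 ∧ l2 + 1 ≤ h2) ∨ (l1 + 1 ≤ h1 ∧ l3 + 1 ≤ h3) ∨ (l2 + 1 ≤ h2 ∧ l3 + 1 ≤ h3))
    (e1 : l1 ≤ h2 + h3) (e2 : l2 ≤ h1 + h3) (e3 : l3 ≤ h1 + h2) (e4 : l1 + l2 + l3 ≤ 6) :
    ∃ d1 d2 d3 : ℕ, l1 ≤ d1 ∧ d1 ≤ h1 ∧ l2 ≤ d2 ∧ d2 ≤ h2 ∧ l3 ≤ d3 ∧ d3 ≤ h3 ∧
      (d1 = d2 + d3 ∨ d2 = d1 + d3 ∨ d3 = d1 + d2 ∨ d1 + d2 + d3 = 6) := by
  have h := chk_all
  simp only [List.all_eq_true, List.mem_range] at h
  have h' := h l1 (by omega) h1 (by omega) l2 (by omega) h2 (by omega) l3 (by omega) h3 (by omega)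
  have h0 : chk0 l1 h1 l2 h2 l3 h3 = true := by
    unfold chk0
    simp only [Bool.and_eq_true, Bool.or_eq_true, Nat.ble_eq]
    refine ⟨⟨⟨⟨⟨⟨⟨b1, b2⟩, b3⟩, ?_⟩, e1⟩, e2⟩, e3⟩, e4⟩
    rcases c with c | c | c
    · exact Or.inl (Or.inl c)
    · exact Or.inl (Or.inr c)
    · exact Or.inr c
  rw [h0] at h'
  simp only [Bool.not_true, Bool.false_or] at h'
  unfold chk1 at h'
  simp only [List.any_eq_true, List.mem_range, Bool.and_eq_true, Bool.or_eq_true, Nat.ble_eq,
    Nat.beq_eq_true_eq] at h'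
  obtain ⟨d1, -, d2, -, d3, -, ⟨⟨⟨⟨⟨⟨f1, f2⟩, f3⟩, f4⟩, f5⟩, f6⟩, f7⟩⟩ := h'
  refine ⟨d1, d2, d3, f1, f2, f3, f4, f5, f6, ?_⟩
  rcases f7 with ((f | f) | f) | f
  · exact Or.inl (Nat.eq_of_beq_eq_true f)
  · exact Or.inr (Or.inl (Nat.eq_of_beq_eq_true f))
  · exact Or.inr (Or.inr (Or.inl (Nat.eq_of_beq_eq_true f)))
  · exact Or.inr (Or.inr (Or.inr (Nat.eq_of_beq_eq_true f)))

/-- windings on at most three vertices -/
theorem wind_tri (W : V → V → ℤ → ℕ → Prop) (hW : WGr W) (S : Finset V) (hS : S.card ≤ 3) (p q : V)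
    (h3 : Neg W S 3) (h4 : Neg (NoPQ W p q) S 4)
    (h1 : ∀ a ∈ S, ∀ b ∈ S, ∀ x l, W a b x l → ¬ IsPQ p q a b → 1 ≤ l) : ∃ f, Wind W S f := by
  have hcard : S.card = 0 ∨ S.card = 1 ∨ S.card = 2 ∨ S.card = 3 := by omega
  rcases hcard with hc | hc | hc | hc
  · refine ⟨fun _ => 0, fun a ha => ?_⟩
    rw [Finset.card_eq_zero] at hc
    rw [hc] at ha
    exact absurd ha (Finset.notMem_empty a)
  · obtain ⟨v, rfl⟩ := Finset.card_eq_one.1 hc
    refine ⟨fun _ => 0, fun a ha b hb x l hx => ?_⟩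
    rw [Finset.mem_singleton] at ha hb
    exact absurd (ha.trans hb.symm) (hW.irr _ _ _ _ hx)
  · obtain ⟨u, v, huv, rfl⟩ := Finset.card_eq_two.1 hc
    have hu : u ∈ ({u, v} : Finset V) := by simp
    have hv : v ∈ ({u, v} : Finset V) := by simp
    have hlh := lo_le_hi hW h3 hu hv
    have hp : ∀ x l, W u v x l → ∃ k : ℤ, |((loW W u v : ℕ) : ℤ) + 3 * x + 6 * k| ≤ (l : ℤ) :=
      fun x l hx => pair_ok hW (d := loW W u v) ⟨0, Or.inl (by ring)⟩ le_rfl hlh hx
    have hp' := pair_rev hW hp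
    refine ⟨fun t => if t = v then (loW W u v : ℤ) else 0, fun a ha b hb x l hx => ?_⟩
    simp only [Finset.mem_insert, Finset.mem_singleton] at ha hb
    rcases ha with rfl | rfl <;> rcases hb with rfl | rfl
    · exact absurd rfl (hW.irr _ _ _ _ hx)
    · simp only [if_neg huv, if_true, sub_zero]
      exact hp x l hx
    · simp only [if_neg huv, if_true, zero_sub]
      exact hp' x l hx
    · exact absurd rfl (hW.irr _ _ _ _ hx)
  · obtain ⟨u, v, w, huv, huw, hvw, rfl⟩ := Finset.card_eq_three.1 hc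
    have hu : u ∈ ({u, v, w} : Finset V) := by simp
    have hv : v ∈ ({u, v, w} : Finset V) := by simp
    have hw : w ∈ ({u, v, w} : Finset V) := by simp
    -- 1: u v, 2: v w, 3: u w
    have c : (loW W u v + 1 ≤ hiW W u v ∧ loW W v w + 1 ≤ hiW W v w) ∨
        (loW W u v + 1 ≤ hiW W u v ∧ loW W u w + 1 ≤ hiW W u w) ∨
        (loW W v w + 1 ≤ hiW W v w ∧ loW W u w + 1 ≤ hiW W u w) := by
      by_cases i1 : IsPQ p q u v
      · right; right
        refine ⟨lo_lt_hi hW h4 h1 hv hw ?_, lo_lt_hi hW h4 h1 hu hw ?_⟩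
        · intro i2
          rcases i1 with ⟨e1, e2⟩ | ⟨e1, e2⟩ <;> rcases i2 with ⟨e3, e4⟩ | ⟨e3, e4⟩
          · exact huv (e1.trans e3.symm)
          · exact huw (e1.trans e4.symm)
          · exact huw (e1.trans e4.symm)
          · exact huv (e1.trans e3.symm)
        · intro i2
          rcases i1 with ⟨e1, e2⟩ | ⟨e1, e2⟩ <;> rcases i2 with ⟨e3, e4⟩ | ⟨e3, e4⟩
          · exact hvw (e2.trans e4.symm)
          · exact huw (e1.trans e4.symm)
          · exact huw (e1.trans e4.symm)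
          · exact hvw (e2.trans e4.symm)
      · by_cases i2 : IsPQ p q v w
        · right; left
          refine ⟨lo_lt_hi hW h4 h1 hu hv i1, lo_lt_hi hW h4 h1 hu hw ?_⟩
          intro i3
          rcases i2 with ⟨e1, e2⟩ | ⟨e1, e2⟩ <;> rcases i3 with ⟨e3, e4⟩ | ⟨e3, e4⟩
          · exact huv (e3.trans e1.symm)
          · exact huw (e3.trans e2.symm)
          · exact huw (e3.trans e2.symm)
          · exact huv (e3.trans e1.symm)
        · left
          exact ⟨lo_lt_hi hW h4 h1 hu hv i1, lo_lt_hi hW h4 h1 hv hw i2⟩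
    obtain ⟨d1, d2, d3, a1, a2, a3, a4, a5, a6, hd⟩ := num_tri'
      (loW W u v) (hiW W u v) (loW W v w) (hiW W v w) (loW W u w) (hiW W u w)
      (hiW_le3 _ _ _) (hiW_le3 _ _ _) (hiW_le3 _ _ _)
      (lo_le_hi hW h3 hu hv) (lo_le_hi hW h3 hv hw) (lo_le_hi hW h3 hu hw) c
      (by have := lo_le_hi_hi hW h3 hu hv hw; rw [hi_comm hW w u] at this; exact this)
      (by have := lo_le_hi_hi hW h3 hv hw hu; rw [hi_comm hW w u] at this; omega)
      (by have := lo_le_hi_hi hW h3 hu hw hv; rw [hi_comm hW w v, hi_comm hW v u] at this; omega)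
      (by have := lo_lo_lo hW h3 hu hv hw; rw [lo_comm hW w u] at this; exact this)
    -- positions
    obtain ⟨fv, fw, g1, g2, g3⟩ : ∃ fv fw : ℤ, (∃ k : ℤ, fv = d1 + 6 * k ∨ fv = -d1 + 6 * k) ∧
        (∃ k : ℤ, fw - fv = d2 + 6 * k ∨ fw - fv = -d2 + 6 * k) ∧
        (∃ k : ℤ, fw = d3 + 6 * k ∨ fw = -d3 + 6 * k) := by
      rcases hd with h | h | h | h
      · exact ⟨d1, d3, ⟨0, by omega⟩, ⟨0, by omega⟩, ⟨0, by omega⟩⟩
      · exact ⟨-d1, d3, ⟨0, by omega⟩, ⟨0, by omega⟩, ⟨0, by omega⟩⟩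
      · exact ⟨d1, d3, ⟨0, by omega⟩, ⟨0, by omega⟩, ⟨0, by omega⟩⟩
      · exact ⟨d1, d1 + d2, ⟨0, by omega⟩, ⟨0, by omega⟩, ⟨1, by omega⟩⟩
    have p1 : ∀ x l, W u v x l → ∃ k : ℤ, |fv + 3 * x + 6 * k| ≤ (l : ℤ) :=
      fun x l hx => pair_ok hW g1 a1 a2 hx
    have p2 : ∀ x l, W v w x l → ∃ k : ℤ, |(fw - fv) + 3 * x + 6 * k| ≤ (l : ℤ) :=
      fun x l hx => pair_ok hW g2 a3 a4 hx
    have p3 : ∀ x l, W u w x l → ∃ k : ℤ, |fw + 3 * x + 6 * k| ≤ (l : ℤ) :=
      fun x l hx => pair_ok hW g3 a5 a6 hx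
    have p1' := pair_rev hW p1
    have p2' := pair_rev hW p2
    have p3' := pair_rev hW p3
    obtain ⟨f, eu, ev, ew⟩ : ∃ f : V → ℤ, f u = 0 ∧ f v = fv ∧ f w = fw :=
      ⟨fun t => if t = v then fv else if t = w then fw else 0,
        by show (if u = v then fv else if u = w then fw else 0) = 0
           rw [if_neg huv, if_neg huw],
        if_pos rfl,
        by show (if w = v then fv else if w = w then fw else 0) = fw
           rw [if_neg (Ne.symm hvw), if_pos rfl]⟩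
    refine ⟨f, fun a ha b hb x l hx => ?_⟩
    simp only [Finset.mem_insert, Finset.mem_singleton] at ha hb
    rcases ha with ha | ha | ha <;> rcases hb with hb | hb | hb <;> rw [ha, hb] at hx ⊢
    · exact absurd rfl (hW.irr _ _ _ _ hx)
    · rw [ev, eu, sub_zero]; exact p1 x l hx
    · rw [ew, eu, sub_zero]; exact p3 x l hx
    · rw [ev, eu, zero_sub]; exact p1' x l hx
    · exact absurd rfl (hW.irr _ _ _ _ hx)
    · rw [ev, ew]; exact p2 x l hx
    · rw [ew, eu, zero_sub]; exact p3' x l hx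
    · rw [ev, ew]
      obtain ⟨k, hk⟩ := p2' x l hx
      refine ⟨k, ?_⟩
      convert hk using 2
      ring
    · exact absurd rfl (hW.irr _ _ _ _ hx)

end SgK4


/-! ### bal_ext -/

namespace SgK4
variable {V : Type}

theorem be_snoc {W : V → V → ℤ → ℕ → Prop} {S : Finset V} {a s : V} {x : ℤ} {l : ℕ}
    (w : Wk W S a s x l) {t : V} {y : ℤ} {m : ℕ} (hs : s ∈ S) (ht : t ∈ S) (h : W s t y m) :
    Wk W S a t (x + y) (l + m) := by
  induction w with
  | nil a ha =>
    have h1 := Wk.cons ha h (Wk.nil t ht)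
    have e1 : (0 : ℤ) + y = y + 0 := by ring
    have e2 : 0 + m = m + 0 := by ring
    rw [e1, e2]
    exact h1
  | @cons a b c x1 y1 l1 m1 ha h1 t1 ih =>
    have h2 := Wk.cons ha h1 (ih hs h)
    have e1 : x1 + y1 + y = x1 + (y1 + y) := by ring
    have e2 : l1 + m1 + m = l1 + (m1 + m) := by ring
    rw [e1, e2]
    exact h2

theorem be_end {W : V → V → ℤ → ℕ → Prop} {S : Finset V} {a s : V} {x : ℤ} {l : ℕ}
    (w : Wk W S a s x l) : a ∈ S ∧ s ∈ S := by
  induction w with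
  | nil a ha => exact ⟨ha, ha⟩
  | cons ha h t ih => exact ⟨ha, ih.2⟩

theorem be_par {W : V → V → ℤ → ℕ → Prop} {S : Finset V} {h : V → ℤ}
    (hh : ∀ a ∈ S, ∀ b ∈ S, ∀ x, Sup W a b x → Even (x - (h b - h a))) {a s : V} {x : ℤ} {l : ℕ}
    (w : Wk W S a s x l) : Even (x - (h s - h a)) := by
  induction w with
  | nil a ha => simp
  | @cons a b c x1 y1 l1 m1 ha h1 t1 ih =>
    have h2 := hh a ha b (be_end t1).1 x1 ⟨l1, h1⟩
    have h3 := h2.add ih
    have e1 : x1 - (h b - h a) + (y1 - (h c - h b)) = x1 + y1 - (h c - h a) := by ring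
    rwa [e1] at h3

theorem be_ex {W : V → V → ℤ → ℕ → Prop} {S : Finset V} (hconn : Conn (Adj (Sup W)) S) {a : V}
    (ha : a ∈ S) : ∀ t ∈ S, ∃ x l, Wk W S a t x l := by
  by_contra hcon
  push Not at hcon
  obtain ⟨t, ht, hcon⟩ := hcon
  obtain ⟨s, hs, u, hu, hu', y, m, hy⟩ := hconn.2 (S.filter fun t => ∃ x l, Wk W S a t x l)
    (Finset.filter_subset _ _) ⟨a, Finset.mem_filter.2 ⟨ha, 0, 0, Wk.nil a ha⟩⟩ (by
      intro h
      rw [Finset.filter_eq_self] at h
      obtain ⟨x, l, w⟩ := h t ht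
      exact hcon x l w)
  obtain ⟨hsS, x, l, w⟩ := Finset.mem_filter.1 hs
  exact hu' (Finset.mem_filter.2 ⟨hu, x + y, l + m, be_snoc w hsS hu hy⟩)

/-- extension of a winding over a balanced connected piece with two terminals -/
theorem bal_ext (W : V → V → ℤ → ℕ → Prop) (hW : WGr W) (S : Finset V) (a b : V) (ha : a ∈ S) (hb : b ∈ S)
    (hab : a ≠ b) (hbal : Bal (Sup W) S) (hconn : Conn (Adj (Sup W)) S) (A B : ℤ)
    (hAB : ∀ x l, Wk W S a b x l → ∃ k : ℤ, |B - A + 3 * x + 6 * k| ≤ (l : ℤ)) :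
    ∃ f : V → ℤ, f a = A ∧ f b = B ∧ Wind W S f := by
  obtain ⟨h, hh⟩ := hbal
  set d : V → ℕ := fun t => sInf {l | ∃ x, Wk W S a t x l} with hd
  have dspec : ∀ t ∈ S, ∃ x, Wk W S a t x (d t) := by
    intro t ht
    obtain ⟨x, l, w⟩ := be_ex hconn ha t ht
    exact Nat.sInf_mem (s := {l | ∃ x, Wk W S a t x l}) ⟨l, x, w⟩
  have dle : ∀ t x l, Wk W S a t x l → d t ≤ l := fun t x l w => Nat.sInf_le ⟨x, w⟩
  have dedge : ∀ s ∈ S, ∀ t ∈ S, ∀ x l, W s t x l → d t ≤ d s + l := by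
    intro s hs t ht x l hw
    obtain ⟨y, w⟩ := dspec s hs
    exact dle t _ _ (be_snoc w hs ht hw)
  have da : d a = 0 := Nat.le_zero.1 (dle a 0 0 (Wk.nil a ha))
  -- the representative
  obtain ⟨Dv, k0, hD, hD3⟩ : ∃ Dv k0 : ℤ, Dv = B - A + 3 * (h b - h a) + 6 * k0 ∧ |Dv| ≤ 3 := by
    refine ⟨(B - A + 3 * (h b - h a) + 3) % 6 - 3, -((B - A + 3 * (h b - h a) + 3) / 6), ?_, ?_⟩
    · have := Int.emod_add_mul_ediv (B - A + 3 * (h b - h a) + 3) 6
      omega
    · rw [abs_le]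
      have h1 := Int.emod_nonneg (B - A + 3 * (h b - h a) + 3) (by norm_num : (6:ℤ) ≠ 0)
      have h2 := Int.emod_lt_of_pos (B - A + 3 * (h b - h a) + 3) (by norm_num : (0:ℤ) < 6)
      constructor <;> omega
  have hDb : |Dv| ≤ (d b : ℤ) := by
    obtain ⟨x, w⟩ := dspec b hb
    obtain ⟨k, hk⟩ := hAB x _ w
    obtain ⟨r, hr⟩ := be_par hh w
    rw [abs_le] at hk hD3 ⊢
    have e1 : x = h b - h a + 2 * r := by omega
    rw [e1] at hk
    obtain ⟨q, hq⟩ : ∃ q : ℤ, Dv = B - A + 3 * (h b - h a + 2 * r) + 6 * k - 6 * q :=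
      ⟨r + k - k0, by rw [hD]; ring⟩
    have e2 : B - A + 3 * (h b - h a + 2 * r) + 6 * k = Dv + 6 * q := by rw [hq]; ring
    rw [e2] at hk
    rcases lt_trichotomy q 0 with h1 | h1 | h1
    · constructor <;> omega
    · rw [h1] at hk
      constructor <;> omega
    · constructor <;> omega
  set m : V → ℤ := fun t => min (d t : ℤ) |Dv| with hm
  set g : V → ℤ := fun t => A - 3 * (h t - h a) + Int.sign Dv * m t with hg
  have hma : m a = 0 := by
    show min (d a : ℤ) |Dv| = 0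
    rw [da]
    exact min_eq_left (abs_nonneg _)
  have hmb : m b = |Dv| := min_eq_right hDb
  have ga : g a = A := by
    show A - 3 * (h a - h a) + Int.sign Dv * m a = A
    rw [hma]
    ring
  have gb : g b = B + 6 * k0 := by
    show A - 3 * (h b - h a) + Int.sign Dv * m b = _
    rw [hmb, Int.sign_mul_abs, hD]
    ring
  set f : V → ℤ := fun t => if t = a then A else if t = b then B else g t with hf
  have fg : ∀ t, ∃ k : ℤ, f t = g t + 6 * k := by
    intro t
    by_cases h1 : t = a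
    · refine ⟨0, ?_⟩
      show (if t = a then A else if t = b then B else g t) = _
      rw [if_pos h1, h1, ga]
      ring
    · by_cases h2 : t = b
      · refine ⟨-k0, ?_⟩
        show (if t = a then A else if t = b then B else g t) = _
        rw [if_neg h1, if_pos h2, h2, gb]
        ring
      · refine ⟨0, ?_⟩
        show (if t = a then A else if t = b then B else g t) = _
        rw [if_neg h1, if_neg h2]
        ring
  refine ⟨f, ?_, ?_, ?_⟩
  · show (if a = a then A else if a = b then B else g a) = A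
    rw [if_pos rfl]
  · show (if b = a then A else if b = b then B else g b) = B
    rw [if_neg (Ne.symm hab), if_pos rfl]
  · intro s hs t ht x l hw
    obtain ⟨k1, hk1⟩ := fg s
    obtain ⟨k2, hk2⟩ := fg t
    obtain ⟨r, hr⟩ := hh s hs t ht x ⟨l, hw⟩
    refine ⟨-(r + k2 - k1), ?_⟩
    have e1 : f t - f s + 3 * x + 6 * (-(r + k2 - k1)) = Int.sign Dv * (m t - m s) := by
      rw [hk1, hk2]
      show A - 3 * (h t - h a) + Int.sign Dv * m t + 6 * k2 -
        (A - 3 * (h s - h a) + Int.sign Dv * m s + 6 * k1) + 3 * x + 6 * (-(r + k2 - k1)) = _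
      have e2 : x = h t - h s + (r + r) := by omega
      rw [e2]
      ring
    rw [e1, abs_mul]
    have h1 : |Int.sign Dv| ≤ 1 := by
      rcases lt_trichotomy Dv 0 with h2 | h2 | h2
      · rw [Int.sign_eq_neg_one_of_neg h2]; norm_num
      · rw [h2]; norm_num
      · rw [Int.sign_eq_one_of_pos h2]; norm_num
    have h2 : |m t - m s| ≤ (l : ℤ) := by
      have h3 := dedge s hs t ht x l hw
      have h4 := dedge t ht s hs (-x) l (hW.symm _ _ _ _ hw)
      have h5 : (d t : ℤ) ≤ d s + l := by exact_mod_cast h3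
      have h6 : (d s : ℤ) ≤ d t + l := by exact_mod_cast h4
      show abs (min (d t : ℤ) (abs Dv) - min (d s : ℤ) (abs Dv)) ≤ (l : ℤ)
      have h7 := abs_min_sub_min_le_max (d t : ℤ) (abs Dv) (d s : ℤ) (abs Dv)
      refine h7.trans (max_le ?_ ?_)
      · rw [abs_le]
        constructor <;> linarith
      · simp
    calc |Int.sign Dv| * |m t - m s| ≤ 1 * |m t - m s| :=
          mul_le_mul_of_nonneg_right h1 (abs_nonneg _)
      _ = |m t - m s| := one_mul _
      _ ≤ l := h2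

end SgK4


/-! ### uniq -/

namespace SgK4
variable {V : Type}
/-! dependency (proved elsewhere, may be used) -/



/-! dependency (proved elsewhere, may be used) -/



end SgK4

namespace SgK4
variable {V : Type}

theorem ctr_symm {T : V → V → ℤ → Prop} (hs : ∀ a b x, T a b x → T b a (-x)) (u v : V) (c : ℤ) :
    ∀ a b x, Ctr T u v c a b x → Ctr T u v c b a (-x) := by
  rintro a b x ⟨h1, h2, h3, h⟩
  refine ⟨h2, h1, h3.symm, ?_⟩
  rcases h with h | ⟨h, h'⟩ | ⟨h, h'⟩
  · exact Or.inl (hs _ _ _ h)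
  · refine Or.inr (Or.inr ⟨h, ?_⟩)
    have := hs _ _ _ h'
    convert this using 1; ring
  · refine Or.inr (Or.inl ⟨h, ?_⟩)
    have := hs _ _ _ h'
    convert this using 1; ring

theorem ctr_sgr {E : V → V → ℤ → Prop} (hE : SGr E) (u v : V) (c : ℤ) : SGr (Ctr E u v c) := by
  refine ⟨ctr_symm hE.symm u v c, ?_, ?_⟩
  · rintro a b x ⟨h1, h2, h3, h⟩
    refine ⟨h1, h2, h3, ?_⟩
    rcases h with h | ⟨h, h'⟩ | ⟨h, h'⟩
    · exact Or.inl (hE.par _ _ _ h)
    · refine Or.inr (Or.inl ⟨h, ?_⟩)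
      have := hE.par _ _ _ h'
      convert this using 1; ring
    · refine Or.inr (Or.inr ⟨h, ?_⟩)
      have := hE.par _ _ _ h'
      convert this using 1; ring
  · rintro a b x ⟨h1, h2, h3, h⟩
    exact h3

theorem ctr_congr {E : V → V → ℤ → Prop} (hE : SGr E) (u v : V) {c c2 : ℤ} (hc : Even (c2 - c)) :
    Ctr E u v c2 = Ctr E u v c := by
  have key : ∀ c c2 : ℤ, Even (c2 - c) → ∀ a b x, Ctr E u v c2 a b x → Ctr E u v c a b x := by
    rintro c c2 hc a b x ⟨h1, h2, h3, h⟩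
    refine ⟨h1, h2, h3, ?_⟩
    obtain ⟨k, hk⟩ := hc
    rcases h with h | ⟨h, h'⟩ | ⟨h, h'⟩
    · exact Or.inl h
    · exact Or.inr (Or.inl ⟨h, hE.evn h' ⟨k, by linarith⟩⟩)
    · exact Or.inr (Or.inr ⟨h, hE.evn h' ⟨-k, by linarith⟩⟩)
  funext a b x
  apply propext
  constructor
  · exact key c c2 hc a b x
  · refine key c2 c ?_ a b x
    have := hc.neg
    simpa using this

theorem conn_ctr {E : V → V → ℤ → Prop} (hs : ∀ a b x, E a b x → E b a (-x)) {S : Finset V} {u v : V}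
    (c : ℤ) (huv : u ≠ v) (hu : u ∈ S) (hv : v ∈ S) (hS : Conn (Adj E) S) :
    Conn (Adj (Ctr E u v c)) (S.erase v) := by
  refine ⟨⟨u, Finset.mem_erase.mpr ⟨huv, hu⟩⟩, fun J hJ hne hJn => ?_⟩
  have hvJ : v ∉ J := fun h => (Finset.mem_erase.mp (hJ h)).1 rfl
  have hJS : J ⊆ S := hJ.trans (Finset.erase_subset _ _)
  by_cases huJ : u ∈ J
  · have h1 : insert v J ⊆ S := Finset.insert_subset hv hJS
    have h2 : insert v J ≠ S := by
      intro h
      apply hJn
      rw [← h, Finset.erase_insert hvJ]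
    obtain ⟨a, ha, b, hb, hbJ, x, hx⟩ := hS.2 (insert v J) h1 (Finset.insert_nonempty _ _) h2
    have hbv : b ≠ v := fun h => hbJ (h ▸ Finset.mem_insert_self _ _)
    have hbJ' : b ∉ J := fun h => hbJ (Finset.mem_insert_of_mem h)
    have hbS : b ∈ S.erase v := Finset.mem_erase.mpr ⟨hbv, hb⟩
    rcases Finset.mem_insert.mp ha with hav | haJ
    · refine ⟨u, huJ, b, hbS, hbJ', x + c, huv, hbv, fun h => hbJ' (h ▸ huJ), Or.inr (Or.inl ⟨rfl, ?_⟩)⟩
      rw [hav] at hx
      convert hx using 1; ring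
    · exact ⟨a, haJ, b, hbS, hbJ', x, fun h => hvJ (h ▸ haJ), hbv, fun h => hbJ' (h ▸ haJ), Or.inl hx⟩
  · have h2 : J ≠ S := fun h => hvJ (h ▸ hv)
    obtain ⟨a, ha, b, hb, hbJ, x, hx⟩ := hS.2 J hJS hne h2
    have hav : a ≠ v := fun h => hvJ (h ▸ ha)
    by_cases hbv : b = v
    · refine ⟨a, ha, u, Finset.mem_erase.mpr ⟨huv, hu⟩, huJ, x - c, hav, huv, fun h => huJ (h ▸ ha),
        Or.inr (Or.inr ⟨rfl, ?_⟩)⟩
      rw [hbv] at hx
      convert hx using 1; ring
    · exact ⟨a, ha, b, Finset.mem_erase.mpr ⟨hbv, hb⟩, hbJ, x, hav, hbv, fun h => hbJ (h ▸ ha), Or.inl hx⟩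

theorem lift_ctr {E T : V → V → ℤ → Prop} {S : Finset V} (hE : SGr E) (L : Lift E S T) {u v : V}
    {c : ℤ} (hc : T u v c) : Lift (Ctr E u v c) (S.erase v) (Ctr T u v c) := by
  have huS := (L.sub _ _ _ hc).1
  have hvS := (L.sub _ _ _ hc).2.1
  have huv : u ≠ v := hE.irr _ _ _ (L.sub _ _ _ hc).2.2
  refine ⟨ctr_symm L.symm u v c, ?_, ?_, ?_⟩
  · rintro a b x ⟨h1, h2, h3, h⟩
    rcases h with h | ⟨h, h'⟩ | ⟨h, h'⟩
    · have := L.sub _ _ _ h
      exact ⟨Finset.mem_erase.mpr ⟨h1, this.1⟩, Finset.mem_erase.mpr ⟨h2, this.2.1⟩, h1, h2, h3,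
        Or.inl this.2.2⟩
    · have := L.sub _ _ _ h'
      refine ⟨Finset.mem_erase.mpr ⟨h1, h ▸ huS⟩, Finset.mem_erase.mpr ⟨h2, this.2.1⟩, h1, h2, h3,
        Or.inr (Or.inl ⟨h, this.2.2⟩)⟩
    · have := L.sub _ _ _ h'
      refine ⟨Finset.mem_erase.mpr ⟨h1, this.1⟩, Finset.mem_erase.mpr ⟨h2, h ▸ huS⟩, h1, h2, h3,
        Or.inr (Or.inr ⟨h, this.2.2⟩)⟩
  · rintro a ha b hb x ⟨h1, h2, h3, h⟩
    have haS := (Finset.mem_erase.mp ha).2
    have hbS := (Finset.mem_erase.mp hb).2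
    rcases h with h | ⟨h, h'⟩ | ⟨h, h'⟩
    · obtain ⟨y, hy, hyx⟩ := L.ex a haS b hbS x h
      exact ⟨y, ⟨h1, h2, h3, Or.inl hy⟩, hyx⟩
    · obtain ⟨y, hy, k, hk⟩ := L.ex v hvS b hbS (x - c) h'
      refine ⟨y + c, ⟨h1, h2, h3, Or.inr (Or.inl ⟨h, ?_⟩)⟩, k, by linarith⟩
      convert hy using 1; ring
    · obtain ⟨y, hy, k, hk⟩ := L.ex a haS v hvS (x + c) h'
      refine ⟨y - c, ⟨h1, h2, h3, Or.inr (Or.inr ⟨h, ?_⟩)⟩, k, by linarith⟩
      convert hy using 1; ring
  · intro X hX h hconn a ha b hb x hx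
    have hXS : X ⊆ S := hX.trans (Finset.erase_subset _ _)
    have hvX : v ∉ X := fun h => (Finset.mem_erase.mp (hX h)).1 rfl
    by_cases huX : u ∈ X
    · set h' : V → ℤ := fun t => if t = v then h u + c else h t with hh'
      have h'v : h' v = h u + c := by simp [hh']
      have h't : ∀ t, t ≠ v → h' t = h t := fun t ht => by simp [hh', ht]
      have hXv : ∀ t ∈ X, t ≠ v := fun t ht h => hvX (h ▸ ht)
      have e1 : Fl T h' u v := by
        unfold Fl
        rw [h'v, h't u huv]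
        convert hc using 1; ring
      have e2 : Fl T h' v u := Fl.symm L.symm e1
      have hC : Conn (Fl T h') (insert v X) := by
        refine ⟨Finset.insert_nonempty _ _, fun J hJ hne hJn => ?_⟩
        by_cases huJ : u ∈ J
        · by_cases hvJ : v ∈ J
          · have hJ1 : J.erase v ⊆ X := by
              intro t ht
              have ht' := Finset.mem_erase.mp ht
              rcases Finset.mem_insert.mp (hJ ht'.2) with h | h
              · exact absurd h ht'.1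
              · exact h
            have hJ2 : (J.erase v).Nonempty := ⟨u, Finset.mem_erase.mpr ⟨huv, huJ⟩⟩
            have hJ3 : J.erase v ≠ X := by
              intro h
              apply hJn
              rw [← h, Finset.insert_erase hvJ]
            obtain ⟨s, hs, t, ht, htJ, e⟩ := hconn.2 (J.erase v) hJ1 hJ2 hJ3
            have htv : t ≠ v := hXv t ht
            have htJ' : t ∉ J := fun h => htJ (Finset.mem_erase.mpr ⟨htv, h⟩)
            have hsv := (Finset.mem_erase.mp hs).1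
            have hsJ := (Finset.mem_erase.mp hs).2
            obtain ⟨_, _, _, e⟩ := e
            rcases e with e | ⟨hsu, e⟩ | ⟨htu, e⟩
            · refine ⟨s, hsJ, t, Finset.mem_insert_of_mem ht, htJ', ?_⟩
              unfold Fl
              rw [h't t htv, h't s hsv]
              exact e
            · refine ⟨v, hvJ, t, Finset.mem_insert_of_mem ht, htJ', ?_⟩
              unfold Fl
              rw [h't t htv, h'v]
              rw [hsu] at e
              convert e using 1; ring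
            · exact absurd (htu ▸ huJ) htJ'
          · exact ⟨u, huJ, v, Finset.mem_insert_self _ _, hvJ, e1⟩
        · by_cases hvJ : v ∈ J
          · exact ⟨v, hvJ, u, Finset.mem_insert_of_mem huX, huJ, e2⟩
          · have hJ1 : J ⊆ X := by
              intro t ht
              rcases Finset.mem_insert.mp (hJ ht) with h | h
              · exact absurd (h ▸ ht) hvJ
              · exact h
            have hJ3 : J ≠ X := fun h => huJ (h ▸ huX)
            obtain ⟨s, hs, t, ht, htJ, e⟩ := hconn.2 J hJ1 hne hJ3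
            have htv : t ≠ v := hXv t ht
            have hsv : s ≠ v := fun h => hvJ (h ▸ hs)
            obtain ⟨_, _, _, e⟩ := e
            rcases e with e | ⟨hsu, e⟩ | ⟨htu, e⟩
            · refine ⟨s, hs, t, Finset.mem_insert_of_mem ht, htJ, ?_⟩
              unfold Fl
              rw [h't t htv, h't s hsv]
              exact e
            · exact absurd (hsu ▸ hs) huJ
            · refine ⟨s, hs, v, Finset.mem_insert_self _ _, hvJ, ?_⟩
              unfold Fl
              rw [h't s hsv, h'v]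
              rw [htu] at e
              convert e using 1; ring
      have hXS' : insert v X ⊆ S := Finset.insert_subset hvS hXS
      have D := L.dev (insert v X) hXS' h' hC
      obtain ⟨h1, h2, h3, hx⟩ := hx
      rcases hx with hx | ⟨hau, hx⟩ | ⟨hbu, hx⟩
      · have := D a (Finset.mem_insert_of_mem ha) b (Finset.mem_insert_of_mem hb) x hx
        rw [h't a h1, h't b h2] at this
        exact this
      · have := D v (Finset.mem_insert_self _ _) b (Finset.mem_insert_of_mem hb) _ hx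
        rw [h'v, h't b h2] at this
        rw [hau]
        have e : x - c - (h b - (h u + c)) = x - (h b - h u) := by ring
        rw [e] at this
        exact this
      · have := D a (Finset.mem_insert_of_mem ha) v (Finset.mem_insert_self _ _) _ hx
        rw [h'v, h't a h1] at this
        rw [hbu]
        have e : x + c - (h u + c - h a) = x - (h u - h a) := by ring
        rw [e] at this
        exact this
    · have hXu : ∀ t ∈ X, t ≠ u := fun t ht h => huX (h ▸ ht)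
      have key : ∀ a ∈ X, ∀ b ∈ X, ∀ x, Ctr T u v c a b x → T a b x := by
        rintro a ha b hb x ⟨_, _, _, hx⟩
        rcases hx with hx | ⟨hau, hx⟩ | ⟨hbu, hx⟩
        · exact hx
        · exact absurd hau (hXu a ha)
        · exact absurd hbu (hXu b hb)
      have hC : Conn (Fl T h) X := hconn.mono fun a ha b hb hab => key a ha b hb _ hab
      exact L.dev X hXS h hC a ha b hb x (key a ha b hb x hx)

/-- growth with parity -/
theorem grow_parity {E0 T0 : V → V → ℤ → Prop} {Y : Finset V} (hsT : ∀ a b x, T0 a b x → T0 b a (-x))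
    (hex : ∀ a ∈ Y, ∀ b ∈ Y, ∀ x, E0 a b x → ∃ y, T0 a b y ∧ Even (y - x)) {h : V → ℤ}
    (hY : Conn (Fl E0 h) Y) :
    ∃ H : V → ℤ, (∀ a ∈ Y, ∀ b ∈ Y, Even (H b - H a - (h b - h a))) ∧ Conn (Fl T0 H) Y := by
  have main : ∀ n : ℕ, ∀ J : Finset V, J ⊆ Y → (Y \ J).card = n → ∀ H : V → ℤ,
      (∀ a ∈ J, ∀ b ∈ J, Even (H b - H a - (h b - h a))) → Conn (Fl T0 H) J →
      ∃ H : V → ℤ, (∀ a ∈ Y, ∀ b ∈ Y, Even (H b - H a - (h b - h a))) ∧ Conn (Fl T0 H) Y := by
    intro n
    induction n with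
    | zero =>
      intro J hJ hcard H hp hC
      have : J = Y := by
        apply Finset.Subset.antisymm hJ
        exact Finset.sdiff_eq_empty_iff_subset.mp (Finset.card_eq_zero.mp hcard)
      exact ⟨H, this ▸ hp, this ▸ hC⟩
    | succ n ih =>
      intro J hJ hcard H hp hC
      have hne : J ≠ Y := by
        intro h; rw [h, Finset.sdiff_self, Finset.card_empty] at hcard; omega
      obtain ⟨a, ha, b, hb, hbJ, hab⟩ := hY.2 J hJ hC.1 hne
      obtain ⟨y, hy, hyx⟩ := hex a (hJ ha) b hb _ hab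
      set H1 : V → ℤ := fun t => if t = b then H a + y else H t with hH1
      have H1b : H1 b = H a + y := by simp [hH1]
      have H1t : ∀ t, t ≠ b → H1 t = H t := fun t ht => by simp [hH1, ht]
      have hJb : ∀ t ∈ J, t ≠ b := fun t ht h => hbJ (h ▸ ht)
      have hC1 : Conn (Fl T0 H1) J := by
        refine hC.mono fun s hs t ht hst => ?_
        unfold Fl at *
        rw [H1t s (hJb s hs), H1t t (hJb t ht)]
        exact hst
      have hab1 : Fl T0 H1 a b := by
        unfold Fl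
        rw [H1b, H1t a (hJb a ha)]
        convert hy using 1; ring
      have hC2 : Conn (Fl T0 H1) (insert b J) := Conn.insert (fun _ _ h => Fl.symm hsT h) hC1 ha hab1
      have hp2 : ∀ t ∈ J, Even (H1 b - H1 t - (h b - h t)) := by
        intro t ht
        rw [H1b, H1t t (hJb t ht)]
        obtain ⟨k, hk⟩ := hp t ht a ha
        obtain ⟨l, hl⟩ := hyx
        exact ⟨k + l, by linarith⟩
      refine ih (insert b J) (Finset.insert_subset hb hJ) ?_ H1 ?_ hC2
      · rw [Finset.card_sdiff_of_subset (Finset.insert_subset hb hJ), Finset.card_insert_of_notMem hbJ]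
        rw [Finset.card_sdiff_of_subset hJ] at hcard
        omega
      · intro s hs t ht
        rcases Finset.mem_insert.mp hs with hs | hs
        · rcases Finset.mem_insert.mp ht with ht | ht
          · rw [hs, ht]; simp
          · rw [hs]
            obtain ⟨k, hk⟩ := hp2 t ht
            exact ⟨-k, by linarith⟩
        · rcases Finset.mem_insert.mp ht with ht | ht
          · rw [ht]; exact hp2 s hs
          · rw [H1t s (hJb s hs), H1t t (hJb t ht)]
            exact hp s hs t ht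
  obtain ⟨y0, hy0⟩ := hY.1
  refine main _ {y0} (Finset.singleton_subset_iff.mpr hy0) rfl (fun _ => 0) ?_ (Conn.single _ _)
  intro a ha b hb
  rw [Finset.mem_singleton.mp ha, Finset.mem_singleton.mp hb]
  simp

/-- glueing two pieces along an edge -/
theorem glue_pot {T0 : V → V → ℤ → Prop} (hsT : ∀ a b x, T0 a b x → T0 b a (-x)) {Y Z : Finset V}
    (hd : Disjoint Y Z) {H1 H2 h : V → ℤ} (hY : Conn (Fl T0 H1) Y) (hZ : Conn (Fl T0 H2) Z)
    (p1 : ∀ a ∈ Y, ∀ b ∈ Y, Even (H1 b - H1 a - (h b - h a)))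
    (p2 : ∀ a ∈ Z, ∀ b ∈ Z, Even (H2 b - H2 a - (h b - h a)))
    {a b u v : V} (ha : a ∈ Y) (hb : b ∈ Z) (hu : u ∈ Y) (hv : v ∈ Z) {y : ℤ} (hy : T0 a b y) :
    ∃ H : V → ℤ, Conn (Fl T0 H) (Y ∪ Z) ∧ Even (H v - H u - (h v - h u) - (y - (h b - h a))) := by
  set H : V → ℤ := fun t => if t ∈ Y then H1 t else H2 t + (H1 a + y - H2 b) with hH
  have HY : ∀ t ∈ Y, H t = H1 t := fun t ht => by simp [hH, ht]
  have hZY : ∀ t ∈ Z, t ∉ Y := fun t ht h => (Finset.disjoint_left.mp hd) h ht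
  have HZ : ∀ t ∈ Z, H t = H2 t + (H1 a + y - H2 b) := fun t ht => by simp [hH, hZY t ht]
  refine ⟨H, ?_, ?_⟩
  · apply Conn.union (fun _ _ h => Fl.symm hsT h)
    · refine hY.mono fun s hs t ht hst => ?_
      unfold Fl at *
      rw [HY s hs, HY t ht]; exact hst
    · refine hZ.mono fun s hs t ht hst => ?_
      unfold Fl at *
      rw [HZ s hs, HZ t ht]
      convert hst using 1; ring
    · refine ⟨a, ha, b, hb, ?_⟩
      unfold Fl
      rw [HY a ha, HZ b hb]
      convert hy using 1; ring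
  · rw [HY u hu, HZ v hv]
    obtain ⟨k, hk⟩ := p1 u hu a ha
    obtain ⟨l, hl⟩ := p2 b hb v hv
    exact ⟨k + l, by linarith⟩

end SgK4

namespace SgK4
variable {V : Type}

/-- remove `u v` edges -/
def Rm (E : V → V → ℤ → Prop) (u v : V) : V → V → ℤ → Prop := fun a b x => E a b x ∧ ¬ IsPQ u v a b

theorem isPQ_symm {u v a b : V} : IsPQ u v a b ↔ IsPQ u v b a := by
  unfold IsPQ; tauto

theorem rm_symm {T : V → V → ℤ → Prop} (hs : ∀ a b x, T a b x → T b a (-x)) (u v : V) :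
    ∀ a b x, Rm T u v a b x → Rm T u v b a (-x) := fun a b x h =>
  ⟨hs _ _ _ h.1, fun h' => h.2 (isPQ_symm.mp h')⟩

theorem rm_sgr {E : V → V → ℤ → Prop} (hE : SGr E) (u v : V) : SGr (Rm E u v) :=
  ⟨rm_symm hE.symm u v, fun a b x h => ⟨hE.par _ _ _ h.1, h.2⟩, fun a b x h => hE.irr _ _ _ h.1⟩

theorem rm_conn {E : V → V → ℤ → Prop} {S : Finset V} {u v : V} (hu : u ∈ S) (hv : v ∈ S)
    (h3 : 3 ≤ S.card) (hS : Conn (Adj E) S) (hSu : Conn (Adj E) (S.erase u))
    (hSv : Conn (Adj E) (S.erase v)) : Conn (Adj (Rm E u v)) S := by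
  have aux : ∀ u v : V, u ∈ S → v ∈ S → Conn (Adj E) (S.erase u) → Conn (Adj E) (S.erase v) →
      ∀ J ⊆ S, u ∈ J → v ∉ J → ∃ a ∈ J, ∃ b ∈ S, b ∉ J ∧ Adj (Rm E u v) a b := by
    intro u v hu hv hSu hSv J hJ huJ hvJ
    by_cases hne : (J.erase u).Nonempty
    · have h1 : J.erase u ⊆ S.erase u := Finset.erase_subset_erase _ hJ
      have huv : v ≠ u := fun h => hvJ (h ▸ huJ)
      have h2 : J.erase u ≠ S.erase u := by
        intro h
        have : v ∈ J.erase u := by rw [h]; exact Finset.mem_erase.mpr ⟨huv, hv⟩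
        exact hvJ (Finset.mem_erase.mp this).2
      obtain ⟨a, ha, b, hb, hbJ, x, hx⟩ := hSu.2 _ h1 hne h2
      have ha' := Finset.mem_erase.mp ha
      have hb' := Finset.mem_erase.mp hb
      refine ⟨a, ha'.2, b, hb'.2, fun h => hbJ (Finset.mem_erase.mpr ⟨hb'.1, h⟩), x, hx, ?_⟩
      rintro (⟨h, _⟩ | ⟨h, _⟩)
      · exact ha'.1 h
      · exact hvJ (h ▸ ha'.2)
    · have hJu : J = {u} := by
        rw [Finset.not_nonempty_iff_eq_empty] at hne
        apply Finset.Subset.antisymm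
        · intro t ht
          by_contra hne2
          have : t ∈ J.erase u := Finset.mem_erase.mpr ⟨fun h => hne2 (by rw [h]; simp), ht⟩
          rw [hne] at this
          simp at this
        · rw [Finset.singleton_subset_iff]; exact huJ
      have huv : u ≠ v := fun h => hvJ (h ▸ huJ)
      have h1 : J ⊆ S.erase v := by
        rw [hJu, Finset.singleton_subset_iff]; exact Finset.mem_erase.mpr ⟨huv, hu⟩
      have h2 : J ≠ S.erase v := by
        intro h
        have h3' : (S.erase v).card = 1 := by rw [← h, hJu]; simp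
        rw [Finset.card_erase_of_mem hv] at h3'
        omega
      obtain ⟨a, ha, b, hb, hbJ, x, hx⟩ := hSv.2 _ h1 ⟨u, huJ⟩ h2
      have hb' := Finset.mem_erase.mp hb
      refine ⟨a, ha, b, hb'.2, hbJ, x, hx, ?_⟩
      rintro (⟨_, h⟩ | ⟨h, _⟩)
      · exact hb'.1 h
      · exact hvJ (h ▸ ha)
  refine ⟨hS.1, fun J hJ hne hJn => ?_⟩
  by_cases huJ : u ∈ J
  · by_cases hvJ : v ∈ J
    · obtain ⟨a, ha, b, hb, hbJ, x, hx⟩ := hS.2 J hJ hne hJn
      refine ⟨a, ha, b, hb, hbJ, x, hx, ?_⟩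
      rintro (⟨_, h⟩ | ⟨_, h⟩)
      · exact hbJ (h ▸ hvJ)
      · exact hbJ (h ▸ huJ)
    · exact aux u v hu hv hSu hSv J hJ huJ hvJ
  · by_cases hvJ : v ∈ J
    · obtain ⟨a, ha, b, hb, hbJ, x, hx, h⟩ := aux v u hv hu hSv hSu J hJ hvJ huJ
      refine ⟨a, ha, b, hb, hbJ, x, hx, fun h' => h ?_⟩
      unfold IsPQ at *; tauto
    · obtain ⟨a, ha, b, hb, hbJ, x, hx⟩ := hS.2 J hJ hne hJn
      refine ⟨a, ha, b, hb, hbJ, x, hx, ?_⟩
      rintro (⟨h, _⟩ | ⟨h, _⟩)
      · exact huJ (h ▸ ha)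
      · exact hvJ (h ▸ ha)

/-- potential with odd defect from a digon model -/
theorem odd_pot {E T : V → V → ℤ → Prop} {S : Finset V} (hE : SGr E) (L : Lift E S T) {u v : V}
    (hu : u ∈ S) (hv : v ∈ S) (huv : u ≠ v) (c : ℤ)
    (hc2 : ∀ s ∈ S, Conn (Adj E) (S.erase s)) (hub : ¬ Bal (Rm E u v) S) :
    ∃ H : V → ℤ, Conn (Fl (Rm T u v) H) S ∧ Odd (H v - H u - c) := by
  have hE0 := rm_sgr hE u v
  have hH : ∀ t ∈ S, ∀ J : Finset V, J ⊆ S.erase t → J.Nonempty → u ∉ J → v ∉ J →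
      ∃ a ∈ J, ∃ b ∈ S.erase t, b ∉ J ∧ Adj (Rm E u v) a b := by
    intro t ht J hJ hne huJ hvJ
    have hJn : J ≠ S.erase t := by
      intro h
      by_cases htu : t = u
      · apply hvJ; rw [h, htu]; exact Finset.mem_erase.mpr ⟨huv.symm, hv⟩
      · apply huJ; rw [h]; exact Finset.mem_erase.mpr ⟨fun h => htu h.symm, hu⟩
    obtain ⟨a, ha, b, hb, hbJ, x, hx⟩ := (hc2 t ht).2 J hJ hne hJn
    refine ⟨a, ha, b, hb, hbJ, x, hx, ?_⟩
    rintro (⟨h, _⟩ | ⟨h, _⟩)
    · exact huJ (h ▸ ha)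
    · exact hvJ (h ▸ ha)
  obtain ⟨Y, Z, h, huY, hvZ, hd, hYZ, hY, hZ, ⟨a0, ha0, b0, hb0, e0⟩, ⟨a1, ha1, b1, hb1, e1⟩⟩ :=
    digon_model (Rm E u v) hE0 S u v hu hv huv hH hub
  have hYS : Y ⊆ S := hYZ ▸ Finset.subset_union_left
  have hZS : Z ⊆ S := hYZ ▸ Finset.subset_union_right
  have hsT := rm_symm L.symm u v
  have hex : ∀ a ∈ S, ∀ b ∈ S, ∀ x, Rm E u v a b x → ∃ y, Rm T u v a b y ∧ Even (y - x) := by
    intro a ha b hb x hx
    obtain ⟨y, hy, hyx⟩ := L.ex a ha b hb x hx.1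
    exact ⟨y, ⟨hy, hx.2⟩, hyx⟩
  obtain ⟨H1, p1, q1⟩ := grow_parity hsT (fun a ha b hb => hex a (hYS ha) b (hYS hb)) hY
  obtain ⟨H2, p2, q2⟩ := grow_parity hsT (fun a ha b hb => hex a (hZS ha) b (hZS hb)) hZ
  obtain ⟨y0, hy0, hyx0⟩ := hex a0 (hYS ha0) b0 (hZS hb0) _ e0
  obtain ⟨y1, hy1, hyx1⟩ := hex a1 (hYS ha1) b1 (hZS hb1) _ e1
  obtain ⟨K0, c0, d0⟩ := glue_pot hsT hd q1 q2 p1 p2 ha0 hb0 huY hvZ hy0
  obtain ⟨K1, c1, d1⟩ := glue_pot hsT hd q1 q2 p1 p2 ha1 hb1 huY hvZ hy1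
  rw [hYZ] at c0 c1
  rcases Int.even_or_odd (K0 v - K0 u - c) with hev | hodd
  · refine ⟨K1, c1, ?_⟩
    obtain ⟨i, hi⟩ := hev
    obtain ⟨j, hj⟩ := d0
    obtain ⟨k, hk⟩ := d1
    obtain ⟨l, hl⟩ := hyx0
    obtain ⟨m, hm⟩ := hyx1
    exact ⟨i - j - l + k + m, by linarith⟩
  · exact ⟨K0, c0, hodd⟩

/-- sign comparison -/
theorem key_sign {E T1 T2 : V → V → ℤ → Prop} {S : Finset V} (L1 : Lift E S T1) (L2 : Lift E S T2)
    {u v : V} (hu : u ∈ S) (hv : v ∈ S) {c c2 k1 k2 ε : ℤ} {g : V → ℤ}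
    (hT1 : T1 u v c) (hT1' : T1 u v (c + k1)) (hT2 : T2 u v c2) (hT2' : T2 u v (c2 + k2))
    (hk1 : k1 = 1 ∨ k1 = -1) (hk2 : k2 = 1 ∨ k2 = -1) (hε : ε = 1 ∨ ε = -1)
    (hg : g v = g u + c2 - ε * c)
    (hmap : ∀ a b x, T1 a b x → ¬ IsPQ u v a b → T2 a b (ε * x + g b - g a))
    {H : V → ℤ} (hH : Conn (Fl (Rm T1 u v) H) S) (hodd : Odd (H v - H u - c)) : k2 = ε * k1 := by
  have hC1 : Conn (Fl T1 H) S := hH.mono fun a _ b _ h => h.1
  have d1 := L1.dev S subset_rfl H hC1 u hu v hv c hT1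
  have d2 := L1.dev S subset_rfl H hC1 u hu v hv _ hT1'
  obtain ⟨i, hi⟩ := hodd
  rw [abs_le] at d1 d2
  have hHk : H v - H u = c + k1 := by
    rcases hk1 with rfl | rfl <;> omega
  have hC2 : Conn (Fl T2 (fun t => ε * H t + g t)) S := by
    refine hH.mono fun a _ b _ h => ?_
    have := hmap a b _ h.1 h.2
    unfold Fl
    convert this using 1; ring
  have d3 := L2.dev S subset_rfl _ hC2 u hu v hv _ hT2'
  have e : c2 + k2 - (ε * H v + g v - (ε * H u + g u)) = k2 - ε * k1 := by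
    have : ε * H v - ε * H u = ε * (c + k1) := by rw [← hHk]; ring
    rw [hg]
    linarith
  rw [e, abs_le] at d3
  rcases hε with rfl | rfl <;> rcases hk1 with rfl | rfl <;> rcases hk2 with rfl | rfl <;> omega

theorem uniq_base (E : V → V → ℤ → Prop) (hE : SGr E) (S : Finset V) (h2 : S.card = 2)
    (hc : Conn (Adj E) S) (T1 T2 : V → V → ℤ → Prop) (L1 : Lift E S T1) (L2 : Lift E S T2) :
    ∃ (ε : ℤ) (g : V → ℤ), (ε = 1 ∨ ε = -1) ∧ (∀ a ∈ S, ∀ b ∈ S, Even (g b - g a)) ∧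
      ∀ a b x, T1 a b x → T2 a b (ε * x + g b - g a) := by
  obtain ⟨p, q, hpq, rfl⟩ := Finset.card_eq_two.mp h2
  have hp : p ∈ ({p, q} : Finset V) := by simp
  have hq : q ∈ ({p, q} : Finset V) := by simp
  have hne : ({p} : Finset V) ≠ {p, q} := by
    intro h
    have := congrArg Finset.card h
    rw [h2] at this
    simp at this
  obtain ⟨a, ha, b, hb, hbJ, x, hx⟩ := hc.2 {p} (by simp) (by simp) hne
  have hap : a = p := Finset.mem_singleton.mp ha
  have hbq : b = q := by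
    have h1 : b ≠ p := fun h => hbJ (by rw [h]; simp)
    have : b = p ∨ b = q := by simpa using hb
    tauto
  subst hap hbq
  obtain ⟨x1, hx1, hx1x⟩ := L1.ex a hp b hq x hx
  obtain ⟨y1, hy1, hy1x⟩ := L2.ex a hp b hq x hx
  -- reduction to the pair (a, b)
  have red : ∀ (ε : ℤ) (g : V → ℤ), (∀ x, T1 a b x → T2 a b (ε * x + g b - g a)) →
      ∀ s t x, T1 s t x → T2 s t (ε * x + g t - g s) := by
    intro ε g hab s t x hst
    have hs : s = a ∨ s = b := by simpa using (L1.sub _ _ _ hst).1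
    have ht : t = a ∨ t = b := by simpa using (L1.sub _ _ _ hst).2.1
    have hstne : s ≠ t := hE.irr _ _ _ (L1.sub _ _ _ hst).2.2
    rcases hs with rfl | rfl <;> rcases ht with rfl | rfl
    · exact absurd rfl hstne
    · exact hab _ hst
    · have h1 := hab _ (L1.symm _ _ _ hst)
      have h2 := L2.symm _ _ _ h1
      convert h2 using 1; ring
    · exact absurd rfl hstne
  have par : ∀ (g : V → ℤ), Even (g b - g a) → ∀ s ∈ ({a, b} : Finset V), ∀ t ∈ ({a, b} : Finset V),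
      Even (g t - g s) := by
    intro g hg s hs t ht
    have hs : s = a ∨ s = b := by simpa using hs
    have ht : t = a ∨ t = b := by simpa using ht
    rcases hs with rfl | rfl <;> rcases ht with rfl | rfl
    · simp
    · exact hg
    · obtain ⟨k, hk⟩ := hg; exact ⟨-k, by linarith⟩
    · simp
  by_cases hex : ∃ x', T1 a b x' ∧ x' ≠ x1
  · obtain ⟨x', hx', hne'⟩ := hex
    have d := Lift.label_unique hE L1 hx' hx1
    rw [abs_le] at d
    obtain ⟨y', hy', hy'x⟩ := L2.ex a hp b hq x' (L1.sub _ _ _ hx').2.2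
    have d' := Lift.label_unique hE L2 hy' hy1
    rw [abs_le] at d'
    obtain ⟨i, hi⟩ := hx1x
    obtain ⟨j, hj⟩ := hy1x
    obtain ⟨k, hk⟩ := hy'x
    have hk1 : x' = x1 + 1 ∨ x' = x1 - 1 := by omega
    have hk2 : y' = y1 + 1 ∨ y' = y1 - 1 := by omega
    have hall : ∀ z, T1 a b z → z = x1 ∨ z = x' := by
      intro z hz
      have d1 := Lift.label_unique hE L1 hz hx1
      have d2 := Lift.label_unique hE L1 hz hx'
      rw [abs_le] at d1 d2
      omega
    -- sign
    obtain ⟨ε, hε, hεe⟩ : ∃ ε : ℤ, (ε = 1 ∨ ε = -1) ∧ y' - y1 = ε * (x' - x1) := by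
      rcases hk1 with h1 | h1 <;> rcases hk2 with h2 | h2
      · exact ⟨1, Or.inl rfl, by rw [h1, h2]; ring⟩
      · exact ⟨-1, Or.inr rfl, by rw [h1, h2]; ring⟩
      · exact ⟨-1, Or.inr rfl, by rw [h1, h2]; ring⟩
      · exact ⟨1, Or.inl rfl, by rw [h1, h2]; ring⟩
    refine ⟨ε, fun t => if t = b then y1 - ε * x1 else 0, hε, ?_, ?_⟩
    · apply par
      simp only [if_true, if_neg hpq]
      rcases hε with rfl | rfl
      · exact ⟨j - i, by linarith⟩
      · exact ⟨x + i + j, by linarith⟩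
    · apply red
      intro z hz
      simp only [if_true, if_neg hpq]
      rcases hall z hz with rfl | rfl
      · convert hy1 using 1; ring
      · convert hy' using 1
        linarith [hεe, mul_sub ε z x1]
  · have hall : ∀ z, T1 a b z → z = x1 := by
      intro z hz
      by_contra h
      exact hex ⟨z, hz, h⟩
    obtain ⟨i, hi⟩ := hx1x
    obtain ⟨j, hj⟩ := hy1x
    refine ⟨1, fun t => if t = b then y1 - x1 else 0, Or.inl rfl, ?_, ?_⟩
    · apply par
      simp only [if_true, if_neg hpq]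
      exact ⟨j - i, by linarith⟩
    · apply red
      intro z hz
      simp only [if_true, if_neg hpq]
      rw [hall z hz]
      convert hy1 using 1; ring

theorem uniq_step (E : V → V → ℤ → Prop) (hE : SGr E) (S : Finset V) (h3 : 3 ≤ S.card)
    (hc : Conn (Adj E) S) (hc2 : ∀ s ∈ S, Conn (Adj E) (S.erase s))
    (T1 T2 : V → V → ℤ → Prop) (L1 : Lift E S T1) (L2 : Lift E S T2)
    {u v : V} (hu : u ∈ S) (hv : v ∈ S) {c c2 ε : ℤ} {g : V → ℤ}
    (hT1 : T1 u v c) (hT2 : T2 u v c2) (hcc : Even (c2 - c)) (hε : ε = 1 ∨ ε = -1)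
    (hgp : ∀ a ∈ S, ∀ b ∈ S, Even (g b - g a)) (hg : g v = g u + c2 - ε * c)
    (hmap : ∀ a b x, T1 a b x → ¬ IsPQ u v a b → T2 a b (ε * x + g b - g a)) :
    ∃ (ε : ℤ) (g : V → ℤ), (ε = 1 ∨ ε = -1) ∧ (∀ a ∈ S, ∀ b ∈ S, Even (g b - g a)) ∧
      ∀ a b x, T1 a b x → T2 a b (ε * x + g b - g a) := by
  have huv : u ≠ v := hE.irr _ _ _ (L1.sub _ _ _ hT1).2.2
  -- reduction to the pair (u, v)
  have red : ∀ (ε : ℤ) (g : V → ℤ), (∀ a b x, T1 a b x → ¬ IsPQ u v a b → T2 a b (ε * x + g b - g a)) →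
      (∀ x, T1 u v x → T2 u v (ε * x + g v - g u)) →
      ∀ s t x, T1 s t x → T2 s t (ε * x + g t - g s) := by
    intro ε g hm hab s t x hst
    by_cases hpq : IsPQ u v s t
    · rcases hpq with ⟨rfl, rfl⟩ | ⟨rfl, rfl⟩
      · exact hab _ hst
      · have h1 := hab _ (L1.symm _ _ _ hst)
        have h2 := L2.symm _ _ _ h1
        convert h2 using 1; ring
    · exact hm _ _ _ hst hpq
  by_cases hex : ∃ x', T1 u v x' ∧ x' ≠ c
  · obtain ⟨x', hx', hne'⟩ := hex
    have d := Lift.label_unique hE L1 hx' hT1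
    rw [abs_le] at d
    obtain ⟨y', hy', hy'x⟩ := L2.ex u hu v hv x' (L1.sub _ _ _ hx').2.2
    have d' := Lift.label_unique hE L2 hy' hT2
    rw [abs_le] at d'
    obtain ⟨k1, hk1, rfl⟩ : ∃ k1 : ℤ, (k1 = 1 ∨ k1 = -1) ∧ x' = c + k1 :=
      ⟨x' - c, by omega, by ring⟩
    obtain ⟨k2, hk2, rfl⟩ : ∃ k2 : ℤ, (k2 = 1 ∨ k2 = -1) ∧ y' = c2 + k2 := by
      refine ⟨y' - c2, ?_, by ring⟩
      obtain ⟨i, hi⟩ := hcc
      obtain ⟨j, hj⟩ := hy'x
      omega
    have hall : ∀ z, T1 u v z → z = c ∨ z = c + k1 := by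
      intro z hz
      have d1 := Lift.label_unique hE L1 hz hT1
      have d2 := Lift.label_unique hE L1 hz hx'
      rw [abs_le] at d1 d2
      omega
    have fin : ∀ (ε : ℤ) (g : V → ℤ), (ε = 1 ∨ ε = -1) → (∀ a ∈ S, ∀ b ∈ S, Even (g b - g a)) →
        (∀ a b x, T1 a b x → ¬ IsPQ u v a b → T2 a b (ε * x + g b - g a)) →
        g v = g u + c2 - ε * c → k2 = ε * k1 →
        ∃ (ε : ℤ) (g : V → ℤ), (ε = 1 ∨ ε = -1) ∧ (∀ a ∈ S, ∀ b ∈ S, Even (g b - g a)) ∧
          ∀ a b x, T1 a b x → T2 a b (ε * x + g b - g a) := by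
      intro ε g hε hgp hm hg hk
      refine ⟨ε, g, hε, hgp, red ε g hm ?_⟩
      intro z hz
      rcases hall z hz with rfl | rfl
      · convert hT2 using 1; rw [hg]; ring
      · convert hy' using 1; rw [hg, hk]; ring
    by_cases hB : Bal (Rm E u v) S
    · have hconn0 := rm_conn hu hv h3 hc (hc2 u hu) (hc2 v hv)
      have hsT := rm_symm L1.symm u v
      have hconnT : Conn (Adj (Rm T1 u v)) S := by
        refine hconn0.mono fun a ha b hb hab => ?_
        obtain ⟨x, hx⟩ := hab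
        obtain ⟨y, hy, _⟩ := L1.ex a ha b hb x hx.1
        exact ⟨y, hy, hx.2⟩
      obtain ⟨H, _, hH⟩ := exists_flat hsT hconnT hu 0
      obtain ⟨h, hh⟩ := hB
      -- parity of H - h is constant
      have hpar : ∀ t ∈ S, Even (H t - H u - (h t - h u)) := by
        by_contra hcon
        push Not at hcon
        obtain ⟨t0, ht0, ht0'⟩ := hcon
        set J := S.filter (fun t => Even (H t - H u - (h t - h u))) with hJ
        have hJS : J ⊆ S := Finset.filter_subset _ _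
        have huJ : u ∈ J := Finset.mem_filter.mpr ⟨hu, by simp⟩
        have hJn : J ≠ S := by
          intro h'
          have : t0 ∈ J := h' ▸ ht0
          exact ht0' (Finset.mem_filter.mp this).2
        obtain ⟨a, ha, b, hb, hbJ, hab⟩ := hH.2 J hJS ⟨u, huJ⟩ hJn
        have e1 := hh a (hJS ha) b hb _ ⟨(L1.sub _ _ _ hab.1).2.2, hab.2⟩
        have e2 := (Finset.mem_filter.mp ha).2
        apply hbJ
        refine Finset.mem_filter.mpr ⟨hb, ?_⟩
        obtain ⟨i, hi⟩ := e1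
        obtain ⟨j, hj⟩ := e2
        exact ⟨i + j, by linarith⟩
      have hC1 : Conn (Fl T1 H) S := hH.mono fun a _ b _ h => h.1
      have hlab : ∀ a b x, T1 a b x → ¬ IsPQ u v a b → x = H b - H a := by
        intro a b x hx hpq
        have hs := L1.sub _ _ _ hx
        have d1 := L1.dev S subset_rfl H hC1 a hs.1 b hs.2.1 x hx
        obtain ⟨i, hi⟩ := hh a hs.1 b hs.2.1 x ⟨hs.2.2, hpq⟩
        obtain ⟨j, hj⟩ := hpar a hs.1
        obtain ⟨k, hk⟩ := hpar b hs.2.1
        rw [abs_le] at d1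
        omega
      rcases Int.even_or_odd (H v - H u - c) with hev | hodd
      · have d1 := L1.dev S subset_rfl H hC1 u hu v hv c hT1
        have hcH : c = H v - H u := by
          obtain ⟨i, hi⟩ := hev
          rw [abs_le] at d1
          omega
        by_cases hk : k2 = ε * k1
        · exact fin ε g hε hgp hmap hg hk
        · have hk' : k2 = -ε * k1 := by
            rcases hε with rfl | rfl <;> rcases hk1 with rfl | rfl <;> rcases hk2 with rfl | rfl <;>
              omega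
          refine fin (-ε) (fun t => g t + 2 * (ε * H t)) ?_ ?_ ?_ ?_ hk'
          · rcases hε with rfl | rfl
            · right; rfl
            · left; norm_num
          · intro a ha b hb
            obtain ⟨i, hi⟩ := hgp a ha b hb
            exact ⟨i + (ε * H b - ε * H a), by linarith⟩
          · intro a b x hx hpq
            have h1 := hmap a b x hx hpq
            have h2 := hlab a b x hx hpq
            convert h1 using 1
            rw [h2]; ring
          · rw [hg, hcH]; ring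
      · exact fin ε g hε hgp hmap hg
          (key_sign L1 L2 hu hv hT1 hx' hT2 hy' hk1 hk2 hε hg hmap hH hodd)
    · obtain ⟨H, hH, hodd⟩ := odd_pot hE L1 hu hv huv c hc2 hB
      exact fin ε g hε hgp hmap hg
        (key_sign L1 L2 hu hv hT1 hx' hT2 hy' hk1 hk2 hε hg hmap hH hodd)
  · have hall : ∀ z, T1 u v z → z = c := by
      intro z hz
      by_contra h
      exact hex ⟨z, hz, h⟩
    refine ⟨ε, g, hε, hgp, red ε g hmap ?_⟩
    intro z hz
    rw [hall z hz]
    convert hT2 using 1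
    rw [hg]; ring

/-- uniqueness of lifts on 2-connected graphs -/
theorem uniq (E : V → V → ℤ → Prop) (hE : SGr E) (S : Finset V) (h2 : 2 ≤ S.card) (hc : Conn (Adj E) S)
    (hc2 : ∀ s ∈ S, Conn (Adj E) (S.erase s)) (T1 T2 : V → V → ℤ → Prop) (L1 : Lift E S T1) (L2 : Lift E S T2) :
    ∃ (ε : ℤ) (g : V → ℤ), (ε = 1 ∨ ε = -1) ∧ (∀ a ∈ S, ∀ b ∈ S, Even (g b - g a)) ∧
      ∀ a b x, T1 a b x → T2 a b (ε * x + g b - g a) := by
  have main : ∀ n : ℕ, ∀ (E : V → V → ℤ → Prop) (hE : SGr E) (S : Finset V), S.card = n + 2 →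
      Conn (Adj E) S → (∀ s ∈ S, Conn (Adj E) (S.erase s)) → ∀ (T1 T2 : V → V → ℤ → Prop),
      Lift E S T1 → Lift E S T2 →
      ∃ (ε : ℤ) (g : V → ℤ), (ε = 1 ∨ ε = -1) ∧ (∀ a ∈ S, ∀ b ∈ S, Even (g b - g a)) ∧
        ∀ a b x, T1 a b x → T2 a b (ε * x + g b - g a) := by
    intro n
    induction n with
    | zero =>
      intro E hE S hcard hc hc2 T1 T2 L1 L2
      exact uniq_base E hE S hcard hc T1 T2 L1 L2
    | succ n ih =>
      intro E hE S hcard hc hc2 T1 T2 L1 L2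
      obtain ⟨u, hu, v, hv, ⟨x0, hx0⟩, huvc⟩ := contractible2 (Adj E)
        (fun a b h => Adj.symm hE.symm h) (fun a ⟨x, hx⟩ => hE.irr _ _ _ hx rfl) S (by omega) hc2
      have huv : u ≠ v := hE.irr _ _ _ hx0
      obtain ⟨c, hT1, hcx⟩ := L1.ex u hu v hv x0 hx0
      obtain ⟨c2, hT2, hc2x⟩ := L2.ex u hu v hv x0 hx0
      have hcc : Even (c2 - c) := by
        obtain ⟨i, hi⟩ := hcx
        obtain ⟨j, hj⟩ := hc2x
        exact ⟨j - i, by linarith⟩
      have L1' := lift_ctr hE L1 hT1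
      have L2' := lift_ctr hE L2 hT2
      rw [ctr_congr hE u v hcc] at L2'
      have hE' := ctr_sgr hE u v c
      have hcard' : (S.erase v).card = n + 2 := by
        rw [Finset.card_erase_of_mem hv, hcard]; omega
      have hc' := conn_ctr hE.symm c huv hu hv hc
      have hc2' : ∀ s ∈ S.erase v, Conn (Adj (Ctr E u v c)) ((S.erase v).erase s) := by
        intro s hs
        have hsv := (Finset.mem_erase.mp hs).1
        have hsS := (Finset.mem_erase.mp hs).2
        by_cases hsu : s = u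
        · rw [hsu, Finset.erase_right_comm]
          refine huvc.mono fun a ha b hb hab => ?_
          obtain ⟨x, hx⟩ := hab
          have ha' := Finset.mem_erase.mp ha
          have hb' := Finset.mem_erase.mp hb
          exact ⟨x, ha'.1, hb'.1, hE.irr _ _ _ hx, Or.inl hx⟩
        · rw [Finset.erase_right_comm]
          exact conn_ctr hE.symm c huv (Finset.mem_erase.mpr ⟨fun h => hsu h.symm, hu⟩)
            (Finset.mem_erase.mpr ⟨fun h => hsv h.symm, hv⟩) (hc2 s hsS)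
      obtain ⟨ε, g', hε, hgp', hmap'⟩ := ih (Ctr E u v c) hE' (S.erase v) hcard' hc' hc2' _ _ L1' L2'
      set g : V → ℤ := fun t => if t = v then g' u + c2 - ε * c else g' t with hgdef
      have gv : g v = g' u + c2 - ε * c := by simp [hgdef]
      have gt : ∀ t, t ≠ v → g t = g' t := fun t ht => by simp [hgdef, ht]
      have huS' : u ∈ S.erase v := Finset.mem_erase.mpr ⟨huv, hu⟩
      have hev1 : Even (c2 - ε * c) := by
        obtain ⟨i, hi⟩ := hcc
        rcases hε with rfl | rfl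
        · exact ⟨i, by linarith⟩
        · exact ⟨i + c, by linarith⟩
      refine uniq_step E hE S (by omega) hc hc2 T1 T2 L1 L2 hu hv hT1 hT2 hcc hε ?_ ?_ ?_ (g := g)
      · intro a ha b hb
        have aux : ∀ b ∈ S, Even (g b - g' u) := by
          intro b hb
          by_cases hbv : b = v
          · rw [hbv, gv]
            obtain ⟨i, hi⟩ := hev1
            exact ⟨i, by linarith⟩
          · rw [gt b hbv]
            exact hgp' u huS' b (Finset.mem_erase.mpr ⟨hbv, hb⟩)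
        obtain ⟨i, hi⟩ := aux a ha
        obtain ⟨j, hj⟩ := aux b hb
        exact ⟨j - i, by linarith⟩
      · rw [gv, gt u huv]
      · intro a b x hx hpq
        have hs := L1.sub _ _ _ hx
        have hab : a ≠ b := hE.irr _ _ _ hs.2.2
        obtain ⟨y, hy, hyx⟩ := L2.ex a hs.1 b hs.2.1 x hs.2.2
        have fin : ∀ {a' b' : V} {z w : ℤ}, Ctr T2 u v c2 a' b' z → Ctr T2 u v c2 a' b' w →
            Even (z - w) → z = w := by
          intro a' b' z w hz hw hev
          have d := Lift.label_unique hE' L2' hz hw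
          rw [abs_le] at d
          obtain ⟨i, hi⟩ := hev
          omega
        obtain ⟨i, hi⟩ := hyx
        obtain ⟨j, hj⟩ := hev1
        have hεx : Even (ε * x - x) := by
          rcases hε with rfl | rfl
          · exact ⟨0, by ring⟩
          · exact ⟨-x, by ring⟩
        obtain ⟨l, hl⟩ := hεx
        by_cases hav : a = v
        · have hbv : b ≠ v := fun h => hab (hav.trans h.symm)
          have hbu : b ≠ u := fun h => hpq (Or.inr ⟨hav, h⟩)
          have e1 : Ctr T1 u v c u b (x + c) := by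
            refine ⟨huv, hbv, hbu.symm, Or.inr (Or.inl ⟨rfl, ?_⟩)⟩
            rw [hav] at hx
            convert hx using 1; ring
          have e2 := hmap' _ _ _ e1
          have e3 : Ctr T2 u v c2 u b (y + c2) := by
            refine ⟨huv, hbv, hbu.symm, Or.inr (Or.inl ⟨rfl, ?_⟩)⟩
            rw [hav] at hy
            convert hy using 1; ring
          obtain ⟨m, hm⟩ := hgp' u huS' b (Finset.mem_erase.mpr ⟨hbv, hs.2.1⟩)
          have e4 := fin e3 e2 ⟨i + j - l - m, by linarith⟩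
          rw [hav, gv, gt b hbv]
          rw [hav] at hy
          convert hy using 1
          linarith
        · by_cases hbv : b = v
          · have hau : a ≠ u := fun h => hpq (Or.inl ⟨h, hbv⟩)
            have e1 : Ctr T1 u v c a u (x - c) := by
              refine ⟨hav, huv, hau, Or.inr (Or.inr ⟨rfl, ?_⟩)⟩
              rw [hbv] at hx
              convert hx using 1; ring
            have e2 := hmap' _ _ _ e1
            have e3 : Ctr T2 u v c2 a u (y - c2) := by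
              refine ⟨hav, huv, hau, Or.inr (Or.inr ⟨rfl, ?_⟩)⟩
              rw [hbv] at hy
              convert hy using 1; ring
            obtain ⟨m, hm⟩ := hgp' a (Finset.mem_erase.mpr ⟨hav, hs.1⟩) u huS'
            have e4 := fin e3 e2 ⟨i - j - l - m, by linarith⟩
            rw [hbv, gv, gt a hav]
            rw [hbv] at hy
            convert hy using 1
            linarith
          · have e1 : Ctr T1 u v c a b x := ⟨hav, hbv, hab, Or.inl hx⟩
            have e2 := hmap' _ _ _ e1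
            have e3 : Ctr T2 u v c2 a b y := ⟨hav, hbv, hab, Or.inl hy⟩
            obtain ⟨m, hm⟩ := hgp' a (Finset.mem_erase.mpr ⟨hav, hs.1⟩) b
              (Finset.mem_erase.mpr ⟨hbv, hs.2.1⟩)
            have e4 := fin e3 e2 ⟨i - l - m, by linarith⟩
            rw [gt a hav, gt b hbv]
            rw [e4] at hy
            exact hy
  exact main (S.card - 2) E hE S (by omega) hc hc2 T1 T2 L1 L2

end SgK4


/-! ### stepK -/

namespace SgK4
variable {V : Type}


theorem conn_of_avoid_K {R : V → V → Prop} (hs : ∀ a b, R a b → R b a) {S : Finset V} {u : V} (hu : u ∈ S)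
    (key : ∀ J : Finset V, J ⊆ S → J.Nonempty → u ∉ J → ∃ a ∈ J, ∃ b ∈ S, b ∉ J ∧ R a b) : Conn R S := by
  refine ⟨⟨u, hu⟩, fun J hJ hJn hJne => ?_⟩
  by_cases huJ : u ∈ J
  · obtain ⟨a, ha, b, hb, hb', hab⟩ := key (S \ J) Finset.sdiff_subset (by
      rw [Finset.sdiff_nonempty]; exact fun h => hJne (Finset.Subset.antisymm hJ h))
      (fun h => (Finset.mem_sdiff.mp h).2 huJ)
    have ha' := Finset.mem_sdiff.mp ha
    have hbJ : b ∈ J := by
      by_contra h; exact hb' (Finset.mem_sdiff.mpr ⟨hb, h⟩)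
    exact ⟨b, hbJ, a, ha'.1, ha'.2, hs _ _ hab⟩
  · exact key J hJ hJn huJ

theorem comp_exists {R : V → V → Prop} (hs : ∀ a b, R a b → R b a) (Y : Finset V) {y : V} (hy : y ∈ Y) :
    ∃ C : Finset V, C ⊆ Y ∧ y ∈ C ∧ Conn R C ∧ ∀ a ∈ C, ∀ b ∈ Y, R a b → b ∈ C := by
  obtain ⟨C, hC, hmax⟩ := Finset.exists_max_image (Y.powerset.filter (fun C => y ∈ C ∧ Conn R C)) Finset.card
    ⟨{y}, by
      rw [Finset.mem_filter, Finset.mem_powerset]
      exact ⟨Finset.singleton_subset_iff.mpr hy, Finset.mem_singleton_self y, Conn.single _ _⟩⟩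
  rw [Finset.mem_filter, Finset.mem_powerset] at hC
  refine ⟨C, hC.1, hC.2.1, hC.2.2, fun a ha b hb hab => ?_⟩
  by_contra hbC
  have h1 := hmax (insert b C) (by
    rw [Finset.mem_filter, Finset.mem_powerset]
    exact ⟨Finset.insert_subset hb hC.1, Finset.mem_insert_of_mem hC.2.1, Conn.insert hs hC.2.2 ha hab⟩)
  rw [Finset.card_insert_of_notMem hbC] at h1
  omega

theorem closed_absorb {R : V → V → Prop} {Y C D : Finset V} (hcl : ∀ a ∈ C, ∀ b ∈ Y, R a b → b ∈ C)
    (hDY : D ⊆ Y) (hD : Conn R D) {t : V} (htC : t ∈ C) (htD : t ∈ D) : D ⊆ C := by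
  by_contra hn
  have hne : D ∩ C ≠ D := fun h => hn (by rw [← h]; exact Finset.inter_subset_right)
  obtain ⟨a, ha, b, hb, hb', hab⟩ := hD.2 (D ∩ C) Finset.inter_subset_left
    ⟨t, Finset.mem_inter.mpr ⟨htD, htC⟩⟩ hne
  exact hb' (Finset.mem_inter.mpr ⟨hb, hcl a (Finset.mem_inter.mp ha).2 b (hDY hb) hab⟩)

theorem compl_conn {R : V → V → Prop} (hs : ∀ a b, R a b → R b a) {S C : Finset V} {u : V} (hS : Conn R S)
    (hu : u ∈ S) (hC : C ⊆ S.erase u) (hcl : ∀ a ∈ C, ∀ b ∈ S.erase u, R a b → b ∈ C) : Conn R (S \ C) := by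
  have huC : u ∉ C := fun h => (Finset.mem_erase.mp (hC h)).1 rfl
  refine conn_of_avoid_K hs (u := u) (Finset.mem_sdiff.mpr ⟨hu, huC⟩) ?_
  intro J hJ hJn huJ
  obtain ⟨a, ha, b, hb, hb', hab⟩ := hS.2 J (hJ.trans Finset.sdiff_subset) hJn (fun h => huJ (h ▸ hu))
  refine ⟨a, ha, b, Finset.mem_sdiff.mpr ⟨hb, fun hbC => ?_⟩, hb', hab⟩
  have haS := Finset.mem_sdiff.mp (hJ ha)
  exact haS.2 (hcl b hbC a (Finset.mem_erase.mpr ⟨fun h => huJ (h ▸ ha), haS.1⟩) (hs _ _ hab))

/-- the lifted relation -/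
def TL (E T' : V → V → ℤ → Prop) (u v : V) (c : ℤ) : V → V → ℤ → Prop := fun a b x =>
  (a ≠ v ∧ b ≠ v ∧ T' a b x ∧ E a b x) ∨ (a = v ∧ b ≠ u ∧ b ≠ v ∧ T' u b (x + c) ∧ E v b x) ∨
  (b = v ∧ a ≠ u ∧ a ≠ v ∧ T' a u (x - c) ∧ E a v x) ∨ (a = u ∧ b = v ∧ x = c) ∨ (a = v ∧ b = u ∧ x = -c)

theorem TL.symm {E : V → V → ℤ → Prop} (hE : SGr E) {S : Finset V} {u v : V} {c : ℤ}
    {T' : V → V → ℤ → Prop} (hL : Lift (Ctr E u v c) (S.erase v) T') (a b : V) (x : ℤ)
    (h : TL E T' u v c a b x) : TL E T' u v c b a (-x) := by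
  rcases h with ⟨h1, h2, h3, h4⟩ | ⟨h1, h2, h3, h4, h5⟩ | ⟨h1, h2, h3, h4, h5⟩ | ⟨h1, h2, h3⟩ | ⟨h1, h2, h3⟩
  · exact Or.inl ⟨h2, h1, hL.symm _ _ _ h3, hE.symm _ _ _ h4⟩
  · refine Or.inr (Or.inr (Or.inl ⟨h1, h2, h3, ?_, hE.symm _ _ _ h5⟩))
    have := hL.symm _ _ _ h4
    have e : -x - c = -(x + c) := by ring
    rw [e]; exact this
  · refine Or.inr (Or.inl ⟨h1, h2, h3, ?_, hE.symm _ _ _ h5⟩)
    have := hL.symm _ _ _ h4
    have e : -x + c = -(x - c) := by ring
    rw [e]; exact this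
  · exact Or.inr (Or.inr (Or.inr (Or.inr ⟨h2, h1, by rw [h3]⟩)))
  · exact Or.inr (Or.inr (Or.inr (Or.inl ⟨h2, h1, by rw [h3]; ring⟩)))

theorem TL.to_T {E : V → V → ℤ → Prop} {u v : V} {c : ℤ} {T' : V → V → ℤ → Prop} {a b : V} {x : ℤ}
    (h : TL E T' u v c a b x) (ha : a ≠ v) (hb : b ≠ v) : T' a b x := by
  rcases h with ⟨h1, h2, h3, h4⟩ | ⟨h1, h2, h3, h4, h5⟩ | ⟨h1, h2, h3, h4, h5⟩ | ⟨h1, h2, h3⟩ | ⟨h1, h2, h3⟩
  · exact h3
  · exact absurd h1 ha
  · exact absurd h1 hb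
  · exact absurd h2 hb
  · exact absurd h1 ha

theorem TL.to_Tv {E : V → V → ℤ → Prop} {u v : V} {c : ℤ} {T' : V → V → ℤ → Prop} {a : V} {x : ℤ}
    (h : TL E T' u v c a v x) (ha : a ≠ v) (hau : a ≠ u) : T' a u (x - c) := by
  rcases h with ⟨h1, h2, h3, h4⟩ | ⟨h1, h2, h3, h4, h5⟩ | ⟨h1, h2, h3, h4, h5⟩ | ⟨h1, h2, h3⟩ | ⟨h1, h2, h3⟩
  · exact absurd rfl h2
  · exact absurd h1 ha
  · exact h4
  · exact absurd h1 hau
  · exact absurd h1 ha

theorem TL.uv {E : V → V → ℤ → Prop} {u v : V} {c : ℤ} {T' : V → V → ℤ → Prop} {x : ℤ} (huv : u ≠ v)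
    (h : TL E T' u v c u v x) : x = c := by
  rcases h with ⟨h1, h2, h3, h4⟩ | ⟨h1, h2, h3, h4, h5⟩ | ⟨h1, h2, h3, h4, h5⟩ | ⟨h1, h2, h3⟩ | ⟨h1, h2, h3⟩
  · exact absurd rfl h2
  · exact absurd h1 huv
  · exact absurd rfl h2
  · exact h3
  · exact absurd h1 huv

theorem TL.sub {E : V → V → ℤ → Prop} (hE : SGr E) {S : Finset V} {u v : V} {c : ℤ} (hu : u ∈ S) (hv : v ∈ S)
    (huv : E u v c)
    {T' : V → V → ℤ → Prop} (hL : Lift (Ctr E u v c) (S.erase v) T') (a b : V) (x : ℤ)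
    (h : TL E T' u v c a b x) : a ∈ S ∧ b ∈ S ∧ E a b x := by
  rcases h with ⟨h1, h2, h3, h4⟩ | ⟨h1, h2, h3, h4, h5⟩ | ⟨h1, h2, h3, h4, h5⟩ | ⟨h1, h2, h3⟩ | ⟨h1, h2, h3⟩
  · have := hL.sub _ _ _ h3
    exact ⟨Finset.mem_of_mem_erase this.1, Finset.mem_of_mem_erase this.2.1, h4⟩
  · have := hL.sub _ _ _ h4
    subst h1
    exact ⟨hv, Finset.mem_of_mem_erase this.2.1, h5⟩
  · have := hL.sub _ _ _ h4
    subst h1
    exact ⟨Finset.mem_of_mem_erase this.1, hv, h5⟩
  · subst h1 h2 h3; exact ⟨hu, hv, huv⟩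
  · subst h1 h2 h3; exact ⟨hv, hu, hE.symm _ _ _ huv⟩

theorem TL.ex {E : V → V → ℤ → Prop} (hE : SGr E) {S : Finset V} {u v : V} {c : ℤ} (hu : u ∈ S) (hv : v ∈ S)
    (huv : E u v c) (honly : ∀ x, E u v x → Even (x - c))
    {T' : V → V → ℤ → Prop} (hL : Lift (Ctr E u v c) (S.erase v) T') (a : V) (ha : a ∈ S) (b : V) (hb : b ∈ S)
    (x : ℤ) (h : E a b x) : ∃ y, TL E T' u v c a b y ∧ Even (y - x) := by
  have hne : u ≠ v := hE.irr _ _ _ huv
  have hab : a ≠ b := hE.irr _ _ _ h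
  by_cases hav : a = v
  · subst hav
    by_cases hbu : b = u
    · subst hbu
      refine ⟨-c, Or.inr (Or.inr (Or.inr (Or.inr ⟨rfl, rfl, rfl⟩))), ?_⟩
      have := honly _ (hE.symm _ _ _ h)
      have e : -c - x = -x - c := by ring
      rw [e]; exact this
    · obtain ⟨y, hy1, hy2⟩ := hL.ex u (Finset.mem_erase.mpr ⟨hne, hu⟩) b (Finset.mem_erase.mpr ⟨Ne.symm hab, hb⟩)
        (x + c) ⟨hne, Ne.symm hab, Ne.symm hbu, Or.inr (Or.inl ⟨rfl, by
          have e : x + c - c = x := by ring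
          rw [e]; exact h⟩)⟩
      have hev : Even (y - c - x) := by
        have e : y - c - x = y - (x + c) := by ring
        rw [e]; exact hy2
      refine ⟨y - c, Or.inr (Or.inl ⟨rfl, hbu, Ne.symm hab, ?_, hE.evn h hev⟩), hev⟩
      have e : y - c + c = y := by ring
      rw [e]; exact hy1
  · by_cases hbv : b = v
    · subst hbv
      by_cases hau : a = u
      · subst hau
        refine ⟨c, Or.inr (Or.inr (Or.inr (Or.inl ⟨rfl, rfl, rfl⟩))), ?_⟩
        have := honly _ h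
        obtain ⟨k, hk⟩ := this
        exact ⟨-k, by linarith⟩
      · obtain ⟨y, hy1, hy2⟩ := hL.ex a (Finset.mem_erase.mpr ⟨hab, ha⟩) u (Finset.mem_erase.mpr ⟨hne, hu⟩)
          (x - c) ⟨hab, hne, hau, Or.inr (Or.inr ⟨rfl, by
            have e : x - c + c = x := by ring
            rw [e]; exact h⟩)⟩
        have hev : Even (y + c - x) := by
          have e : y + c - x = y - (x - c) := by ring
          rw [e]; exact hy2
        refine ⟨y + c, Or.inr (Or.inr (Or.inl ⟨rfl, hau, hab, ?_, hE.evn h hev⟩)), hev⟩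
        have e : y + c - c = y := by ring
        rw [e]; exact hy1
    · obtain ⟨y, hy1, hy2⟩ := hL.ex a (Finset.mem_erase.mpr ⟨hav, ha⟩) b (Finset.mem_erase.mpr ⟨hbv, hb⟩)
        x ⟨hav, hbv, hab, Or.inl h⟩
      exact ⟨y, Or.inl ⟨hav, hbv, hy1, hE.evn h hy2⟩, hy2⟩

/-- step (1) -/
theorem key1 {E : V → V → ℤ → Prop} {S : Finset V} {u v : V} {c : ℤ} (hne : u ≠ v)
    (hu : u ∈ S)
    {T' : V → V → ℤ → Prop} (hL : Lift (Ctr E u v c) (S.erase v) T') (h : V → ℤ) {Xu Xv : Finset V}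
    (hun : Xu ∪ Xv = S) (hd : Disjoint Xu Xv) (huX : u ∈ Xu) (hvX : v ∈ Xv)
    (hcu : Conn (Fl (TL E T' u v c) h) Xu) (hcv : Conn (Fl (TL E T' u v c) h) Xv)
    (a b : V) (x : ℤ) (hab : TL E T' u v c a b x) :
    |x - ((if b ∈ Xv then h b - (h v - h u - c) else h b) - (if a ∈ Xv then h a - (h v - h u - c) else h a))| ≤ 1 := by
  set h' : V → ℤ := fun t => if t ∈ Xv then h t - (h v - h u - c) else h t with hh'
  have huXv : u ∉ Xv := fun h => Finset.disjoint_left.mp hd huX h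
  have hvXu : v ∉ Xu := fun h => Finset.disjoint_left.mp hd h hvX
  have h'u : h' u = h u := by simp only [hh', if_neg huXv]
  have h'v : h' v = h u + c := by simp only [hh', if_pos hvX]; ring
  have hconn : Conn (Fl T' h') (S.erase v) := by
    refine conn_of_avoid_K (fun _ _ h => Fl.symm hL.symm h) (u := u) (Finset.mem_erase.mpr ⟨hne, hu⟩) ?_
    intro J hJ hJn huJ
    have hvJ : v ∉ J := fun h => (Finset.mem_erase.mp (hJ h)).1 rfl
    obtain ⟨t, ht⟩ := hJn
    have htS : t ∈ Xu ∪ Xv := hun ▸ Finset.mem_of_mem_erase (hJ ht)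
    rcases Finset.mem_union.mp htS with htu | htv
    · obtain ⟨a, ha, b, hb, hb', hab⟩ := hcu.2 (J ∩ Xu) Finset.inter_subset_right
        ⟨t, Finset.mem_inter.mpr ⟨ht, htu⟩⟩ (fun h => huJ (Finset.mem_inter.mp (show u ∈ J ∩ Xu by rw [h]; exact huX)).1)
      have ha' := Finset.mem_inter.mp ha
      have hbv : b ≠ v := fun h => hvXu (h ▸ hb)
      have hav : a ≠ v := fun h => hvXu (h ▸ ha'.2)
      have hbJ : b ∉ J := fun h => hb' (Finset.mem_inter.mpr ⟨h, hb⟩)
      refine ⟨a, ha'.1, b, Finset.mem_erase.mpr ⟨hbv, hun ▸ Finset.mem_union_left _ hb⟩, hbJ, ?_⟩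
      have e1 : h' a = h a := by
        simp only [hh', if_neg (fun h => Finset.disjoint_left.mp hd ha'.2 h)]
      have e2 : h' b = h b := by
        simp only [hh', if_neg (fun h => Finset.disjoint_left.mp hd hb h)]
      unfold Fl
      rw [e1, e2]
      exact TL.to_T hab hav hbv
    · obtain ⟨a, ha, b, hb, hb', hab⟩ := hcv.2 (J ∩ Xv) Finset.inter_subset_right
        ⟨t, Finset.mem_inter.mpr ⟨ht, htv⟩⟩ (fun h => hvJ (Finset.mem_inter.mp (show v ∈ J ∩ Xv by rw [h]; exact hvX)).1)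
      have ha' := Finset.mem_inter.mp ha
      have hav : a ≠ v := fun h => hvJ (h ▸ ha'.1)
      have hau : a ≠ u := fun h => huJ (h ▸ ha'.1)
      have hbJ : b ∉ J := fun h => hb' (Finset.mem_inter.mpr ⟨h, hb⟩)
      have e1 : h' a = h a - (h v - h u - c) := by simp only [hh', if_pos ha'.2]
      by_cases hbv : b = v
      · subst hbv
        refine ⟨a, ha'.1, u, Finset.mem_erase.mpr ⟨hne, hu⟩, huJ, ?_⟩
        unfold Fl at *
        rw [e1, h'u]
        have := TL.to_Tv hab hav hau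
        convert this using 1; ring
      · refine ⟨a, ha'.1, b, Finset.mem_erase.mpr ⟨hbv, hun ▸ Finset.mem_union_right _ hb⟩, hbJ, ?_⟩
        have e2 : h' b = h b - (h v - h u - c) := by simp only [hh', if_pos hb]
        unfold Fl at *
        rw [e1, e2]
        have := TL.to_T hab hav hbv
        convert this using 1; ring
  have hdev := hL.dev (S.erase v) subset_rfl h' hconn
  have hdev' : ∀ a b x, T' a b x → |x - (h' b - h' a)| ≤ 1 := by
    intro a b x hx
    have := hL.sub _ _ _ hx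
    exact hdev a this.1 b this.2.1 x hx
  change |x - (h' b - h' a)| ≤ 1
  rcases hab with ⟨h1, h2, h3, h4⟩ | ⟨h1, h2, h3, h4, h5⟩ | ⟨h1, h2, h3, h4, h5⟩ | ⟨h1, h2, h3⟩ | ⟨h1, h2, h3⟩
  · exact hdev' _ _ _ h3
  · have := hdev' _ _ _ h4
    rw [h1, h'v]
    rw [h'u] at this
    convert this using 2; ring
  · have := hdev' _ _ _ h4
    rw [h1, h'v]
    rw [h'u] at this
    convert this using 2; ring
  · rw [h1, h2, h3, h'u, h'v]; simp
  · rw [h1, h2, h3, h'u, h'v]; simp

/-- steps (4), (5) -/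
theorem step45 {E : V → V → ℤ → Prop} (hE : SGr E) {S : Finset V} {u v : V} {c : ℤ} (hu : u ∈ S) (hv : v ∈ S)
    (huv : E u v c) (honly : ∀ x, E u v x → Even (x - c))
    (hcuv : Conn (Adj E) ((S.erase u).erase v)) {T' : V → V → ℤ → Prop}
    (hL : Lift (Ctr E u v c) (S.erase v) T') (h : V → ℤ) (k : ℤ) (hk : h v = h u + c + k) (hk1 : |k| = 1)
    {P0 Q0 : Finset V} (hP0 : P0 ⊆ (S.erase u).erase v) (hQ0 : Q0 ⊆ (S.erase u).erase v) (hdis : Disjoint P0 Q0)
    (hPc : Conn (Fl (TL E T' u v c) h) P0) (hq : V → ℤ) (hQc : Conn (Fl (TL E T' u v c) hq) Q0)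
    {p1 p2 q1 q2 : V} (hp1 : p1 ∈ P0) (hp2 : p2 ∈ P0) (hq1 : q1 ∈ Q0) (hq2 : q2 ∈ Q0)
    (ep1 : TL E T' u v c u p1 (h p1 - h u)) (ep2 : TL E T' u v c p2 v (h v - h p2))
    (eq1 : TL E T' u v c u q1 (hq q1 - h u)) (eq2 : TL E T' u v c q2 v (h v - 2 * k - hq q2)) : OddK4 E S := by
  have hne : u ≠ v := hE.irr _ _ _ huv
  have hsub := TL.sub hE hu hv huv hL
  have hsymm := TL.symm hE hL
  set M := (S.erase u).erase v with hM
  have hMu : ∀ t ∈ M, t ≠ u := fun t ht => (Finset.mem_erase.mp (Finset.mem_of_mem_erase ht)).1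
  have hMv : ∀ t ∈ M, t ≠ v := fun t ht => (Finset.mem_erase.mp ht).1
  have hMS : ∀ t ∈ M, t ∈ S := fun t ht => Finset.mem_of_mem_erase (Finset.mem_of_mem_erase ht)
  have hMT : Conn (Adj (TL E T' u v c)) M := by
    refine hcuv.mono fun a ha b hb hab => ?_
    obtain ⟨x, hx⟩ := hab
    obtain ⟨y, hy, _⟩ := TL.ex hE hu hv huv honly hL a (hMS a ha) b (hMS b hb) x hx
    exact ⟨y, hy⟩
  set h0 : V → ℤ := fun t => if t ∈ Q0 then hq t else h t with hh0
  have h0P : ∀ t ∈ P0, h0 t = h t := fun t ht => by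
    simp only [hh0, if_neg (fun h => Finset.disjoint_left.mp hdis ht h)]
  have h0Q : ∀ t ∈ Q0, h0 t = hq t := fun t ht => by simp only [hh0, if_pos ht]
  have hPc0 : Conn (Fl (TL E T' u v c) h0) P0 := by
    refine hPc.mono fun a ha b hb hab => ?_
    unfold Fl at *; rw [h0P a ha, h0P b hb]; exact hab
  have hQc0 : Conn (Fl (TL E T' u v c) h0) Q0 := by
    refine hQc.mono fun a ha b hb hab => ?_
    unfold Fl at *; rw [h0Q a ha, h0Q b hb]; exact hab
  obtain ⟨P, Q, g, hPP, hQQ, hPQ, hun, gP, gQ, hPconn, hQconn⟩ :=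
    exists_flat_part hsymm hP0 hQ0 hdis hMT h0 hPc0 hQc0
  have hPM : P ⊆ M := hun ▸ Finset.subset_union_left
  have hQM : Q ⊆ M := hun ▸ Finset.subset_union_right
  have gP' : ∀ t ∈ P0, g t = h t := fun t ht => by rw [gP t ht, h0P t ht]
  have gQ' : ∀ t ∈ Q0, g t = hq t := fun t ht => by rw [gQ t ht, h0Q t ht]
  -- an edge between P and Q
  obtain ⟨r, hr, s, hs, hs', x1, hx1⟩ := hMT.2 P hPM hPconn.1 (by
    intro h
    obtain ⟨t, ht⟩ := hQconn.1
    have : t ∈ P := h ▸ hQM ht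
    exact Finset.disjoint_left.mp hPQ this ht)
  have hsQ : s ∈ Q := by
    have : s ∈ P ∪ Q := hun ▸ hs
    rcases Finset.mem_union.mp this with h | h
    · exact absurd h hs'
    · exact h
  have hrs : T' r s x1 := TL.to_T hx1 (hMv r (hPM hr)) (hMv s hs)
  have hp1P := hPP hp1
  have hp2P := hPP hp2
  have hq1Q := hQQ hq1
  have hq2Q := hQQ hq2
  have hSv : S.erase v = insert u (P ∪ Q) := by
    rw [hun]
    ext t
    simp only [Finset.mem_insert, Finset.mem_erase, hM]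
    constructor
    · rintro ⟨h1, h2⟩
      by_cases htu : t = u
      · exact Or.inl htu
      · exact Or.inr ⟨h1, htu, h2⟩
    · rintro (h1 | ⟨h1, h2, h3⟩)
      · subst h1; exact ⟨hne, hu⟩
      · exact ⟨h1, h3⟩
  have huP : u ∉ P := fun h => hMu u (hPM h) rfl
  have huQ : u ∉ Q := fun h => hMu u (hQM h) rfl
  have hvP : v ∉ P := fun h => hMv v (hPM h) rfl
  have hvQ : v ∉ Q := fun h => hMv v (hQM h) rfl
  -- general connectivity with shifts
  have hgen : ∀ (α β : ℤ) (p q : V), p ∈ P → q ∈ Q → T' p u (h u - (g p + α)) → T' q u (h u - (g q + β)) →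
      |x1 - ((g s + β) - (g r + α))| ≤ 1 := by
    intro α β p q hp hq' hpu hqu
    set H : V → ℤ := fun t => if t ∈ P then g t + α else if t ∈ Q then g t + β else h t with hH
    have HP : ∀ t ∈ P, H t = g t + α := fun t ht => by simp only [hH, if_pos ht]
    have HQ : ∀ t ∈ Q, H t = g t + β := fun t ht => by
      simp only [hH, if_pos ht, if_neg (fun h => Finset.disjoint_left.mp hPQ h ht)]
    have Hu : H u = h u := by simp only [hH, if_neg huP, if_neg huQ]
    have c1 : Conn (Fl T' H) P := by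
      refine hPconn.mono fun a ha b hb hab => ?_
      unfold Fl at *; rw [HP a ha, HP b hb]
      have := TL.to_T hab (hMv a (hPM ha)) (hMv b (hPM hb))
      convert this using 1; ring
    have c2 : Conn (Fl T' H) Q := by
      refine hQconn.mono fun a ha b hb hab => ?_
      unfold Fl at *; rw [HQ a ha, HQ b hb]
      have := TL.to_T hab (hMv a (hQM ha)) (hMv b (hQM hb))
      convert this using 1; ring
    have sy : ∀ a b, Fl T' H a b → Fl T' H b a := fun _ _ h => Fl.symm hL.symm h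
    have c3 : Conn (Fl T' H) (insert u P) := Conn.insert sy c1 (a := p) hp (by
      unfold Fl; rw [HP p hp, Hu]; exact hpu)
    have c4 : Conn (Fl T' H) (insert u P ∪ Q) := Conn.union sy c3 c2 ⟨u, Finset.mem_insert_self _ _, q, hq', by
      apply sy; unfold Fl; rw [HQ q hq', Hu]; exact hqu⟩
    have c5 : Conn (Fl T' H) (S.erase v) := by
      rw [hSv, ← Finset.insert_union]; exact c4
    have := hL.dev (S.erase v) subset_rfl H c5 r (by rw [hSv]; exact Finset.mem_insert_of_mem (Finset.mem_union_left _ hr))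
      s (by rw [hSv]; exact Finset.mem_insert_of_mem (Finset.mem_union_right _ hsQ)) x1 hrs
    rwa [HP r hr, HQ s hsQ] at this
  have hd1 : |x1 - ((g s + 0) - (g r + 0))| ≤ 1 := by
    refine hgen 0 0 p1 q1 hp1P hq1Q ?_ ?_
    · have := hL.symm _ _ _ (TL.to_T ep1 hne (hMv p1 (hPM hp1P)))
      rw [gP' p1 hp1]; convert this using 1; ring
    · have := hL.symm _ _ _ (TL.to_T eq1 hne (hMv q1 (hQM hq1Q)))
      rw [gQ' q1 hq1]; convert this using 1; ring
  have hd2 : |x1 - ((g s + k) - (g r + (-k)))| ≤ 1 := by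
    refine hgen (-k) k p2 q2 hp2P hq2Q ?_ ?_
    · have := TL.to_Tv ep2 (hMv p2 (hPM hp2P)) (hMu p2 (hPM hp2P))
      rw [gP' p2 hp2]; convert this using 1; rw [hk]; ring
    · have := TL.to_Tv eq2 (hMv q2 (hQM hq2Q)) (hMu q2 (hQM hq2Q))
      rw [gQ' q2 hq2]; convert this using 1; rw [hk]; ring
  have hkk : k = 1 ∨ k = -1 := by
    rcases abs_eq (by norm_num : (0 : ℤ) ≤ 1) |>.mp hk1 with h | h
    · exact Or.inl h
    · exact Or.inr h
  have hd : x1 = g s - g r + k := by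
    rw [abs_le] at hd1 hd2
    rcases hkk with h | h <;> subst h <;> omega
  -- odd K4
  set H0 : V → ℤ := fun t => if t = u then h u else if t = v then h v else g t + 1 with hH0
  have H0u : H0 u = h u := by simp only [hH0, if_true]
  have H0v : H0 v = h v := by simp only [hH0, if_neg (Ne.symm hne), if_true]
  have H0M : ∀ t ∈ M, H0 t = g t + 1 := fun t ht => by
    simp only [hH0, if_neg (hMu t ht), if_neg (hMv t ht)]
  have EuV : E u v (H0 v - H0 u + 1) := by
    refine hE.evn huv ?_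
    rw [H0u, H0v, hk]
    rcases hkk with h | h <;> subst h
    · exact ⟨1, by ring⟩
    · exact ⟨0, by ring⟩
  have EuP : E u p1 (H0 p1 - H0 u + 1) := by
    refine hE.evn (hsub _ _ _ ep1).2.2 ?_
    rw [H0u, H0M p1 (hPM hp1P), gP' p1 hp1]
    exact ⟨1, by ring⟩
  have EuQ : E u q1 (H0 q1 - H0 u + 1) := by
    refine hE.evn (hsub _ _ _ eq1).2.2 ?_
    rw [H0u, H0M q1 (hQM hq1Q), gQ' q1 hq1]
    exact ⟨1, by ring⟩
  have EPv : E p2 v (H0 v - H0 p2 + 1) := by
    refine hE.evn (hsub _ _ _ ep2).2.2 ?_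
    rw [H0v, H0M p2 (hPM hp2P), gP' p2 hp2]
    exact ⟨0, by ring⟩
  have EQv : E q2 v (H0 v - H0 q2 + 1) := by
    refine hE.evn (hsub _ _ _ eq2).2.2 ?_
    rw [H0v, H0M q2 (hQM hq2Q), gQ' q2 hq2]
    exact ⟨k, by ring⟩
  have EPQ : E r s (H0 s - H0 r + 1) := by
    refine hE.evn (hsub _ _ _ hx1).2.2 ?_
    rw [H0M r (hPM hr), H0M s hs, hd]
    rcases hkk with h | h <;> subst h
    · exact ⟨0, by ring⟩
    · exact ⟨1, by ring⟩
  have rev : ∀ a b, E a b (H0 b - H0 a + 1) → E b a (H0 a - H0 b + 1) := by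
    intro a b hab
    refine hE.evn (hE.symm _ _ _ hab) ⟨1, by ring⟩
  refine ⟨![{u}, {v}, P, Q], H0, ?_, ?_, ?_, ?_⟩
  · intro i
    fin_cases i
    · exact Finset.singleton_subset_iff.mpr hu
    · exact Finset.singleton_subset_iff.mpr hv
    · exact fun t ht => hMS t (hPM ht)
    · exact fun t ht => hMS t (hQM ht)
  · have d01 : Disjoint ({u} : Finset V) {v} := by simpa using hne
    have d02 : Disjoint ({u} : Finset V) P := by simpa using huP
    have d03 : Disjoint ({u} : Finset V) Q := by simpa using huQ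
    have d12 : Disjoint ({v} : Finset V) P := by simpa using hvP
    have d13 : Disjoint ({v} : Finset V) Q := by simpa using hvQ
    intro i j hij
    fin_cases i <;> fin_cases j
    · exact absurd rfl hij
    · exact d01
    · exact d02
    · exact d03
    · exact d01.symm
    · exact absurd rfl hij
    · exact d12
    · exact d13
    · exact d02.symm
    · exact d12.symm
    · exact absurd rfl hij
    · exact hPQ
    · exact d03.symm
    · exact d13.symm
    · exact hPQ.symm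
    · exact absurd rfl hij
  · intro i
    fin_cases i
    · exact Conn.single _ _
    · exact Conn.single _ _
    · refine hPconn.mono fun a ha b hb hab => ?_
      have := (hsub _ _ _ hab).2.2
      unfold Fl; rw [H0M a (hPM ha), H0M b (hPM hb)]; convert this using 1; ring
    · refine hQconn.mono fun a ha b hb hab => ?_
      have := (hsub _ _ _ hab).2.2
      unfold Fl; rw [H0M a (hQM ha), H0M b (hQM hb)]; convert this using 1; ring
  · have mu : u ∈ ({u} : Finset V) := Finset.mem_singleton_self _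
    have mv : v ∈ ({v} : Finset V) := Finset.mem_singleton_self _
    intro i j hij
    fin_cases i <;> fin_cases j
    · exact absurd rfl hij
    · exact ⟨u, mu, v, mv, EuV⟩
    · exact ⟨u, mu, p1, hp1P, EuP⟩
    · exact ⟨u, mu, q1, hq1Q, EuQ⟩
    · exact ⟨v, mv, u, mu, rev _ _ EuV⟩
    · exact absurd rfl hij
    · exact ⟨v, mv, p2, hp2P, rev _ _ EPv⟩
    · exact ⟨v, mv, q2, hq2Q, rev _ _ EQv⟩
    · exact ⟨p1, hp1P, u, mu, rev _ _ EuP⟩
    · exact ⟨p2, hp2P, v, mv, EPv⟩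
    · exact absurd rfl hij
    · exact ⟨r, hr, s, hsQ, EPQ⟩
    · exact ⟨q1, hq1Q, u, mu, rev _ _ EuQ⟩
    · exact ⟨q2, hq2Q, v, mv, EQv⟩
    · exact ⟨s, hsQ, r, hr, rev _ _ EPQ⟩
    · exact absurd rfl hij

/-- steps (2), (3) for an oriented bad edge -/
theorem step23 {E : V → V → ℤ → Prop} (hE : SGr E) {S : Finset V} {u v : V} {c : ℤ} (hu : u ∈ S) (hv : v ∈ S)
    (huv : E u v c) (honly : ∀ x, E u v x → Even (x - c))
    (hcuv : Conn (Adj E) ((S.erase u).erase v)) {T' : V → V → ℤ → Prop}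
    (hL : Lift (Ctr E u v c) (S.erase v) T') (h : V → ℤ) (k : ℤ) (hk : h v = h u + c + k) (hk1 : |k| = 1)
    (hS : Conn (Fl (TL E T' u v c) h) S) {Ru Rv : Finset V}
    (hRv : Rv ⊆ S.erase u) (hvR : v ∈ Rv) (hRvc : Conn (Fl (TL E T' u v c) h) Rv)
    (hRvcl : ∀ a ∈ Rv, ∀ b ∈ S.erase u, Fl (TL E T' u v c) h a b → b ∈ Rv)
    (hRu : Ru ⊆ S.erase v) (huR : u ∈ Ru) (hRuc : Conn (Fl (TL E T' u v c) h) Ru)
    (hRucl : ∀ a ∈ Ru, ∀ b ∈ S.erase v, Fl (TL E T' u v c) h a b → b ∈ Ru)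
    (a0 b0 : V) (ha0 : a0 ∈ S) (hb0 : b0 ∈ S) (ha0R : a0 ∉ Rv) (hb0R : b0 ∉ Ru) (x0 : ℤ)
    (hx0 : x0 = h b0 - h a0 - 2 * k) (hab0 : TL E T' u v c a0 b0 x0) : OddK4 E S := by
  have hne : u ≠ v := hE.irr _ _ _ huv
  have hsub := TL.sub hE hu hv huv hL
  have hsymm := TL.symm hE hL
  have hFs : ∀ a b, Fl (TL E T' u v c) h a b → Fl (TL E T' u v c) h b a := fun _ _ h => Fl.symm hsymm h
  have hk0 : k ≠ 0 := by rintro rfl; simp at hk1
  set F := Fl (TL E T' u v c) h with hF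
  set M := (S.erase u).erase v with hM
  have hMu : ∀ t ∈ M, t ≠ u := fun t ht => (Finset.mem_erase.mp (Finset.mem_of_mem_erase ht)).1
  have hMv : ∀ t ∈ M, t ≠ v := fun t ht => (Finset.mem_erase.mp ht).1
  have hMS : ∀ t ∈ M, t ∈ S := fun t ht => Finset.mem_of_mem_erase (Finset.mem_of_mem_erase ht)
  have hMmk : ∀ t ∈ S, t ≠ u → t ≠ v → t ∈ M := fun t ht h1 h2 =>
    Finset.mem_erase.mpr ⟨h2, Finset.mem_erase.mpr ⟨h1, ht⟩⟩
  have hMSu : M ⊆ S.erase u := Finset.erase_subset _ _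
  have hMSv : M ⊆ S.erase v := fun t ht => Finset.mem_erase.mpr ⟨hMv t ht, hMS t ht⟩
  have huRv : u ∉ Rv := fun h => (Finset.mem_erase.mp (hRv h)).1 rfl
  have hvRu : v ∉ Ru := fun h => (Finset.mem_erase.mp (hRu h)).1 rfl
  -- no flat uv edge
  have hnuv : ¬ F u v := by
    intro hh
    have := TL.uv hne hh
    apply hk0; linarith
  have hnvu : ¬ F v u := fun h => hnuv (hFs _ _ h)
  have ha0v : a0 ≠ v := fun h => ha0R (h ▸ hvR)
  have hb0u : b0 ≠ u := fun h => hb0R (h ▸ huR)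
  -- P0
  obtain ⟨w, hw, p1, hp1R, hp1n, hwp⟩ := hS.2 (S \ Rv) Finset.sdiff_subset ⟨u, Finset.mem_sdiff.mpr ⟨hu, huRv⟩⟩
    (fun h => by
      have : v ∈ S \ Rv := by rw [h]; exact hv
      exact (Finset.mem_sdiff.mp this).2 hvR)
  have hp1Rv : p1 ∈ Rv := by
    by_contra h; exact hp1n (Finset.mem_sdiff.mpr ⟨hp1R, h⟩)
  have hwu : w = u := by
    by_contra h
    have hw' := Finset.mem_sdiff.mp hw
    exact hw'.2 (hRvcl p1 hp1Rv w (Finset.mem_erase.mpr ⟨h, hw'.1⟩) (hFs _ _ hwp))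
  subst hwu
  have hp1v : p1 ≠ v := fun h => hnuv (h ▸ hwp)
  have hp1u : p1 ≠ w := fun h => huRv (h ▸ hp1Rv)
  obtain ⟨P0, hP0M, hp1P0, hP0c, hP0cl⟩ := comp_exists hFs M (hMmk p1 hp1R hp1u hp1v)
  have hp2 : ∃ p2 ∈ P0, F p2 v := by
    by_contra hno
    have hcl : ∀ a ∈ P0, ∀ b ∈ S.erase w, F a b → b ∈ P0 := by
      intro a ha b hb hab
      by_cases hbv : b = v
      · subst hbv; exact absurd ⟨a, ha, hab⟩ hno
      · exact hP0cl a ha b (Finset.mem_erase.mpr ⟨hbv, hb⟩) hab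
    have := closed_absorb hcl hRv hRvc hp1P0 hp1Rv
    exact hMv v (hP0M (this hvR)) rfl
  obtain ⟨p2, hp2P0, hp2v⟩ := hp2
  -- components of a0 and b0
  have hKa : a0 ≠ w → ∃ Ka : Finset V, Ka ⊆ M ∧ a0 ∈ Ka ∧ Conn F Ka ∧ (∀ a ∈ Ka, ∀ b ∈ M, F a b → b ∈ Ka) ∧
      (∀ t ∈ Ka, ¬ F t v) ∧ ∃ q1 ∈ Ka, F w q1 := by
    intro ha0u
    obtain ⟨Ka, h1, h2, h3, h4⟩ := comp_exists hFs M (hMmk a0 ha0 ha0u ha0v)
    have h5 : ∀ t ∈ Ka, ¬ F t v := by
      intro t ht htv
      have htR : t ∈ Rv := hRvcl v hvR t (hMSu (h1 ht)) (hFs _ _ htv)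
      exact ha0R (closed_absorb hRvcl (h1.trans hMSu) h3 htR ht h2)
    refine ⟨Ka, h1, h2, h3, h4, h5, ?_⟩
    obtain ⟨a, ha, b, hb, hb', hab⟩ := hS.2 Ka (fun t ht => hMS t (h1 ht)) ⟨a0, h2⟩ (fun h => by
      have : v ∈ Ka := by rw [h]; exact hv
      exact hMv v (h1 this) rfl)
    have hbv : b ≠ v := fun h => h5 a ha (h ▸ hab)
    have hbu : b = w := by
      by_contra hbu
      exact hb' (h4 a ha b (hMmk b hb hbu hbv) hab)
    subst hbu
    exact ⟨a, ha, hFs _ _ hab⟩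
  have hKb : b0 ≠ v → ∃ Kb : Finset V, Kb ⊆ M ∧ b0 ∈ Kb ∧ Conn F Kb ∧ (∀ a ∈ Kb, ∀ b ∈ M, F a b → b ∈ Kb) ∧
      (∀ t ∈ Kb, ¬ F t w) ∧ ∃ q2 ∈ Kb, F q2 v := by
    intro hb0v
    obtain ⟨Kb, h1, h2, h3, h4⟩ := comp_exists hFs M (hMmk b0 hb0 hb0u hb0v)
    have h5 : ∀ t ∈ Kb, ¬ F t w := by
      intro t ht htv
      have htR : t ∈ Ru := hRucl w huR t (hMSv (h1 ht)) (hFs _ _ htv)
      exact hb0R (closed_absorb hRucl (h1.trans hMSv) h3 htR ht h2)
    refine ⟨Kb, h1, h2, h3, h4, h5, ?_⟩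
    obtain ⟨a, ha, b, hb, hb', hab⟩ := hS.2 Kb (fun t ht => hMS t (h1 ht)) ⟨b0, h2⟩ (fun h => by
      have : v ∈ Kb := by rw [h]; exact hv
      exact hMv v (h1 this) rfl)
    have hbu : b ≠ w := fun h => h5 a ha (h ▸ hab)
    have hbv : b = v := by
      by_contra hbv
      exact hb' (h4 a ha b (hMmk b hb hbu hbv) hab)
    subst hbv
    exact ⟨a, ha, hab⟩
  have hdisa : ∀ Ka : Finset V, (∀ a ∈ Ka, ∀ b ∈ M, F a b → b ∈ Ka) → (∀ t ∈ Ka, ¬ F t v) → Disjoint P0 Ka := by
    intro Ka hcl hno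
    rw [Finset.disjoint_left]
    intro t ht ht'
    exact hno p2 (closed_absorb hcl hP0M hP0c ht' ht hp2P0) hp2v
  have hdisb : ∀ Kb : Finset V, (∀ a ∈ Kb, ∀ b ∈ M, F a b → b ∈ Kb) → (∀ t ∈ Kb, ¬ F t w) → Disjoint P0 Kb := by
    intro Kb hcl hno
    rw [Finset.disjoint_left]
    intro t ht ht'
    exact hno p1 (closed_absorb hcl hP0M hP0c ht' ht hp1P0) (hFs _ _ hwp)
  by_cases ha0u : a0 = w
  · by_cases hb0v : b0 = v
    · exfalso
      subst ha0u hb0v
      have := TL.uv hne hab0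
      apply hk0; omega
    · subst ha0u
      obtain ⟨Kb, h1, h2, h3, h4, h5, q2, hq2, hq2v⟩ := hKb hb0v
      refine step45 hE hu hv huv honly hcuv hL h k hk hk1 hP0M h1 (hdisb Kb h4 h5) hP0c
        (fun t => h t + (-(2 * k))) (h3.mono fun a _ b _ hab => Fl.shift hab) hp1P0 hp2P0 h2 hq2 hwp hp2v ?_ ?_
      · convert hab0 using 1; rw [hx0]; ring
      · have : TL E T' a0 v c q2 v (h v - h q2) := hq2v
        convert this using 1; ring
  · by_cases hb0v : b0 = v
    · subst hb0v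
      obtain ⟨Ka, h1, h2, h3, h4, h5, q1, hq1, hq1u⟩ := hKa ha0u
      refine step45 hE hu hv huv honly hcuv hL h k hk hk1 hP0M h1 (hdisa Ka h4 h5) hP0c
        h h3 hp1P0 hp2P0 hq1 h2 hwp hp2v hq1u ?_
      convert hab0 using 1; rw [hx0]; ring
    · obtain ⟨Ka, h1, h2, h3, h4, h5, q1, hq1, hq1u⟩ := hKa ha0u
      obtain ⟨Kb, g1, g2, g3, g4, g5, q2, hq2, hq2v⟩ := hKb hb0v
      have hdab : Disjoint Ka Kb := by
        rw [Finset.disjoint_left]
        intro t ht ht'
        exact h5 q2 (closed_absorb h4 g1 g3 ht ht' hq2) hq2v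
      set hq : V → ℤ := fun t => if t ∈ Kb then h t - 2 * k else h t with hhq
      have hqa : ∀ t ∈ Ka, hq t = h t := fun t ht => by
        simp only [hhq, if_neg (fun h => Finset.disjoint_left.mp hdab ht h)]
      have hqb : ∀ t ∈ Kb, hq t = h t - 2 * k := fun t ht => by simp only [hhq, if_pos ht]
      have cA : Conn (Fl (TL E T' w v c) hq) Ka := by
        refine h3.mono fun a ha b hb hab => ?_
        unfold Fl; rw [hqa a ha, hqa b hb]; exact hab
      have cB : Conn (Fl (TL E T' w v c) hq) Kb := by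
        refine g3.mono fun a ha b hb hab => ?_
        have hab' : TL E T' w v c a b (h b - h a) := hab
        unfold Fl; rw [hqb a ha, hqb b hb]; convert hab' using 1; ring
      have cU : Conn (Fl (TL E T' w v c) hq) (Ka ∪ Kb) :=
        Conn.union (fun _ _ h => Fl.symm hsymm h) cA cB ⟨a0, h2, b0, g2, by
          unfold Fl; rw [hqa a0 h2, hqb b0 g2]; convert hab0 using 1; rw [hx0]; ring⟩
      refine step45 hE hu hv huv honly hcuv hL h k hk hk1 hP0M (Finset.union_subset h1 g1) ?_ hP0c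
        hq cU hp1P0 hp2P0 (Finset.mem_union_left _ hq1) (Finset.mem_union_right _ hq2) hwp hp2v ?_ ?_
      · rw [Finset.disjoint_union_right]; exact ⟨hdisa Ka h4 h5, hdisb Kb g4 g5⟩
      · rw [hqa q1 hq1]; exact hq1u
      · rw [hqb q2 hq2]
        have : TL E T' w v c q2 v (h v - h q2) := hq2v
        convert this using 1; ring

/-- lift of the contraction gives a lift of the graph (or an odd K4) -/
theorem stepK (E : V → V → ℤ → Prop) (hE : SGr E) (S : Finset V) (u v : V) (c : ℤ) (hu : u ∈ S) (hv : v ∈ S)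
    (huv : E u v c) (honly : ∀ x, E u v x → Even (x - c)) (hcS : Conn (Adj E) S)
    (hcuv : Conn (Adj E) ((S.erase u).erase v)) (T' : V → V → ℤ → Prop)
    (hL : Lift (Ctr E u v c) (S.erase v) T') (hK : ¬ OddK4 E S) : ∃ T, Lift E S T := by
  have hne : u ≠ v := hE.irr _ _ _ huv
  have hsub := TL.sub hE hu hv huv hL
  have hsymm := TL.symm hE hL
  refine ⟨TL E T' u v c, hsymm, hsub, TL.ex hE hu hv huv honly hL, ?_⟩
  intro X hX h' hconnX a0 ha0 b0 hb0 x0 hab0
  have hcT : Conn (Adj (TL E T' u v c)) S := by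
    refine hcS.mono fun a ha b hb hab => ?_
    obtain ⟨x, hx⟩ := hab
    obtain ⟨y, hy, _⟩ := TL.ex hE hu hv huv honly hL a ha b hb x hx
    exact ⟨y, hy⟩
  obtain ⟨h, hh, hS⟩ := exists_flat_ext hsymm hX hcT h' hconnX
  rw [← hh a0 ha0, ← hh b0 hb0]
  replace ha0 := hX ha0
  replace hb0 := hX hb0
  clear hconnX hh h' hX
  have hFs : ∀ a b, Fl (TL E T' u v c) h a b → Fl (TL E T' u v c) h b a := fun _ _ h => Fl.symm hsymm h
  by_contra hbad
  obtain ⟨k, hk⟩ : ∃ k, h v = h u + c + k := ⟨h v - h u - c, by ring⟩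
  obtain ⟨Rv, hRv, hvR, hRvc, hRvcl⟩ := comp_exists hFs (S.erase u) (Finset.mem_erase.mpr ⟨Ne.symm hne, hv⟩)
  obtain ⟨Ru, hRu, huR, hRuc, hRucl⟩ := comp_exists hFs (S.erase v) (Finset.mem_erase.mpr ⟨hne, hu⟩)
  have huRv : u ∉ Rv := fun h => (Finset.mem_erase.mp (hRv h)).1 rfl
  have hvRu : v ∉ Ru := fun h => (Finset.mem_erase.mp (hRu h)).1 rfl
  have hRvS : Rv ⊆ S := hRv.trans (Finset.erase_subset _ _)
  have hRuS : Ru ⊆ S := hRu.trans (Finset.erase_subset _ _)
  have c1 := compl_conn hFs hS hu hRv hRvcl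
  have c2 := compl_conn hFs hS hv hRu hRucl
  have kk : h v - h u - c = k := by rw [hk]; ring
  have K1 := key1 hne hu hL h (Xu := S \ Rv) (Xv := Rv) (Finset.sdiff_union_of_subset hRvS)
    Finset.sdiff_disjoint (Finset.mem_sdiff.mpr ⟨hu, huRv⟩) hvR c1 hRvc
  have K2 := key1 hne hu hL h (Xu := Ru) (Xv := S \ Ru) (Finset.union_sdiff_of_subset hRuS)
    Finset.disjoint_sdiff huR (Finset.mem_sdiff.mpr ⟨hv, hvRu⟩) hRuc c2
  rw [kk] at K1 K2
  -- k ≠ 0
  have hk0 : k ≠ 0 := by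
    intro h0
    apply hbad
    have := K1 a0 b0 x0 hab0
    simpa [h0] using this
  -- crossing edge
  obtain ⟨w, hw, p, hp, hp', hwp⟩ := hS.2 (S \ Rv) Finset.sdiff_subset ⟨u, Finset.mem_sdiff.mpr ⟨hu, huRv⟩⟩
    (fun h => by
      have : v ∈ S \ Rv := by rw [h]; exact hv
      exact (Finset.mem_sdiff.mp this).2 hvR)
  have hpRv : p ∈ Rv := by
    by_contra h; exact hp' (Finset.mem_sdiff.mpr ⟨hp, h⟩)
  have hwRv := (Finset.mem_sdiff.mp hw).2
  have hk1 : |k| = 1 := by
    have := K1 w p _ hwp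
    rw [if_pos hpRv, if_neg hwRv] at this
    rw [abs_le] at this
    have h1 : k = 1 ∨ k = -1 := by omega
    rcases h1 with h1 | h1 <;> rw [h1] <;> simp
  have hkk : k = 1 ∨ k = -1 := by
    rcases abs_eq (by norm_num : (0 : ℤ) ≤ 1) |>.mp hk1 with h | h
    · exact Or.inl h
    · exact Or.inr h
  have hbad' : ¬ (-1 ≤ x0 - (h b0 - h a0) ∧ x0 - (h b0 - h a0) ≤ 1) := by rwa [← abs_le]
  have L1 := K1 a0 b0 x0 hab0
  have L2 := K2 a0 b0 x0 hab0
  rw [abs_le] at L1 L2
  have ma : a0 ∈ S \ Ru ↔ a0 ∉ Ru := by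
    rw [Finset.mem_sdiff]; exact ⟨fun h => h.2, fun h => ⟨ha0, h⟩⟩
  have mb : b0 ∈ S \ Ru ↔ b0 ∉ Ru := by
    rw [Finset.mem_sdiff]; exact ⟨fun h => h.2, fun h => ⟨hb0, h⟩⟩
  simp only [ma, mb] at L2
  have main : (a0 ∉ Rv ∧ b0 ∉ Ru ∧ x0 = h b0 - h a0 - 2 * k) ∨
      (b0 ∉ Rv ∧ a0 ∉ Ru ∧ x0 = h b0 - h a0 + 2 * k) := by
    by_cases e1 : a0 ∈ Rv <;> by_cases e2 : b0 ∈ Rv <;> by_cases e3 : a0 ∈ Ru <;> by_cases e4 : b0 ∈ Ru <;>
      simp only [e1, e2, e3, e4, if_true, if_false, not_true, not_false_iff] at L1 L2 ⊢ <;>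
      rcases hkk with e5 | e5 <;> subst e5 <;> simp <;> omega
  rcases main with ⟨e1, e2, e3⟩ | ⟨e1, e2, e3⟩
  · exact hK (step23 hE hu hv huv honly hcuv hL h k hk hk1 hS hRv hvR hRvc hRvcl hRu huR hRuc hRucl
      a0 b0 ha0 hb0 e1 e2 x0 e3 hab0)
  · exact hK (step23 hE hu hv huv honly hcuv hL h k hk hk1 hS hRv hvR hRvc hRvcl hRu huR hRuc hRucl
      b0 a0 hb0 ha0 e1 e2 (-x0) (by rw [e3]; ring) (hsymm _ _ _ hab0))

end SgK4


/-! ### stepD -/

namespace SgK4
variable {V : Type}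
/-! dependency (proved elsewhere, may be used) -/



/-! TARGET -/

theorem stepD_delSGr {E : V → V → ℤ → Prop} (hE : SGr E) (u v : V) (c : ℤ) : SGr (Del E u v c) := by
  refine ⟨fun a b x h => ?_, fun a b x h => ?_, fun a b x h => hE.irr _ _ _ h.1⟩
  · refine ⟨hE.symm _ _ _ h.1, fun h' => h.2.2 ⟨h'.2.1, h'.1, ?_⟩, fun h' => h.2.1 ⟨h'.2.1, h'.1, ?_⟩⟩
    · obtain ⟨k, hk⟩ := h'.2.2; exact ⟨-k, by linarith⟩
    · obtain ⟨k, hk⟩ := h'.2.2; exact ⟨-k, by linarith⟩
  · refine ⟨hE.par _ _ _ h.1, fun h' => h.2.1 ⟨h'.1, h'.2.1, ?_⟩, fun h' => h.2.2 ⟨h'.1, h'.2.1, ?_⟩⟩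
    · obtain ⟨k, hk⟩ := h'.2.2; exact ⟨k - 1, by linarith⟩
    · obtain ⟨k, hk⟩ := h'.2.2; exact ⟨k - 1, by linarith⟩

/-- restriction of a relation off the pair `u v` -/
def stepD_Off (T : V → V → ℤ → Prop) (u v : V) : V → V → ℤ → Prop := fun a b x =>
  T a b x ∧ ¬ (a = u ∧ b = v) ∧ ¬ (a = v ∧ b = u)

theorem stepD_off_lift {E T : V → V → ℤ → Prop} {S : Finset V} {u v : V} {E' : V → V → ℤ → Prop}
    (h1 : ∀ a b x, E' a b x → E a b x ∧ ¬ (a = u ∧ b = v) ∧ ¬ (a = v ∧ b = u))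
    (h2 : ∀ a b x, E a b x → ¬ (a = u ∧ b = v) → ¬ (a = v ∧ b = u) → E' a b x)
    (L : Lift E S T) : Lift E' S (stepD_Off T u v) := by
  refine ⟨fun a b x h => ?_, fun a b x h => ?_, fun a ha b hb x h => ?_, fun X hX h hc a ha b hb x hx => ?_⟩
  · exact ⟨L.symm _ _ _ h.1, fun h' => h.2.2 ⟨h'.2, h'.1⟩, fun h' => h.2.1 ⟨h'.2, h'.1⟩⟩
  · obtain ⟨p1, p2, p3⟩ := L.sub _ _ _ h.1
    exact ⟨p1, p2, h2 _ _ _ p3 h.2.1 h.2.2⟩
  · obtain ⟨p1, p2, p3⟩ := h1 _ _ _ h
    obtain ⟨y, hy, hy2⟩ := L.ex a ha b hb x p1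
    exact ⟨y, ⟨hy, p2, p3⟩, hy2⟩
  · exact L.dev X hX h (hc.mono fun s _ t _ hst => hst.1) a ha b hb x hx.1

/-- digon step: lifts of both one-edge deletions combine -/
theorem stepD (E : V → V → ℤ → Prop) (hE : SGr E) (S : Finset V) (u v : V) (c : ℤ) (hu : u ∈ S) (hv : v ∈ S)
    (h1 : E u v c) (h2 : E u v (c + 1)) (T1 T2 : V → V → ℤ → Prop)
    (L1 : Lift (Del E u v (c + 1)) S T1) (L2 : Lift (Del E u v c) S T2)
    (hc : Conn (Adj (Del (Del E u v c) u v (c + 1))) S)
    (hc2 : ∀ s ∈ S, Conn (Adj (Del (Del E u v c) u v (c + 1))) (S.erase s)) : ∃ T, Lift E S T := by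
  have huv : u ≠ v := hE.irr _ _ _ h1
  have hd1 : SGr (Del E u v (c + 1)) := stepD_delSGr hE u v (c + 1)
  have hd2 : SGr (Del E u v c) := stepD_delSGr hE u v c
  have hd3 : SGr (Del (Del E u v c) u v (c + 1)) := stepD_delSGr hd2 u v (c + 1)
  have par : ∀ x : ℤ, Even (x - c) ∨ Even (x - (c + 1)) := by
    intro x
    rcases Int.even_or_odd (x - c) with h | h
    · exact Or.inl h
    · right
      obtain ⟨k, hk⟩ := h
      exact ⟨k, by linarith⟩
  have par' : ∀ x : ℤ, Even (x + c) ∨ Even (x + (c + 1)) := by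
    intro x
    rcases Int.even_or_odd (x + c) with h | h
    · exact Or.inl h
    · right
      obtain ⟨k, hk⟩ := h
      exact ⟨k + 1, by linarith⟩
  have npar : ∀ x : ℤ, Even (x - c) → Even (x - (c + 1)) → False := by
    intro x h h'
    obtain ⟨k, hk⟩ := h
    obtain ⟨l, hl⟩ := h'
    omega
  -- the base graph without the pair
  have hB1 : ∀ a b x, Del (Del E u v c) u v (c + 1) a b x →
      Del E u v (c + 1) a b x ∧ ¬ (a = u ∧ b = v) ∧ ¬ (a = v ∧ b = u) := by
    intro a b x h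
    obtain ⟨⟨q1, q2, q3⟩, q4, q5⟩ := h
    refine ⟨⟨q1, q4, q5⟩, fun h' => ?_, fun h' => ?_⟩
    · rcases par x with h | h
      · exact q2 ⟨h'.1, h'.2, h⟩
      · exact q4 ⟨h'.1, h'.2, h⟩
    · rcases par' x with h | h
      · exact q3 ⟨h'.1, h'.2, h⟩
      · exact q5 ⟨h'.1, h'.2, h⟩
  have hB2 : ∀ a b x, Del (Del E u v c) u v (c + 1) a b x →
      Del E u v c a b x ∧ ¬ (a = u ∧ b = v) ∧ ¬ (a = v ∧ b = u) := by
    intro a b x h
    exact ⟨h.1, (hB1 a b x h).2⟩
  have hC1 : ∀ a b x, Del E u v (c + 1) a b x → ¬ (a = u ∧ b = v) → ¬ (a = v ∧ b = u) →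
      Del (Del E u v c) u v (c + 1) a b x := by
    intro a b x h k1 k2
    exact ⟨⟨h.1, fun h' => k1 ⟨h'.1, h'.2.1⟩, fun h' => k2 ⟨h'.1, h'.2.1⟩⟩, h.2⟩
  have hC2 : ∀ a b x, Del E u v c a b x → ¬ (a = u ∧ b = v) → ¬ (a = v ∧ b = u) →
      Del (Del E u v c) u v (c + 1) a b x := by
    intro a b x h k1 k2
    exact ⟨h, fun h' => k1 ⟨h'.1, h'.2.1⟩, fun h' => k2 ⟨h'.1, h'.2.1⟩⟩
  have L1r : Lift (Del (Del E u v c) u v (c + 1)) S (stepD_Off T1 u v) := stepD_off_lift hB1 hC1 L1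
  have L2r : Lift (Del (Del E u v c) u v (c + 1)) S (stepD_Off T2 u v) := stepD_off_lift hB2 hC2 L2
  have hcard : 2 ≤ S.card := by
    have hsub : ({u, v} : Finset V) ⊆ S := by
      intro t ht
      rcases Finset.mem_insert.mp ht with h | h
      · rw [h]; exact hu
      · rw [Finset.mem_singleton.mp h]; exact hv
    have := Finset.card_le_card hsub
    rwa [Finset.card_pair huv] at this
  obtain ⟨ε, g, hε, hg, hmap⟩ := uniq _ hd3 S hcard hc hc2 _ _ L1r L2r
  obtain ⟨xe, hxe, hxe2⟩ := L1.ex u hu v hv c ⟨h1, fun h' => by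
      obtain ⟨k, hk⟩ := h'.2.2; omega, fun h' => huv h'.1⟩
  obtain ⟨yf, hyf, hyf2⟩ := L2.ex u hu v hv (c + 1) ⟨h2, fun h' => by
      obtain ⟨k, hk⟩ := h'.2.2; omega, fun h' => huv h'.1⟩
  -- the second label
  obtain ⟨xf, hxf⟩ : ∃ xf : ℤ, ε * xf + g v - g u = yf := by
    rcases hε with h | h
    · exact ⟨yf - g v + g u, by rw [h]; ring⟩
    · exact ⟨-(yf - g v + g u), by rw [h]; ring⟩
  have hxf2 : Even (xf - (c + 1)) := by
    obtain ⟨k, hk⟩ := hyf2
    obtain ⟨l, hl⟩ := hg u hu v hv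
    rcases hε with h | h
    · rw [h] at hxf
      exact ⟨k - l, by linarith⟩
    · rw [h] at hxf
      exact ⟨l - k - (c + 1), by linarith⟩
  -- unique label of T1 on the pair
  have hU : ∀ x, T1 u v x → x = xe := by
    intro x hx
    have e1 := Lift.label_unique hd1 L1 hx hxe
    have e2 := (L1.sub _ _ _ hx).2.2
    have e3 : ¬ Even (x - (c + 1)) := fun h => e2.2.1 ⟨rfl, rfl, h⟩
    have e4 : Even (x - c) := (par x).resolve_right e3
    obtain ⟨k, hk⟩ := e4
    obtain ⟨l, hl⟩ := hxe2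
    rw [abs_le] at e1
    omega
  have hU' : ∀ x, T1 v u x → x = -xe := by
    intro x hx
    have := hU _ (L1.symm _ _ _ hx)
    linarith
  -- transport of flat connectivity
  have hT : ∀ (X : Finset V) (h : V → ℤ), Conn (Fl (stepD_Off T1 u v) h) X →
      Conn (Fl T2 (fun t => ε * h t + g t)) X := by
    intro X h hX
    refine hX.mono fun a _ b _ hab => ?_
    have := (hmap _ _ _ hab).1
    unfold Fl
    convert this using 1
    ring
  have hE1 : ∀ x y : ℤ, |(ε * x + g v - g u) - (ε * y + g v - g u)| ≤ 1 → |x - y| ≤ 1 := by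
    intro x y hxy
    rcases hε with h | h
    · rw [h] at hxy
      rw [abs_le] at *
      constructor <;> linarith [hxy.1, hxy.2]
    · rw [h] at hxy
      rw [abs_le] at *
      constructor <;> linarith [hxy.1, hxy.2]
  have hadj : Conn (Adj (stepD_Off T1 u v)) S := by
    refine hc.mono fun a ha b hb hab => ?_
    obtain ⟨x, hx⟩ := hab
    obtain ⟨y, hy, _⟩ := L1r.ex a ha b hb x hx
    exact ⟨y, hy⟩
  have hdist : |xe - xf| ≤ 1 := by
    obtain ⟨h0, _, hh0⟩ := exists_flat L1r.symm hadj hu 0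
    have e1 := L1.dev S subset_rfl h0 (hh0.mono fun s _ t _ hst => hst.1) u hu v hv xe hxe
    have e2 := L2.dev S subset_rfl _ (hT S h0 hh0) u hu v hv yf hyf
    have e3 : |xf - (h0 v - h0 u)| ≤ 1 := by
      apply hE1
      rw [← hxf] at e2
      convert e2 using 2
      ring
    obtain ⟨k, hk⟩ := hxe2
    obtain ⟨l, hl⟩ := hxf2
    rw [abs_le] at *
    omega
  have hne : xe ≠ xf := by
    intro h
    rw [h] at hxe2
    exact npar _ hxe2 hxf2
  -- the combined relation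
  refine ⟨fun a b x => T1 a b x ∨ (a = u ∧ b = v ∧ x = xf) ∨ (a = v ∧ b = u ∧ x = -xf), ?_, ?_, ?_, ?_⟩
  · intro a b x h
    rcases h with h | ⟨ha, hb, hx⟩ | ⟨ha, hb, hx⟩
    · exact Or.inl (L1.symm _ _ _ h)
    · exact Or.inr (Or.inr ⟨hb, ha, by rw [hx]⟩)
    · exact Or.inr (Or.inl ⟨hb, ha, by rw [hx]; ring⟩)
  · intro a b x h
    have hEf : E u v xf := hE.evn h2 hxf2
    rcases h with h | ⟨ha, hb, hx⟩ | ⟨ha, hb, hx⟩
    · obtain ⟨p1, p2, p3⟩ := L1.sub _ _ _ h
      exact ⟨p1, p2, p3.1⟩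
    · subst ha; subst hb; subst hx
      exact ⟨hu, hv, hEf⟩
    · subst ha; subst hb; subst hx
      exact ⟨hv, hu, hE.symm _ _ _ hEf⟩
  · intro a ha b hb x hx
    by_cases c1 : a = u ∧ b = v ∧ Even (x - (c + 1))
    · refine ⟨xf, Or.inr (Or.inl ⟨c1.1, c1.2.1, rfl⟩), ?_⟩
      obtain ⟨k, hk⟩ := c1.2.2
      obtain ⟨l, hl⟩ := hxf2
      exact ⟨l - k, by linarith⟩
    · by_cases c2 : a = v ∧ b = u ∧ Even (x + (c + 1))
      · refine ⟨-xf, Or.inr (Or.inr ⟨c2.1, c2.2.1, rfl⟩), ?_⟩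
        obtain ⟨k, hk⟩ := c2.2.2
        obtain ⟨l, hl⟩ := hxf2
        exact ⟨-l - k, by linarith⟩
      · obtain ⟨y, hy, hy2⟩ := L1.ex a ha b hb x ⟨hx, c1, c2⟩
        exact ⟨y, Or.inl hy, hy2⟩
  · intro X hX h hconn a ha b hb x hx
    by_cases hXuv : u ∈ X ∧ v ∈ X
    · obtain ⟨huX, hvX⟩ := hXuv
      by_cases hk : xf = h v - h u
      · -- flat for T2
        have hconn2 : Conn (Fl T2 (fun t => ε * h t + g t)) X := by
          refine hconn.mono fun s _ t _ hst => ?_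
          rcases hst with hst | ⟨hs, ht, hst⟩ | ⟨hs, ht, hst⟩
          · have k1 : ¬ (s = u ∧ t = v) := by
              rintro ⟨hs, ht⟩
              subst hs; subst ht
              exact hne (by rw [← hU _ hst, ← hk])
            have k2 : ¬ (s = v ∧ t = u) := by
              rintro ⟨hs, ht⟩
              subst hs; subst ht
              have := hU' _ hst
              exact hne (by linarith)
            have := (hmap _ _ _ (show stepD_Off T1 u v s t _ from ⟨hst, k1, k2⟩)).1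
            unfold Fl
            convert this using 1
            ring
          · subst hs; subst ht
            unfold Fl
            convert hyf using 1
            rw [← hxf, ← hst]; ring
          · subst hs; subst ht
            unfold Fl
            convert L2.symm _ _ _ hyf using 1
            rw [← hxf, hk]; ring
        rcases hx with hx | ⟨hs, ht, hx⟩ | ⟨hs, ht, hx⟩
        · by_cases k1 : a = u ∧ b = v
          · obtain ⟨rfl, rfl⟩ := k1
            rw [hU _ hx, ← hk]; exact hdist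
          · by_cases k2 : a = v ∧ b = u
            · obtain ⟨rfl, rfl⟩ := k2
              rw [hU' _ hx]
              rw [abs_le] at *
              constructor <;> linarith [hdist.1, hdist.2]
            · have := (hmap _ _ _ (show stepD_Off T1 u v a b _ from ⟨hx, k1, k2⟩)).1
              have := L2.dev X hX _ hconn2 a ha b hb _ this
              rcases hε with he | he
              · rw [he] at this
                rw [abs_le] at *
                constructor <;> linarith [this.1, this.2]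
              · rw [he] at this
                rw [abs_le] at *
                constructor <;> linarith [this.1, this.2]
        · subst hs; subst ht
          rw [hx, hk]; simp
        · subst hs; subst ht
          rw [hx, hk]
          have : -(h a - h b) - (h b - h a) = 0 := by ring
          rw [this]; simp
      · -- flat for T1
        have hconn1 : Conn (Fl T1 h) X := by
          refine hconn.mono fun s _ t _ hst => ?_
          rcases hst with hst | ⟨hs, ht, hst⟩ | ⟨hs, ht, hst⟩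
          · exact hst
          · subst hs; subst ht
            exact absurd hst.symm hk
          · subst hs; subst ht
            exact absurd (by linarith) hk
        have key : |xf - (h v - h u)| ≤ 1 := by
          by_cases hk2 : xe = h v - h u
          · rw [← hk2, abs_sub_comm]; exact hdist
          · have hconn3 : Conn (Fl (stepD_Off T1 u v) h) X := by
              refine hconn1.mono fun s _ t _ hst => ⟨hst, ?_, ?_⟩
              · rintro ⟨hs, ht⟩
                subst hs; subst ht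
                exact hk2 (hU _ hst).symm
              · rintro ⟨hs, ht⟩
                subst hs; subst ht
                have := hU' _ hst
                exact hk2 (by linarith)
            have e2 := L2.dev X hX _ (hT X h hconn3) u huX v hvX yf hyf
            apply hE1
            rw [← hxf] at e2
            convert e2 using 2
            ring
        rcases hx with hx | ⟨hs, ht, hx⟩ | ⟨hs, ht, hx⟩
        · exact L1.dev X hX h hconn1 a ha b hb x hx
        · subst hs; subst ht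
          rw [hx]; exact key
        · subst hs; subst ht
          rw [hx]
          rw [abs_le] at *
          constructor <;> linarith [key.1, key.2]
    · have hred : ∀ s ∈ X, ∀ t ∈ X, ∀ y, (T1 s t y ∨ (s = u ∧ t = v ∧ y = xf) ∨ (s = v ∧ t = u ∧ y = -xf)) →
          T1 s t y := by
        intro s hs t ht y hy
        rcases hy with hy | ⟨p1, p2, hy⟩ | ⟨p1, p2, hy⟩
        · exact hy
        · exact absurd ⟨p1 ▸ hs, p2 ▸ ht⟩ hXuv
        · exact absurd ⟨p2 ▸ ht, p1 ▸ hs⟩ hXuv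
      have hconn1 : Conn (Fl T1 h) X := hconn.mono fun s hs t ht hst => hred s hs t ht _ hst
      exact L1.dev X hX h hconn1 a ha b hb x (hred a ha b hb x hx)

end SgK4

namespace SgK4
variable {V : Type}

theorem Ctr.sgr {E : V → V → ℤ → Prop} (hE : SGr E) (u v : V) (c : ℤ) : SGr (Ctr E u v c) := by
  refine ⟨?_, ?_, ?_⟩
  · rintro a b x ⟨h1, h2, h3, h4⟩
    refine ⟨h2, h1, h3.symm, ?_⟩
    rcases h4 with h | ⟨rfl, h⟩ | ⟨rfl, h⟩
    · exact Or.inl (hE.symm _ _ _ h)
    · right; right; refine ⟨rfl, ?_⟩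
      have := hE.symm _ _ _ h
      convert this using 1; ring
    · right; left; refine ⟨rfl, ?_⟩
      have := hE.symm _ _ _ h
      convert this using 1; ring
  · rintro a b x ⟨h1, h2, h3, h4⟩
    refine ⟨h1, h2, h3, ?_⟩
    rcases h4 with h | ⟨rfl, h⟩ | ⟨rfl, h⟩
    · exact Or.inl (hE.par _ _ _ h)
    · right; left; refine ⟨rfl, ?_⟩
      have := hE.par _ _ _ h
      convert this using 1; ring
    · right; right; refine ⟨rfl, ?_⟩
      have := hE.par _ _ _ h
      convert this using 1; ring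
  · rintro a b x ⟨h1, h2, h3, h4⟩; exact h3

theorem Del.sgr {E : V → V → ℤ → Prop} (hE : SGr E) (u v : V) (c : ℤ) : SGr (Del E u v c) := by
  refine ⟨?_, ?_, ?_⟩
  · rintro a b x ⟨h1, h2, h3⟩
    refine ⟨hE.symm _ _ _ h1, ?_, ?_⟩
    · rintro ⟨rfl, rfl, h⟩
      apply h3; refine ⟨rfl, rfl, ?_⟩
      have : x + c = -(-x - c) := by ring
      rw [this]; exact h.neg
    · rintro ⟨rfl, rfl, h⟩
      apply h2; refine ⟨rfl, rfl, ?_⟩
      have : x - c = -(-x + c) := by ring
      rw [this]; exact h.neg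
  · rintro a b x ⟨h1, h2, h3⟩
    refine ⟨hE.par _ _ _ h1, ?_, ?_⟩
    · rintro ⟨rfl, rfl, h⟩
      apply h2; refine ⟨rfl, rfl, ?_⟩
      have : x - c = (x + 2 - c) - 2 := by ring
      rw [this]; exact h.sub (by decide)
    · rintro ⟨rfl, rfl, h⟩
      apply h3; refine ⟨rfl, rfl, ?_⟩
      have : x + c = (x + 2 + c) - 2 := by ring
      rw [this]; exact h.sub (by decide)
  · rintro a b x ⟨h1, h2, h3⟩; exact hE.irr _ _ _ h1

theorem OddK4.mono {E E' : V → V → ℤ → Prop} {S : Finset V} (h : OddK4 E S) (hEE : ∀ a b x, E a b x → E' a b x) :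
    OddK4 E' S := by
  obtain ⟨B, p, h1, h2, h3, h4⟩ := h
  refine ⟨B, p, h1, h2, fun i => (h3 i).mono fun a _ b _ hab => hEE _ _ _ hab, fun i j hij => ?_⟩
  obtain ⟨a, ha, b, hb, hab⟩ := h4 i j hij
  exact ⟨a, ha, b, hb, hEE _ _ _ hab⟩

theorem ctr_conn {E : V → V → ℤ → Prop} (hE : SGr E) {X : Finset V} {u v : V} {c : ℤ} (hX : Conn (Adj E) X)
    (hu : u ∈ X) (hv : v ∈ X) (huv : u ≠ v) : Conn (Adj (Ctr E u v c)) (X.erase v) := by
  refine ⟨⟨u, Finset.mem_erase.mpr ⟨huv, hu⟩⟩, fun J hJ hne hJn => ?_⟩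
  have hvJ : v ∉ J := fun h => (Finset.mem_erase.mp (hJ h)).1 rfl
  have hJX : J ⊆ X := hJ.trans (Finset.erase_subset _ _)
  obtain ⟨w, hw, hwJ⟩ : ∃ w ∈ X.erase v, w ∉ J := by
    by_contra hcon; push Not at hcon
    exact hJn (Finset.Subset.antisymm hJ hcon)
  by_cases huJ : u ∈ J
  · have hsub : insert v J ⊆ X := Finset.insert_subset hv hJX
    have hne' : insert v J ≠ X := by
      intro h
      have : w ∈ insert v J := by rw [h]; exact (Finset.mem_erase.mp hw).2
      rcases Finset.mem_insert.mp this with h' | h'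
      · exact (Finset.mem_erase.mp hw).1 h'
      · exact hwJ h'
    obtain ⟨a, ha, b, hb, hb', x, hx⟩ := hX.2 _ hsub (Finset.insert_nonempty _ _) hne'
    have hbv : b ≠ v := fun h => hb' (h ▸ Finset.mem_insert_self _ _)
    have hbJ : b ∉ J := fun h => hb' (Finset.mem_insert_of_mem h)
    rcases Finset.mem_insert.mp ha with rfl | haJ
    · refine ⟨u, huJ, b, Finset.mem_erase.mpr ⟨hbv, hb⟩, hbJ, x + c, huv, hbv, fun h => hbJ (h ▸ huJ), ?_⟩
      right; left; exact ⟨rfl, by convert hx using 1; ring⟩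
    · exact ⟨a, haJ, b, Finset.mem_erase.mpr ⟨hbv, hb⟩, hbJ, x, fun h => hvJ (h ▸ haJ), hbv, hE.irr _ _ _ hx, Or.inl hx⟩
  · have hne' : J ≠ X := fun h => huJ (h ▸ hu)
    obtain ⟨a, ha, b, hb, hb', x, hx⟩ := hX.2 _ hJX hne hne'
    have hav : a ≠ v := fun h => hvJ (h ▸ ha)
    by_cases hbv : b = v
    · subst hbv
      refine ⟨a, ha, u, Finset.mem_erase.mpr ⟨huv, hu⟩, huJ, x - c, hav, huv, fun h => huJ (h ▸ ha), ?_⟩
      right; right; exact ⟨rfl, by convert hx using 1; ring⟩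
    · exact ⟨a, ha, b, Finset.mem_erase.mpr ⟨hbv, hb⟩, hb', x, hav, hbv, hE.irr _ _ _ hx, Or.inl hx⟩

theorem ctr_oddK4 {E : V → V → ℤ → Prop} (hE : SGr E) {S : Finset V} {u v : V} {c : ℤ} (hu : u ∈ S) (hv : v ∈ S)
    (huv : E u v c) (h : OddK4 (Ctr E u v c) (S.erase v)) : OddK4 E S := by
  have hne : u ≠ v := hE.irr _ _ _ huv
  refine oddK4_quot hE (S' := S.erase v) (fun t => if t = v then u else t) (fun t => if t = v then c else 0) ?_ ?_ ?_ h
  · intro t ht
    by_cases htv : t = v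
    · simp only [htv, if_true]; exact Finset.mem_erase.mpr ⟨hne, hu⟩
    · simp only [if_neg htv]; exact Finset.mem_erase.mpr ⟨htv, ht⟩
  · intro s hs
    obtain ⟨hsv, hsS⟩ := Finset.mem_erase.mp hs
    by_cases hsu : s = u
    · subst hsu
      have : S.filter (fun t => (if t = v then s else t) = s) = insert v {s} := by
        ext t; simp only [Finset.mem_filter, Finset.mem_insert, Finset.mem_singleton]
        constructor
        · rintro ⟨_, ht⟩
          by_cases htv : t = v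
          · exact Or.inl htv
          · rw [if_neg htv] at ht; exact Or.inr ht
        · rintro (rfl | rfl)
          · exact ⟨hv, by simp⟩
          · exact ⟨hu, by simp⟩
      rw [this]
      refine Conn.insert (fun _ _ h => Fl.symm hE.symm h) (Conn.single _ _) (Finset.mem_singleton_self _) ?_
      unfold Fl; simp only [if_true, if_neg hne]; simpa using huv
    · have : S.filter (fun t => (if t = v then u else t) = s) = {s} := by
        ext t; simp only [Finset.mem_filter, Finset.mem_singleton]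
        constructor
        · rintro ⟨_, ht⟩
          by_cases htv : t = v
          · rw [if_pos htv] at ht; exact absurd ht.symm hsu
          · rw [if_neg htv] at ht; exact ht
        · rintro rfl
          exact ⟨hsS, by simp [hsv]⟩
      rw [this]; exact Conn.single _ _
  · intro s hs s' hs' x hx hss
    obtain ⟨hsv, hsS⟩ := Finset.mem_erase.mp hs
    obtain ⟨hsv', hsS'⟩ := Finset.mem_erase.mp hs'
    obtain ⟨_, _, _, hx⟩ := hx
    rcases hx with hx | ⟨rfl, hx⟩ | ⟨rfl, hx⟩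
    · refine ⟨s, hsS, s', hsS', by simp [hsv], by simp [hsv'], ?_⟩
      simp only [if_neg hsv, if_neg hsv']; simpa using hx
    · refine ⟨v, hv, s', hsS', by simp, by simp [hsv'], ?_⟩
      simp only [if_true, if_neg hsv']; simpa [sub_eq_add_neg] using hx
    · refine ⟨s, hsS, v, hv, by simp [hsv], by simp, ?_⟩
      simp only [if_true, if_neg hsv]; simpa using hx

/-- Theorem R: 3-connected signed graphs without odd K4 have integer lifts -/
theorem lift_exists : ∀ (n : ℕ) (S : Finset V) (E : V → V → ℤ → Prop), S.card = n → SGr E →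
    (∀ s ∈ S, ∀ t ∈ S, Conn (Adj E) ((S.erase s).erase t)) → 3 ≤ S.card → ¬ OddK4 E S →
    (S.card = 3 → ∃ a b c, S = {a, b, c} ∧ a ≠ b ∧ a ≠ c ∧ b ≠ c ∧ ∀ x y, E a b x → E a b y → Even (x - y)) →
    ∃ T, Lift E S T := by
  intro n
  induction n with
  | zero => intro S E hn _ _ h3; omega
  | succ n ih =>
    intro S E hn hE hc h3 hK hT
    by_cases hcard : S.card = 3
    · obtain ⟨a, b, c, hS, hab, hac, hbc, hs⟩ := hT hcard
      rw [hS]; exact lift3 E hE a b c hab hac hbc hs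
    have h4 : 4 ≤ S.card := by omega
    obtain ⟨u, hu, v, hv, huv, hct⟩ := contractible3 (Adj E) (fun a b h => Adj.symm hE.symm h)
      (fun a h => by obtain ⟨x, hx⟩ := h; exact hE.irr _ _ _ hx rfl) S h4 hc
    obtain ⟨c, hc0⟩ := huv
    have hne : u ≠ v := hE.irr _ _ _ hc0
    -- the general contraction argument for a spanning sub-graph `E1` with only one class at `u v`
    have key : ∀ (E1 : V → V → ℤ → Prop) (c1 : ℤ), SGr E1 → (∀ a b x, E1 a b x → E a b x) →
        (∀ a b x, E a b x → ¬ IsPQ u v a b → E1 a b x) → E1 u v c1 → (∀ x, E1 u v x → Even (x - c1)) →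
        ∃ T, Lift E1 S T := by
      intro E1 c1 hE1 hsub hsup hc1 honly
      have hcS : Conn (Adj E1) S := by
        refine ⟨⟨u, hu⟩, fun J hJ hJne hJn => ?_⟩
        -- Conn of S.erase t gives what we need
        by_cases hcross : (u ∈ J ∧ v ∉ J) ∨ (v ∈ J ∧ u ∉ J)
        · rcases hcross with ⟨h1, h2⟩ | ⟨h1, h2⟩
          · exact ⟨u, h1, v, hv, h2, c1, hc1⟩
          · exact ⟨v, h1, u, hu, h2, -c1, hE1.symm _ _ _ hc1⟩
        · -- choose a vertex to erase so that J stays proper and nonempty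
          obtain ⟨w, hw, hwJ⟩ : ∃ w ∈ S, w ∉ J := by
            by_contra hcon; push Not at hcon
            exact hJn (Finset.Subset.antisymm hJ hcon)
          by_cases huJ : u ∈ J
          · -- u, v ∈ J; erase u from S, J
            have hvJ : v ∈ J := by
              by_contra h; exact hcross (Or.inl ⟨huJ, h⟩)
            have hcu := hc u hu u hu
            have hJ' : J.erase u ⊆ (S.erase u).erase u := by
              intro t ht
              have := Finset.mem_erase.mp ht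
              exact Finset.mem_erase.mpr ⟨this.1, Finset.mem_erase.mpr ⟨this.1, hJ this.2⟩⟩
            obtain ⟨a, ha, b, hb, hb', x, hx⟩ := hcu.2 (J.erase u) hJ' ⟨v, Finset.mem_erase.mpr ⟨hne.symm, hvJ⟩⟩ (by
              intro h
              have hwm : w ∈ (S.erase u).erase u := by
                have : w ≠ u := fun h => hwJ (h ▸ huJ)
                exact Finset.mem_erase.mpr ⟨this, Finset.mem_erase.mpr ⟨this, hw⟩⟩
              rw [← h] at hwm
              exact hwJ (Finset.mem_erase.mp hwm).2)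
            have hbu : b ≠ u := (Finset.mem_erase.mp hb).1
            have hbS : b ∈ S := (Finset.mem_erase.mp (Finset.mem_erase.mp hb).2).2
            have hbJ : b ∉ J := fun h => hb' (Finset.mem_erase.mpr ⟨hbu, h⟩)
            refine ⟨a, (Finset.mem_erase.mp ha).2, b, hbS, hbJ, x, hsup _ _ _ hx ?_⟩
            rintro (⟨rfl, rfl⟩ | ⟨rfl, rfl⟩)
            · exact hbJ hvJ
            · exact hbu rfl
          · have hvJ : v ∉ J := by
              intro h; exact hcross (Or.inr ⟨h, huJ⟩)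
            have hcu := hc u hu u hu
            have hJ' : J ⊆ (S.erase u).erase u := by
              intro t ht
              have : t ≠ u := fun h => huJ (h ▸ ht)
              exact Finset.mem_erase.mpr ⟨this, Finset.mem_erase.mpr ⟨this, hJ ht⟩⟩
            obtain ⟨a, ha, b, hb, hb', x, hx⟩ := hcu.2 J hJ' hJne (by
              intro h
              have : v ∈ (S.erase u).erase u := Finset.mem_erase.mpr ⟨hne.symm, Finset.mem_erase.mpr ⟨hne.symm, hv⟩⟩
              rw [← h] at this; exact hvJ this)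
            refine ⟨a, ha, b, (Finset.mem_erase.mp (Finset.mem_erase.mp hb).2).2, hb', x, hsup _ _ _ hx ?_⟩
            rintro (⟨rfl, rfl⟩ | ⟨rfl, rfl⟩)
            · exact huJ ha
            · exact hvJ ha
      have hmono : ∀ X : Finset V, (u ∉ X ∨ v ∉ X) → Conn (Adj E) X → Conn (Adj E1) X := by
        intro X hX hcX
        refine hcX.mono ?_
        rintro a ha b hb ⟨x, hx⟩
        refine ⟨x, hsup _ _ _ hx ?_⟩
        rintro (⟨rfl, rfl⟩ | ⟨rfl, rfl⟩)
        · rcases hX with h | h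
          · exact h ha
          · exact h hb
        · rcases hX with h | h
          · exact h hb
          · exact h ha
      have hcuv : Conn (Adj E1) ((S.erase u).erase v) := by
        refine hmono _ (Or.inr ?_) (hc u hu v hv)
        simp
      have hK1 : ¬ OddK4 E1 S := fun h => hK (h.mono hsub)
      have hcardv : (S.erase v).card = n := by rw [Finset.card_erase_of_mem hv]; omega
      -- lift of the contraction
      obtain ⟨T', hT'⟩ : ∃ T', Lift (Ctr E1 u v c1) (S.erase v) T' := by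
        apply ih (S.erase v) (Ctr E1 u v c1) hcardv (Ctr.sgr hE1 u v c1)
        · intro s hs t ht
          obtain ⟨hsv, hsS⟩ := Finset.mem_erase.mp hs
          obtain ⟨htv, htS⟩ := Finset.mem_erase.mp ht
          by_cases hust : u ≠ s ∧ u ≠ t
          · -- contraction of a connected set
            have hX : Conn (Adj E1) ((S.erase s).erase t) := by
              -- need connectivity of E1 on (S.erase s).erase t, which contains both u and v
              have hbase := hc s hsS t htS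
              refine ⟨hbase.1, fun J hJ hJne hJn => ?_⟩
              have huX : u ∈ (S.erase s).erase t := Finset.mem_erase.mpr ⟨hust.2, Finset.mem_erase.mpr ⟨hust.1, hu⟩⟩
              have hvX : v ∈ (S.erase s).erase t := Finset.mem_erase.mpr ⟨fun h => htv h.symm, Finset.mem_erase.mpr ⟨fun h => hsv h.symm, hv⟩⟩
              by_cases hcross : (u ∈ J ∧ v ∉ J) ∨ (v ∈ J ∧ u ∉ J)
              · rcases hcross with ⟨h1, h2⟩ | ⟨h1, h2⟩
                · exact ⟨u, h1, v, hvX, h2, c1, hc1⟩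
                · exact ⟨v, h1, u, huX, h2, -c1, hE1.symm _ _ _ hc1⟩
              · obtain ⟨a, ha, b, hb, hb', x, hx⟩ := hbase.2 J hJ hJne hJn
                refine ⟨a, ha, b, hb, hb', x, hsup _ _ _ hx ?_⟩
                rintro (⟨rfl, rfl⟩ | ⟨rfl, rfl⟩)
                · exact hcross (Or.inl ⟨ha, hb'⟩)
                · exact hcross (Or.inr ⟨ha, hb'⟩)
            have huX : u ∈ (S.erase s).erase t := Finset.mem_erase.mpr ⟨hust.2, Finset.mem_erase.mpr ⟨hust.1, hu⟩⟩
            have hvX : v ∈ (S.erase s).erase t := Finset.mem_erase.mpr ⟨fun h => htv h.symm, Finset.mem_erase.mpr ⟨fun h => hsv h.symm, hv⟩⟩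
            have := ctr_conn (c := c1) hE1 hX huX hvX hne
            have heq : ((S.erase s).erase t).erase v = ((S.erase v).erase s).erase t := by
              ext z; simp only [Finset.mem_erase]; tauto
            rwa [heq] at this
          · -- u is removed
            have hconn : Conn (Adj E) (((S.erase v).erase s).erase t) := by
              by_cases hus : u = s
              · subst hus
                have := hct t htS
                have heq : ((S.erase u).erase v).erase t = ((S.erase v).erase u).erase t := by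
                  ext z; simp only [Finset.mem_erase]; tauto
                rwa [heq] at this
              · have hut : u = t := by
                  by_contra h; exact hust ⟨hus, h⟩
                subst hut
                have := hct s hsS
                have heq : ((S.erase u).erase v).erase s = ((S.erase v).erase s).erase u := by
                  ext z; simp only [Finset.mem_erase]; tauto
                rwa [heq] at this
            have huX : u ∉ ((S.erase v).erase s).erase t := by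
              intro h
              simp only [Finset.mem_erase] at h
              apply hust; exact ⟨h.2.1, h.1⟩
            have h1 := hmono _ (Or.inl huX) hconn
            refine h1.mono ?_
            rintro a ha b hb ⟨x, hx⟩
            have ha' : a ≠ v := by simp only [Finset.mem_erase] at ha; exact ha.2.2.1
            have hb' : b ≠ v := by simp only [Finset.mem_erase] at hb; exact hb.2.2.1
            exact ⟨x, ha', hb', hE1.irr _ _ _ hx, Or.inl hx⟩
        · omega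
        · intro h; exact hK1 (ctr_oddK4 hE1 hu hv hc1 h)
        · intro hcard3
          -- four vertices: use k4base
          by_contra hcon
          apply hK1
          have hcS4 : S.card = 4 := by
            rw [Finset.card_erase_of_mem hv] at hcard3; omega
          have hmem : u ∈ S.erase v := Finset.mem_erase.mpr ⟨hne, hu⟩
          have hcard2 : ((S.erase v).erase u).card = 2 := by
            rw [Finset.card_erase_of_mem hmem]; omega
          obtain ⟨x, y, hxy, hxyS⟩ := Finset.card_eq_two.mp hcard2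
          have hx : x ∈ (S.erase v).erase u := by rw [hxyS]; simp
          have hy : y ∈ (S.erase v).erase u := by rw [hxyS]; simp
          obtain ⟨hxu, hx'⟩ := Finset.mem_erase.mp hx
          obtain ⟨hxv, hxS⟩ := Finset.mem_erase.mp hx'
          obtain ⟨hyu, hy'⟩ := Finset.mem_erase.mp hy
          obtain ⟨hyv, hyS⟩ := Finset.mem_erase.mp hy'
          have hSv : S.erase v = {u, x, y} := by
            rw [← Finset.insert_erase hmem, hxyS]
          have hS4 : S = {u, v, x, y} := by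
            rw [← Finset.insert_erase hv, hSv]
            ext z; simp only [Finset.mem_insert, Finset.mem_singleton]; tauto
          -- all pairs adjacent
          have hadj : ∀ a ∈ S, ∀ b ∈ S, a ≠ b → ∀ s ∈ S, ∀ t ∈ S, s ≠ t → s ≠ a → s ≠ b → t ≠ a → t ≠ b → Adj E a b := by
            intro a ha b hb hab s hs t ht hst hsa hsb hta htb
            have hcc := hc s hs t ht
            have hset : (S.erase s).erase t = {a, b} := by
              apply Eq.symm
              apply Finset.eq_of_subset_of_card_le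
              · intro z hz
                simp only [Finset.mem_insert, Finset.mem_singleton] at hz
                rcases hz with rfl | rfl
                · exact Finset.mem_erase.mpr ⟨hta.symm, Finset.mem_erase.mpr ⟨hsa.symm, ha⟩⟩
                · exact Finset.mem_erase.mpr ⟨htb.symm, Finset.mem_erase.mpr ⟨hsb.symm, hb⟩⟩
              · rw [Finset.card_erase_of_mem (Finset.mem_erase.mpr ⟨hst.symm, ht⟩), Finset.card_erase_of_mem hs,
                  Finset.card_pair hab]; omega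
            rw [hset] at hcc
            obtain ⟨a', ha', b', hb', hb'', hab'⟩ := hcc.2 {a} (by simp) (Finset.singleton_nonempty a) (by
              intro h
              have : b ∈ ({a} : Finset V) := by rw [h]; simp
              exact hab (Finset.mem_singleton.mp this).symm)
            rw [Finset.mem_singleton] at ha' hb''
            simp only [Finset.mem_insert, Finset.mem_singleton] at hb'
            rcases hb' with h | h
            · exact absurd h hb''
            · rw [ha', h] at hab'; exact hab'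
          have hadj1 : ∀ a b, Adj E a b → ¬ IsPQ u v a b → Adj E1 a b := by
            rintro a b ⟨z, hz⟩ hn; exact ⟨z, hsup _ _ _ hz hn⟩
          have a1 : Adj E1 u x := hadj1 _ _ (hadj u hu x hxS (Ne.symm hxu) v hv y hyS (Ne.symm hyv) hne.symm (Ne.symm hxv) hyu hxy.symm)
            (by rintro (⟨_, h⟩ | ⟨h, _⟩); exacts [hxv h, hne h])
          have a2 : Adj E1 u y := hadj1 _ _ (hadj u hu y hyS (Ne.symm hyu) v hv x hxS (Ne.symm hxv) hne.symm (Ne.symm hyv) hxu hxy)
            (by rintro (⟨_, h⟩ | ⟨h, _⟩); exacts [hyv h, hne h])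
          have a3 : Adj E1 v x := hadj1 _ _ (hadj v hv x hxS (Ne.symm hxv) u hu y hyS (Ne.symm hyu) hne (Ne.symm hxu) hyv hxy.symm)
            (by rintro (⟨h, _⟩ | ⟨_, h⟩); exacts [hne h.symm, hxu h])
          have a4 : Adj E1 v y := hadj1 _ _ (hadj v hv y hyS (Ne.symm hyv) u hu x hxS (Ne.symm hxu) hne (Ne.symm hyu) hxv hxy)
            (by rintro (⟨h, _⟩ | ⟨_, h⟩); exacts [hne h.symm, hyu h])
          -- digons in the contraction
          have hdig : ∀ a b d, ({u, x, y} : Finset V) = {a, b, d} → a ≠ b → a ≠ d → b ≠ d →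
              ∃ r, Ctr E1 u v c1 a b r ∧ Ctr E1 u v c1 a b (r + 1) := by
            intro a b d hset hab had hbd
            by_contra hno
            apply hcon
            refine ⟨a, b, d, by rw [hSv]; exact hset, hab, had, hbd, fun r s hr hs => ?_⟩
            by_contra hodd
            apply hno
            refine ⟨r, hr, (Ctr.sgr hE1 u v c1).evn hs ?_⟩
            rw [Int.not_even_iff_odd] at hodd
            obtain ⟨m, hm⟩ := hodd
            exact ⟨m + 1, by omega⟩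
          obtain ⟨r, r1, r2⟩ := hdig u x y rfl (Ne.symm hxu) (Ne.symm hyu) hxy
          obtain ⟨s, s1, s2⟩ := hdig u y x (by ext z; simp only [Finset.mem_insert, Finset.mem_singleton]; tauto) (Ne.symm hyu) (Ne.symm hxu) hxy.symm
          obtain ⟨d, d1, d2⟩ := hdig x y u (by ext z; simp only [Finset.mem_insert, Finset.mem_singleton]; tauto) hxy hxu hyu
          have hd1 : E1 x y d := by
            obtain ⟨_, _, _, h⟩ := d1
            rcases h with h | ⟨h, _⟩ | ⟨h, _⟩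
            · exact h
            · exact absurd h hxu
            · exact absurd h hyu
          have hd2 : E1 x y (d + 1) := by
            obtain ⟨_, _, _, h⟩ := d2
            rcases h with h | ⟨h, _⟩ | ⟨h, _⟩
            · exact h
            · exact absurd h hxu
            · exact absurd h hyu
          rw [hS4]
          exact k4base E1 hE1 u v x y hne (Ne.symm hxu) (Ne.symm hyu) (Ne.symm hxv) (Ne.symm hyv) hxy c1 d r s hc1
            a1 a2 a3 a4 hd1 hd2 r1 r2 s1 s2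
      exact stepK E1 hE1 S u v c1 hu hv hc1 honly hcS hcuv T' hT' hK1
    by_cases hdig : E u v (c + 1)
    · -- digon
      obtain ⟨T1, hT1⟩ := key (Del E u v (c + 1)) c (Del.sgr hE _ _ _) (fun a b x h => h.1)
        (fun a b x h hn => ⟨h, fun h' => hn (Or.inl ⟨h'.1, h'.2.1⟩), fun h' => hn (Or.inr ⟨h'.1, h'.2.1⟩)⟩)
        ⟨hc0, by rintro ⟨_, _, k, hk⟩; omega, fun h' => hne h'.1⟩
        (by
          rintro x ⟨_, h2, _⟩
          by_contra hodd
          apply h2; refine ⟨rfl, rfl, ?_⟩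
          rw [Int.not_even_iff_odd] at hodd
          obtain ⟨m, hm⟩ := hodd
          exact ⟨m, by omega⟩)
      obtain ⟨T2, hT2⟩ := key (Del E u v c) (c + 1) (Del.sgr hE _ _ _) (fun a b x h => h.1)
        (fun a b x h hn => ⟨h, fun h' => hn (Or.inl ⟨h'.1, h'.2.1⟩), fun h' => hn (Or.inr ⟨h'.1, h'.2.1⟩)⟩)
        ⟨hdig, by rintro ⟨_, _, k, hk⟩; omega, fun h' => hne h'.1⟩
        (by
          rintro x ⟨_, h2, _⟩
          by_contra hodd
          apply h2; refine ⟨rfl, rfl, ?_⟩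
          rw [Int.not_even_iff_odd] at hodd
          obtain ⟨m, hm⟩ := hodd
          exact ⟨m + 1, by omega⟩)
      -- connectivity of E0
      have h0adj : ∀ a b x, E a b x → ¬ IsPQ u v a b → Adj (Del (Del E u v c) u v (c + 1)) a b := by
        intro a b x h hn
        exact ⟨x, ⟨h, fun h' => hn (Or.inl ⟨h'.1, h'.2.1⟩), fun h' => hn (Or.inr ⟨h'.1, h'.2.1⟩)⟩,
          fun h' => hn (Or.inl ⟨h'.1, h'.2.1⟩), fun h' => hn (Or.inr ⟨h'.1, h'.2.1⟩)⟩
      -- for every s, S.erase s is E0-connected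
      have hall : ∀ X : Finset V, X ⊆ S → u ∈ X → v ∈ X → 3 ≤ X.card → Conn (Adj E) X →
          (Conn (Adj E) (X.erase u)) → (Conn (Adj E) (X.erase v)) →
          Conn (Adj (Del (Del E u v c) u v (c + 1))) X := by
        intro X hXS huX hvX hX3 hX hXu hXv
        refine ⟨hX.1, fun J hJ hJne hJn => ?_⟩
        by_cases hcross : (u ∈ J ∧ v ∉ J) ∨ (v ∈ J ∧ u ∉ J)
        · -- WLOG analysis
          have aux : ∀ p q : V, (p = u ∧ q = v) ∨ (p = v ∧ q = u) → p ∈ J → q ∉ J →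
              ∃ a ∈ J, ∃ b ∈ X, b ∉ J ∧ Adj (Del (Del E u v c) u v (c + 1)) a b := by
            intro p q hpq hpJ hqJ
            have hpX : p ∈ X := hJ hpJ
            have hqX : q ∈ X := by rcases hpq with ⟨_, rfl⟩ | ⟨_, rfl⟩ <;> assumption
            have hcp : Conn (Adj E) (X.erase p) := by rcases hpq with ⟨rfl, _⟩ | ⟨rfl, _⟩ <;> assumption
            have hcq : Conn (Adj E) (X.erase q) := by rcases hpq with ⟨_, rfl⟩ | ⟨_, rfl⟩ <;> assumption
            by_cases hJp : (J.erase p).Nonempty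
            · -- J.erase p in X.erase p, proper since q outside
              obtain ⟨a, ha, b, hb, hb', x, hx⟩ := hcp.2 (J.erase p) (Finset.erase_subset_erase _ hJ) hJp (by
                intro h
                have hm : q ∈ X.erase p := Finset.mem_erase.mpr ⟨fun h => hqJ (h ▸ hpJ), hqX⟩
                rw [← h] at hm; exact hqJ (Finset.mem_erase.mp hm).2)
              obtain ⟨hap, haJ⟩ := Finset.mem_erase.mp ha
              obtain ⟨hbp, hbX⟩ := Finset.mem_erase.mp hb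
              have hbJ : b ∉ J := fun h => hb' (Finset.mem_erase.mpr ⟨hbp, h⟩)
              refine ⟨a, haJ, b, hbX, hbJ, h0adj a b x hx ?_⟩
              rintro (⟨rfl, rfl⟩ | ⟨rfl, rfl⟩)
              · rcases hpq with ⟨rfl, _⟩ | ⟨rfl, rfl⟩
                · exact hap rfl
                · exact hqJ haJ
              · rcases hpq with ⟨rfl, rfl⟩ | ⟨rfl, _⟩
                · exact hqJ haJ
                · exact hap rfl
            · -- J = {p}: use X.erase q
              have hJp' : J = {p} := by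
                rw [Finset.not_nonempty_iff_eq_empty, Finset.erase_eq_empty_iff] at hJp
                rcases hJp with h | h
                · rw [h] at hpJ; exact absurd hpJ (Finset.notMem_empty _)
                · exact h
              have hpq' : p ≠ q := fun h => hqJ (h ▸ hpJ)
              obtain ⟨a, ha, b, hb, hb', x, hx⟩ := hcq.2 J (by
                rw [hJp']; exact Finset.singleton_subset_iff.mpr (Finset.mem_erase.mpr ⟨hpq', hpX⟩)) hJne (by
                intro h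
                have hc1 : (X.erase q).card = 1 := by rw [← h, hJp']; simp
                rw [Finset.card_erase_of_mem hqX] at hc1; omega)
              obtain ⟨hbq, hbX⟩ := Finset.mem_erase.mp hb
              have hap : a = p := by rw [hJp'] at ha; exact Finset.mem_singleton.mp ha
              refine ⟨a, ha, b, hbX, hb', h0adj a b x hx ?_⟩
              rintro (⟨h1, h2⟩ | ⟨h1, h2⟩)
              · rcases hpq with ⟨rfl, rfl⟩ | ⟨rfl, rfl⟩
                · exact hbq h2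
                · exact hpq' (hap.symm.trans h1)
              · rcases hpq with ⟨rfl, rfl⟩ | ⟨rfl, rfl⟩
                · exact hpq' (hap.symm.trans h1)
                · exact hbq h2
          rcases hcross with ⟨h1, h2⟩ | ⟨h1, h2⟩
          · exact aux u v (Or.inl ⟨rfl, rfl⟩) h1 h2
          · exact aux v u (Or.inr ⟨rfl, rfl⟩) h1 h2
        · obtain ⟨a, ha, b, hb, hb', x, hx⟩ := hX.2 J hJ hJne hJn
          refine ⟨a, ha, b, hb, hb', h0adj a b x hx ?_⟩
          rintro (⟨rfl, rfl⟩ | ⟨rfl, rfl⟩)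
          · exact hcross (Or.inl ⟨ha, hb'⟩)
          · exact hcross (Or.inr ⟨ha, hb'⟩)
      have hcons : ∀ s ∈ S, Conn (Adj E) (S.erase s) := by
        intro s hs
        have := hc s hs s hs
        rwa [Finset.erase_eq_of_notMem (Finset.notMem_erase s S)] at this
      have hcS : Conn (Adj E) S := by
        refine ⟨⟨u, hu⟩, fun J hJ hJne hJn => ?_⟩
        obtain ⟨w, hw, hwJ⟩ : ∃ w ∈ S, w ∉ J := by
          by_contra hcon; push Not at hcon
          exact hJn (Finset.Subset.antisymm hJ hcon)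
        obtain ⟨j, hj⟩ := hJne
        -- erase a vertex different from w and j
        obtain ⟨z, hz⟩ : ((S.erase w).erase j).Nonempty := by
          rw [← Finset.card_pos, Finset.card_erase_of_mem, Finset.card_erase_of_mem hw]
          · omega
          · exact Finset.mem_erase.mpr ⟨fun h => hwJ (h ▸ hj), hJ hj⟩
        simp only [Finset.mem_erase] at hz
        obtain ⟨hzj, hzw, hzS⟩ := hz
        obtain ⟨a, ha, b, hb, hb', hab⟩ := (hcons z hzS).2 (J.erase z) (Finset.erase_subset_erase _ hJ)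
          ⟨j, Finset.mem_erase.mpr ⟨hzj.symm, hj⟩⟩ (by
            intro h
            have hm : w ∈ S.erase z := Finset.mem_erase.mpr ⟨hzw.symm, hw⟩
            rw [← h] at hm; exact hwJ (Finset.mem_erase.mp hm).2)
        obtain ⟨hbz, hbS⟩ := Finset.mem_erase.mp hb
        exact ⟨a, (Finset.mem_erase.mp ha).2, b, hbS, fun h => hb' (Finset.mem_erase.mpr ⟨hbz, h⟩), hab⟩
      refine stepD E hE S u v c hu hv hc0 hdig T1 T2 hT1 hT2 ?_ ?_
      · exact hall S subset_rfl hu hv (by omega) hcS (hcons u hu) (hcons v hv)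
      · intro s hs
        by_cases hsu : s = u
        · subst hsu
          refine (hcons s hs).mono ?_
          rintro a ha b hb ⟨x, hx⟩
          refine h0adj a b x hx ?_
          rintro (⟨rfl, rfl⟩ | ⟨rfl, rfl⟩)
          · exact Finset.notMem_erase _ _ ha
          · exact Finset.notMem_erase _ _ hb
        by_cases hsv : s = v
        · subst hsv
          refine (hcons s hs).mono ?_
          rintro a ha b hb ⟨x, hx⟩
          refine h0adj a b x hx ?_
          rintro (⟨rfl, rfl⟩ | ⟨rfl, rfl⟩)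
          · exact Finset.notMem_erase _ _ hb
          · exact Finset.notMem_erase _ _ ha
        · have hcu := hc s hs u hu
          have hcv := hc s hs v hv
          exact hall (S.erase s) (Finset.erase_subset _ _) (Finset.mem_erase.mpr ⟨Ne.symm hsu, hu⟩)
            (Finset.mem_erase.mpr ⟨Ne.symm hsv, hv⟩) (by rw [Finset.card_erase_of_mem hs]; omega) (hcons s hs) hcu hcv
    · exact key E c hE (fun _ _ _ h => h) (fun _ _ _ h _ => h) hc0 (by
        intro x hx
        by_contra hodd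
        apply hdig
        refine hE.evn hx ?_
        rw [Int.not_even_iff_odd] at hodd
        obtain ⟨m, hm⟩ := hodd
        exact ⟨-m, by omega⟩)

end SgK4

/-! ### wind_of_lift -/

namespace SgK4
variable {V : Type}
/-! dependency (proved elsewhere, may be used) -/



/-! dependency (proved elsewhere, may be used) -/



/-! TARGET -/

/-- lifts give windings -/
theorem wind_of_lift (W : V → V → ℤ → ℕ → Prop) (hW : WGr W) (S : Finset V) (T : V → V → ℤ → Prop)
    (hL : Lift (Sup W) S T) (h3 : Neg W S 3) : ∃ f, Wind W S f := by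
  let A : V → V → ℤ → Prop := fun a b c => ∃ (x : ℤ) (l : ℕ), T a b x ∧ W a b x l ∧ c = (l : ℤ) - 3 * x
  have hM : ∀ a b : V, ∃ M : ℤ, ∀ x, T a b x → x ≤ M := by
    intro a b
    by_cases h : ∃ y, T a b y
    · obtain ⟨y, hy⟩ := h
      refine ⟨y + 1, fun x hx => ?_⟩
      have h1 := Lift.label_unique hW.sup hL hx hy
      rw [abs_le] at h1
      linarith [h1.2]
    · exact ⟨0, fun x hx => absurd ⟨x, hx⟩ h⟩
  choose M hM using hM
  have hb : ∃ B : ℤ, ∀ a ∈ S, ∀ b ∈ S, ∀ c, A a b c → -B ≤ c := by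
    refine ⟨∑ p ∈ S ×ˢ S, |3 * M p.1 p.2|, ?_⟩
    rintro a ha b hb c ⟨x, l, hT, _, rfl⟩
    have h1 := hM a b x hT
    have h2 : |3 * M a b| ≤ ∑ p ∈ S ×ˢ S, |3 * M p.1 p.2| :=
      Finset.single_le_sum (f := fun p : V × V => |3 * M p.1 p.2|) (fun p _ => abs_nonneg _)
        (Finset.mk_mem_product ha hb)
    have h3' := le_abs_self (3 * M a b)
    have h4 : (0 : ℤ) ≤ (l : ℤ) := Int.natCast_nonneg l
    linarith
  have hconv : ∀ a b c, CW A S a b c → ∃ (x : ℤ) (l : ℕ),
      Wk (fun a b x l => T a b x ∧ W a b x l) S a b x l ∧ c = (l : ℤ) - 3 * x := by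
    intro a b c h
    induction h with
    | nil a ha => exact ⟨0, 0, Wk.nil a ha, by simp⟩
    | cons ha h t ih =>
      obtain ⟨x, l, hT, hWx, rfl⟩ := h
      obtain ⟨y, m, hwk, rfl⟩ := ih
      refine ⟨x + y, l + m, Wk.cons ha ⟨hT, hWx⟩ hwk, ?_⟩
      push_cast
      ring
  obtain ⟨f, hf⟩ := potential A S hb (by
    intro a c h
    obtain ⟨x, l, hwk, rfl⟩ := hconv a a c h
    have := closed_nonneg W hW S T hL h3 a x l hwk
    linarith)
  refine ⟨f, ?_⟩
  intro a ha b hb x l hWx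
  obtain ⟨y, hT, r, hr⟩ := hL.ex a ha b hb x ⟨l, hWx⟩
  have hWy : W a b y l := hW.evn hWx ⟨r, hr⟩
  have h1 := hf a ha b hb ((l : ℤ) - 3 * y) ⟨y, l, hT, hWy, rfl⟩
  have h2 := hf b hb a ha ((l : ℤ) - 3 * (-y)) ⟨-y, l, hL.symm _ _ _ hT, hW.symm _ _ _ _ hWy, rfl⟩
  refine ⟨r, ?_⟩
  rw [abs_le]
  constructor <;> linarith

end SgK4


/-! ### ext_ok -/

namespace SgK4
variable {V : Type}

theorem ext_ok (W : V → V → ℤ → ℕ → Prop) (hW : WGr W) (S S1 S2 : Finset V) (a b p q : V) (hab : a ≠ b)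
    (h1S : S1 ⊆ S) (h2S : S2 ⊆ S)
    (hpq : ∀ s ∈ S2, ∀ t ∈ S2, IsPQ p q s t → IsPQ a b s t)
    (h3 : Neg W S 3) (h4 : Neg (NoPQ W p q) S 4)
    (hpos : ∀ s ∈ S, ∀ t ∈ S, ∀ x l, W s t x l → ¬ IsPQ p q s t → 1 ≤ l) :
    WGr (Ext W S2 a b) ∧ Neg (Ext W S2 a b) S1 3 ∧ Neg (NoPQ (Ext W S2 a b) p q) S1 4 ∧
      (∀ s ∈ S1, ∀ t ∈ S1, ∀ x l, Ext W S2 a b s t x l → ¬ IsPQ p q s t → 1 ≤ l) := by
  have hexp : ∀ {s t : V} {x : ℤ} {l : ℕ}, Wk (Ext W S2 a b) S1 s t x l →
      ∃ y, Even (y - x) ∧ Wk W S s t y l := by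
    intro s t x l h
    induction h with
    | nil s hs => exact ⟨0, by simp, Wk.nil s (h1S hs)⟩
    | @cons s u t x y l m hs h tl ih =>
      obtain ⟨z, hz, hw⟩ := ih
      have hu : u ∈ S := h1S tl.left_mem
      rcases h with h | ⟨-, y', hy', hw'⟩
      · refine ⟨x + z, ?_, (Wk.single (h1S hs) hu h).trans hw⟩
        have e : x + z - (x + y) = z - y := by ring
        rw [e]; exact hz
      · refine ⟨y' + z, ?_, (Wk.mono h2S (fun _ _ _ _ _ _ h => h) hw').trans hw⟩
        have e : y' + z - (x + y) = (y' - x) + (z - y) := by ring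
        rw [e]; exact hy'.add hz
  -- if s t is an a b pair and not a p q pair, no pair in S2 is a p q pair
  have hnopq : ∀ s t, IsPQ a b s t → ¬ IsPQ p q s t → ∀ s' ∈ S2, ∀ t' ∈ S2, ¬ IsPQ p q s' t' := by
    intro s t h1 h2 s' hs' t' ht' h'
    have h'' := hpq s' hs' t' ht' h'
    apply h2
    rcases h1 with ⟨r1, r2⟩ | ⟨r1, r2⟩ <;> rcases h' with ⟨r3, r4⟩ | ⟨r3, r4⟩ <;> rcases h'' with ⟨r5, r6⟩ | ⟨r5, r6⟩ <;>
      subst r1 <;> subst r2 <;> subst r3 <;> subst r4 <;> first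
      | exact Or.inl ⟨r5.symm, r6.symm⟩
      | exact Or.inr ⟨r5.symm, r6.symm⟩
      | exact Or.inl ⟨r6.symm, r5.symm⟩
      | exact Or.inr ⟨r6.symm, r5.symm⟩
  have hexp2 : ∀ {s t : V} {x : ℤ} {l : ℕ}, Wk (NoPQ (Ext W S2 a b) p q) S1 s t x l →
      ∃ y, Even (y - x) ∧ Wk (NoPQ W p q) S s t y l := by
    intro s t x l h
    induction h with
    | nil s hs => exact ⟨0, by simp, Wk.nil s (h1S hs)⟩
    | @cons s u t x y l m hs h tl ih =>
      obtain ⟨z, hz, hw⟩ := ih
      have hu : u ∈ S := h1S tl.left_mem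
      obtain ⟨h, hn⟩ := h
      rcases h with h | ⟨hab', y', hy', hw'⟩
      · refine ⟨x + z, ?_, (Wk.single (h1S hs) hu ⟨h, hn⟩).trans hw⟩
        have e : x + z - (x + y) = z - y := by ring
        rw [e]; exact hz
      · have hno := hnopq s u hab' hn
        refine ⟨y' + z, ?_, (Wk.mono h2S (fun c hc d hd _ _ h => ⟨h, hno c hc d hd⟩) hw').trans hw⟩
        have e : y' + z - (x + y) = (y' - x) + (z - y) := by ring
        rw [e]; exact hy'.add hz
  refine ⟨⟨?_, ?_, ?_⟩, ?_, ?_, ?_⟩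
  · rintro s t x l (h | ⟨h, y, hy, hw⟩)
    · exact Or.inl (hW.symm _ _ _ _ h)
    · refine Or.inr ⟨h.swap, -y, ?_, Wk.symm hW.symm hw⟩
      have e : -y - -x = -(y - x) := by ring
      rw [e]; exact hy.neg
  · rintro s t x l (h | ⟨h, y, hy, hw⟩)
    · exact Or.inl (hW.par _ _ _ _ h)
    · refine Or.inr ⟨h, y, ?_, hw⟩
      have e : y - (x + 2) = (y - x) - 2 := by ring
      rw [e]; exact hy.sub even_two
  · rintro s t x l (h | ⟨h, -⟩)
    · exact hW.irr _ _ _ _ h
    · rcases h with ⟨h1, h2⟩ | ⟨h1, h2⟩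
      · rw [h1, h2]; exact hab
      · rw [h1, h2]; exact hab.symm
  · intro s x l h hx
    obtain ⟨y, hy, hw⟩ := hexp h
    refine h3 s y l hw ?_
    have e : y = (y - x) + x := by ring
    rw [e]; exact hy.add_odd hx
  · intro s x l h hx
    obtain ⟨y, hy, hw⟩ := hexp2 h
    refine h4 s y l hw ?_
    have e : y = (y - x) + x := by ring
    rw [e]; exact hy.add_odd hx
  · intro s hs t ht x l h hn
    rcases h with h | ⟨hab', y, hy, hw⟩
    · exact hpos s (h1S hs) t (h1S ht) x l h hn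
    · have hno := hnopq s t hab' hn
      have hst : s ≠ t := by
        rcases hab' with ⟨h1, h2⟩ | ⟨h1, h2⟩
        · rw [h1, h2]; exact hab
        · rw [h1, h2]; exact hab.symm
      cases hw with
      | nil _ => exact absurd rfl hst
      | @cons _ c _ x1 y1 l1 m1 ha h1 t1 =>
        have := hpos s (h2S ha) c (h2S t1.left_mem) _ _ h1 (hno s ha c t1.left_mem)
        omega

end SgK4


/-! ### ext_ok2 -/

namespace SgK4
variable {V : Type}

/-- properties of `Ext` on the side `S2` (the walks through `S1` are added), with new root pair `a b` -/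
theorem ext_ok2 (W : V → V → ℤ → ℕ → Prop) (hW : WGr W) (S S1 S2 : Finset V) (a b p q : V) (hab : a ≠ b)
    (h1S : S1 ⊆ S) (h2S : S2 ⊆ S)
    (hpq : ∀ s ∈ S2, ∀ t ∈ S2, IsPQ p q s t → IsPQ a b s t)
    (h3 : Neg W S 3) (h4 : Neg (NoPQ W p q) S 4)
    (hpos : ∀ s ∈ S, ∀ t ∈ S, ∀ x l, W s t x l → ¬ IsPQ p q s t → 1 ≤ l) :
    WGr (Ext W S1 a b) ∧ Neg (Ext W S1 a b) S2 3 ∧ Neg (NoPQ (Ext W S1 a b) a b) S2 4 ∧
      (∀ s ∈ S2, ∀ t ∈ S2, ∀ x l, Ext W S1 a b s t x l → ¬ IsPQ a b s t → 1 ≤ l) := by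
  have hexp : ∀ {s t : V} {x : ℤ} {l : ℕ}, Wk (Ext W S1 a b) S2 s t x l →
      ∃ y, Even (y - x) ∧ Wk W S s t y l := by
    intro s t x l h
    induction h with
    | nil s hs => exact ⟨0, by simp, Wk.nil s (h2S hs)⟩
    | @cons s u t x y l m hs h tl ih =>
      obtain ⟨z, hz, hw⟩ := ih
      have hu : u ∈ S := h2S tl.left_mem
      rcases h with h | ⟨-, y', hy', hw'⟩
      · refine ⟨x + z, ?_, (Wk.single (h2S hs) hu h).trans hw⟩
        have e : x + z - (x + y) = z - y := by ring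
        rw [e]; exact hz
      · refine ⟨y' + z, ?_, (Wk.mono h1S (fun _ _ _ _ _ _ h => h) hw').trans hw⟩
        have e : y' + z - (x + y) = (y' - x) + (z - y) := by ring
        rw [e]; exact hy'.add hz
  have hold : ∀ s ∈ S2, ∀ t ∈ S2, ∀ x l, Ext W S1 a b s t x l → ¬ IsPQ a b s t →
      W s t x l ∧ ¬ IsPQ p q s t := by
    intro s hs t ht x l h hn
    refine ⟨?_, fun h' => hn (hpq s hs t ht h')⟩
    rcases h with h | ⟨h, -⟩
    · exact h
    · exact absurd h hn
  refine ⟨⟨?_, ?_, ?_⟩, ?_, ?_, ?_⟩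
  · rintro s t x l (h | ⟨h, y, hy, hw⟩)
    · exact Or.inl (hW.symm _ _ _ _ h)
    · refine Or.inr ⟨h.swap, -y, ?_, Wk.symm hW.symm hw⟩
      have e : -y - -x = -(y - x) := by ring
      rw [e]; exact hy.neg
  · rintro s t x l (h | ⟨h, y, hy, hw⟩)
    · exact Or.inl (hW.par _ _ _ _ h)
    · refine Or.inr ⟨h, y, ?_, hw⟩
      have e : y - (x + 2) = (y - x) - 2 := by ring
      rw [e]; exact hy.sub even_two
  · rintro s t x l (h | ⟨h, -⟩)
    · exact hW.irr _ _ _ _ h
    · rcases h with ⟨h1, h2⟩ | ⟨h1, h2⟩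
      · rw [h1, h2]; exact hab
      · rw [h1, h2]; exact hab.symm
  · intro s x l h hx
    obtain ⟨y, hy, hw⟩ := hexp h
    refine h3 s y l hw ?_
    have e : y = (y - x) + x := by ring
    rw [e]; exact hy.add_odd hx
  · intro s x l h hx
    exact h4 s x l (Wk.mono h2S (fun s hs t ht x l h => hold s hs t ht x l h.1 h.2) h) hx
  · intro s hs t ht x l h hn
    obtain ⟨h5, h6⟩ := hold s hs t ht x l h hn
    exact hpos s (h2S hs) t (h2S ht) x l h5 h6

end SgK4


/-! ### root_ok -/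

namespace SgK4
variable {V : Type}


/-- coarse relation -/
def RC (P : V → ℤ) (s t : V) (x : ℤ) (l : ℕ) : Prop := ∃ k : ℤ, |P t - P s + 3 * x + 6 * k| ≤ (l : ℤ)

theorem RC.trans {P : V → ℤ} {s t u : V} {x y : ℤ} {l m : ℕ} (h1 : RC P s t x l) (h2 : RC P t u y m) :
    RC P s u (x + y) (l + m) := by
  obtain ⟨k1, hk1⟩ := h1
  obtain ⟨k2, hk2⟩ := h2
  refine ⟨k1 + k2, ?_⟩
  rw [abs_le] at *
  push_cast
  constructor <;> linarith [hk1.1, hk1.2, hk2.1, hk2.2]

theorem RC.symm {P : V → ℤ} {s t : V} {x : ℤ} {l : ℕ} (h1 : RC P s t x l) : RC P t s (-x) l := by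
  obtain ⟨k1, hk1⟩ := h1
  refine ⟨-k1, ?_⟩
  rw [abs_le] at *
  constructor <;> linarith [hk1.1, hk1.2]

theorem root_decomp (W : V → V → ℤ → ℕ → Prop) (S2 : Finset V) (a b : V) (d : ℕ) (P : V → ℤ)
    (hCW : ∀ s t x l, (s = a ∨ s = b) → (t = a ∨ t = b) → Wk W S2 s t x l → RC P s t x l)
    (hCN : ∀ s t x l, IsPQ a b s t → ((Even x ∧ l = d) ∨ (Odd x ∧ l = 3 - d)) → RC P s t x l)
    {s t : V} {x : ℤ} {l : ℕ} (h : Wk (Root W a b d) S2 s t x l) :
    Wk W S2 s t x l ∨ ∃ (u v : V) (x1 x2 x3 : ℤ) (l1 l2 l3 : ℕ), (u = a ∨ u = b) ∧ (v = a ∨ v = b) ∧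
      Wk W S2 s u x1 l1 ∧ RC P u v x2 l2 ∧ Wk W S2 v t x3 l3 ∧ x = x1 + x2 + x3 ∧ l = l1 + l2 + l3 := by
  induction h with
  | nil s hs => left; exact Wk.nil s hs
  | @cons s u' t y y' m m' hs h hw ih =>
    rcases h with h | ⟨hpq, hl⟩
    · rcases ih with ih | ⟨u, v, x1, x2, x3, l1, l2, l3, hu, hv, w1, c, w3, ex, el⟩
      · left; exact Wk.cons hs h ih
      · right
        exact ⟨u, v, y + x1, x2, x3, m + l1, l2, l3, hu, hv, Wk.cons hs h w1, c, w3,
          by rw [ex]; ring, by rw [el]; ring⟩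
    · have hs' : s = a ∨ s = b := by
        rcases hpq with ⟨h1, _⟩ | ⟨h1, _⟩
        · exact Or.inl h1
        · exact Or.inr h1
      have hu' : u' = a ∨ u' = b := by
        rcases hpq with ⟨_, h1⟩ | ⟨_, h1⟩
        · exact Or.inr h1
        · exact Or.inl h1
      have hc := hCN _ _ _ _ hpq hl
      right
      rcases ih with ih | ⟨u, v, x1, x2, x3, l1, l2, l3, hu, hv, w1, c, w3, ex, el⟩
      · exact ⟨s, u', 0, y, y', 0, m, m', hs', hu', Wk.nil s hs, hc, ih, by ring, by ring⟩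
      · have hc2 := hCW _ _ _ _ hu' hu w1
        exact ⟨s, v, 0, y + x1 + x2, x3, 0, m + l1 + l2, l3, hs', hv, Wk.nil s hs, (hc.trans hc2).trans c, w3,
          by rw [ex]; ring, by rw [el]; ring⟩

/-- properties of `Root` on the side `S2`, `A`, `B` are the positions of `a`, `b` on the hexagon, at distance `d` -/
theorem root_ok (W : V → V → ℤ → ℕ → Prop) (hW : WGr W) (S S2 : Finset V) (a b p q : V) (hab : a ≠ b)
    (ha : a ∈ S2) (hb : b ∈ S2) (h2S : S2 ⊆ S)
    (hpq : ∀ s ∈ S2, ∀ t ∈ S2, IsPQ p q s t → IsPQ a b s t)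
    (h3 : Neg W S 3) (h4 : Neg (NoPQ W p q) S 4)
    (hpos : ∀ s ∈ S, ∀ t ∈ S, ∀ x l, W s t x l → ¬ IsPQ p q s t → 1 ≤ l)
    (A B : ℤ) (d : ℕ) (hd : d ≤ 3) (hAB : ∃ k : ℤ, B - A + 6 * k = d ∨ B - A + 6 * k = -d)
    (hwalk : ∀ x l, Wk W S2 a b x l → ∃ k : ℤ, |B - A + 3 * x + 6 * k| ≤ (l : ℤ)) :
    WGr (Root W a b d) ∧ Neg (Root W a b d) S2 3 ∧ Neg (NoPQ (Root W a b d) a b) S2 4 ∧
      (∀ s ∈ S2, ∀ t ∈ S2, ∀ x l, Root W a b d s t x l → ¬ IsPQ a b s t → 1 ≤ l) := by
  have hWR : WGr (Root W a b d) := by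
    refine ⟨?_, ?_, ?_⟩
    · rintro s t x l (h | ⟨h1, h2⟩)
      · exact Or.inl (hW.symm _ _ _ _ h)
      · refine Or.inr ⟨h1.swap, ?_⟩
        rcases h2 with ⟨h2, h3⟩ | ⟨h2, h3⟩
        · exact Or.inl ⟨h2.neg, h3⟩
        · exact Or.inr ⟨h2.neg, h3⟩
    · rintro s t x l (h | ⟨h1, h2⟩)
      · exact Or.inl (hW.par _ _ _ _ h)
      · refine Or.inr ⟨h1, ?_⟩
        rcases h2 with ⟨h2, h3⟩ | ⟨h2, h3⟩
        · exact Or.inl ⟨h2.add even_two, h3⟩
        · exact Or.inr ⟨h2.add_even even_two, h3⟩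
    · rintro s t x l (h | ⟨h1, h2⟩)
      · exact hW.irr _ _ _ _ h
      · rcases h1 with ⟨h1, h3⟩ | ⟨h1, h3⟩
        · rw [h1, h3]; exact hab
        · rw [h1, h3]; exact hab.symm
  set P : V → ℤ := fun s => if s = a then A else B with hP
  have hPa : P a = A := by simp [hP]
  have hPb : P b = B := by simp [hP, hab.symm]
  have hCself : ∀ s x l, Wk W S2 s s x l → RC P s s x l := by
    intro s x l hw
    rcases Int.even_or_odd x with hx | hx
    · obtain ⟨m, hm⟩ := hx
      refine ⟨-m, ?_⟩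
      rw [abs_le]
      constructor <;> push_cast <;> omega
    · have h3l := h3 s x l (hw.mono h2S (fun _ _ _ _ _ _ h => h)) hx
      obtain ⟨m, hm⟩ := hx
      refine ⟨-m, ?_⟩
      rw [abs_le]
      constructor <;> omega
  have hCW : ∀ s t x l, (s = a ∨ s = b) → (t = a ∨ t = b) → Wk W S2 s t x l → RC P s t x l := by
    have hab' : ∀ x l, Wk W S2 a b x l → RC P a b x l := by
      intro x l hw
      obtain ⟨k, hk⟩ := hwalk x l hw
      exact ⟨k, by rw [hPa, hPb]; exact hk⟩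
    rintro s t x l (rfl | rfl) (rfl | rfl) hw
    · exact hCself _ _ _ hw
    · exact hab' _ _ hw
    · have := (hab' _ _ (hw.symm hW.symm)).symm
      rwa [neg_neg] at this
    · exact hCself _ _ _ hw
  have hCN : ∀ s t x l, IsPQ a b s t → ((Even x ∧ l = d) ∨ (Odd x ∧ l = 3 - d)) → RC P s t x l := by
    have hCN' : ∀ x l, ((Even x ∧ l = d) ∨ (Odd x ∧ l = 3 - d)) → RC P a b x l := by
      intro x l hl
      obtain ⟨k, hk⟩ := hAB
      rcases hl with ⟨⟨m, hm⟩, hl⟩ | ⟨⟨m, hm⟩, hl⟩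
      · refine ⟨k - m, ?_⟩
        rw [hPa, hPb, abs_le]
        rcases hk with hk | hk <;> constructor <;> omega
      · rcases hk with hk | hk
        · refine ⟨k - m - 1, ?_⟩
          rw [hPa, hPb, abs_le]
          constructor <;> omega
        · refine ⟨k - m, ?_⟩
          rw [hPa, hPb, abs_le]
          constructor <;> omega
    rintro s t x l (⟨rfl, rfl⟩ | ⟨rfl, rfl⟩) hl
    · exact hCN' _ _ hl
    · have : RC P t s (-x) l := by
        apply hCN'
        rcases hl with ⟨h1, h2⟩ | ⟨h1, h2⟩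
        · exact Or.inl ⟨h1.neg, h2⟩
        · exact Or.inr ⟨h1.neg, h2⟩
      have := this.symm
      rwa [neg_neg] at this
  refine ⟨hWR, ?_, ?_, ?_⟩
  · intro s x l hw hx
    rcases root_decomp W S2 a b d P hCW hCN hw with h | ⟨u, v, x1, x2, x3, l1, l2, l3, hu, hv, w1, c, w3, ex, el⟩
    · exact h3 s x l (h.mono h2S (fun _ _ _ _ _ _ h => h)) hx
    · have h1 := hCW _ _ _ _ hv hu (w3.trans w1)
      obtain ⟨k, hk⟩ := c.trans h1
      have : P u - P u + 3 * (x2 + (x3 + x1)) + 6 * k = 3 * x + 6 * k := by rw [ex]; ring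
      rw [this, abs_le] at hk
      obtain ⟨m, hm⟩ := hx
      have hk1 := hk.1
      have hk2 := hk.2
      push_cast at hk1 hk2
      omega
  · intro s x l hw hx
    refine h4 s x l (hw.mono h2S ?_) hx
    rintro s hs t ht x l ⟨h1 | ⟨h1, _⟩, h2⟩
    · exact ⟨h1, fun h => h2 (hpq s hs t ht h)⟩
    · exact absurd h1 h2
  · rintro s hs t ht x l (h1 | ⟨h1, _⟩) h2
    · exact hpos s (h2S hs) t (h2S ht) x l h1 (fun h => h2 (hpq s hs t ht h))
    · exact absurd h1 h2

end SgK4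


/-! ### ok4_ext_bal -/

namespace SgK4
variable {V : Type}
/-! dependency (proved elsewhere, may be used) -/



/-! TARGET -/

theorem wk_bal {W : V → V → ℤ → ℕ → Prop} {S2 : Finset V} {h : V → ℤ}
    (hb : ∀ a ∈ S2, ∀ b ∈ S2, ∀ x, Sup W a b x → Even (x - (h b - h a))) {s t : V} {y : ℤ} {l : ℕ}
    (hw : Wk W S2 s t y l) : Even (y - (h t - h s)) := by
  induction hw with
  | nil a ha => simp
  | @cons a b c x y l m ha hW t ih =>
    obtain ⟨p, hp⟩ := hb a ha b t.left_mem x ⟨_, hW⟩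
    obtain ⟨r, hr⟩ := ih
    exact ⟨p + r, by omega⟩

/-- replacing a balanced side by an edge does not create an odd K4 -/
theorem ok4_ext_bal (W : V → V → ℤ → ℕ → Prop) (hW : WGr W) (S S1 S2 : Finset V) (a b : V) (hab : a ≠ b)
    (hS : S1 ∪ S2 = S) (hI : ∀ t, t ∈ S1 → t ∈ S2 → t = a ∨ t = b)
    (ha1 : a ∈ S1) (ha2 : a ∈ S2) (hb1 : b ∈ S1) (hb2 : b ∈ S2) (hbal : Bal (Sup W) S2)
    (hconn : Conn (Adj (Sup W)) (S2.erase b)) (hnb : ∃ s ∈ S2, Adj (Sup W) s b) :
    OddK4 (Sup (Ext W S2 a b)) S1 → OddK4 (Sup W) S := by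
  obtain ⟨h, hb⟩ := hbal
  have hE : SGr (Sup W) := hW.sup
  have ha2b : a ∈ S2 ∧ a ≠ b := ⟨ha2, hab⟩
  have hφ1 : ∀ t, t ∈ S1 → (if t ∈ S2 ∧ t ≠ b then a else t) = t := by
    intro t ht
    split_ifs with hc
    · rcases hI t ht hc.1 with h1 | h1
      · exact h1.symm
      · exact absurd h1 hc.2
    · rfl
  have hH1 : ∀ t, t ∈ S1 → (if t ∈ S2 ∧ t ≠ b then h t - h a else 0) = 0 := by
    intro t ht
    split_ifs with hc
    · rcases hI t ht hc.1 with h1 | h1
      · rw [h1, sub_self]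
      · exact absurd h1 hc.2
    · rfl
  have hS1 : ∀ t, t ∈ S1 → t ∈ S := fun t ht => hS ▸ Finset.mem_union_left _ ht
  have hS2 : ∀ t, t ∈ S2 → t ∈ S := fun t ht => hS ▸ Finset.mem_union_right _ ht
  refine oddK4_quot hE (fun t => if t ∈ S2 ∧ t ≠ b then a else t)
    (fun t => if t ∈ S2 ∧ t ≠ b then h t - h a else 0) ?_ ?_ ?_
  · intro t ht
    show (if t ∈ S2 ∧ t ≠ b then a else t) ∈ S1
    split_ifs with hc
    · exact ha1
    · rw [← hS] at ht
      rcases Finset.mem_union.1 ht with h1 | h1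
      · exact h1
      · have : t = b := by
          by_contra h2; exact hc ⟨h1, h2⟩
        rw [this]; exact hb1
  · intro s hs
    by_cases hsa : s = a
    · subst hsa
      have hfil : S.filter (fun t => (if t ∈ S2 ∧ t ≠ b then s else t) = s) = S2.erase b := by
        ext t
        rw [Finset.mem_filter, Finset.mem_erase]
        constructor
        · rintro ⟨h1, h2⟩
          by_cases hc : t ∈ S2 ∧ t ≠ b
          · exact ⟨hc.2, hc.1⟩
          · rw [if_neg hc] at h2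
            rw [h2]; exact ⟨hab, ha2⟩
        · rintro ⟨h1, h2⟩
          exact ⟨hS2 t h2, by rw [if_pos ⟨h2, h1⟩]⟩
      show Conn _ (S.filter (fun t => (if t ∈ S2 ∧ t ≠ b then s else t) = s))
      rw [hfil]
      refine hconn.mono fun c hc d hd hcd => ?_
      obtain ⟨x, hx⟩ := hcd
      rw [Finset.mem_erase] at hc hd
      have h1 := hb c hc.2 d hd.2 x hx
      show Sup W c d ((if d ∈ S2 ∧ d ≠ b then h d - h s else 0) -
        (if c ∈ S2 ∧ c ≠ b then h c - h s else 0))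
      rw [if_pos ⟨hd.2, hd.1⟩, if_pos ⟨hc.2, hc.1⟩]
      refine hE.evn hx ?_
      obtain ⟨p, hp⟩ := h1
      exact ⟨-p, by omega⟩
    · have hfil : S.filter (fun t => (if t ∈ S2 ∧ t ≠ b then a else t) = s) = {s} := by
        ext t
        rw [Finset.mem_filter, Finset.mem_singleton]
        constructor
        · rintro ⟨h1, h2⟩
          by_cases hc : t ∈ S2 ∧ t ≠ b
          · rw [if_pos hc] at h2; exact absurd h2.symm hsa
          · rw [if_neg hc] at h2; exact h2
        · rintro rfl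
          exact ⟨hS1 t hs, hφ1 t hs⟩
      show Conn _ (S.filter (fun t => (if t ∈ S2 ∧ t ≠ b then a else t) = s))
      rw [hfil]
      exact Conn.single _ s
  · intro s hs s' hs' x hx hne
    obtain ⟨l, hx | ⟨hpq, y, hy, hw⟩⟩ := hx
    · refine ⟨s, hS1 s hs, s', hS1 s' hs', hφ1 s hs, hφ1 s' hs', ?_⟩
      show Sup W s s' (x + (if s' ∈ S2 ∧ s' ≠ b then h s' - h a else 0) -
        (if s ∈ S2 ∧ s ≠ b then h s - h a else 0))
      rw [hH1 s hs, hH1 s' hs', add_zero, sub_zero]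
      exact ⟨l, hx⟩
    · obtain ⟨s0, hs0, z, hz⟩ := hnb
      have hs0b : s0 ≠ b := hE.irr _ _ _ hz
      have h3 := hb s0 hs0 b hb2 z hz
      have h4 := wk_bal hb hw
      have hφ0 : (if s0 ∈ S2 ∧ s0 ≠ b then a else s0) = a := if_pos ⟨hs0, hs0b⟩
      have hH0 : (if s0 ∈ S2 ∧ s0 ≠ b then h s0 - h a else 0) = h s0 - h a := if_pos ⟨hs0, hs0b⟩
      have hHb := hH1 b hb1
      rcases hpq with ⟨h1, h2⟩ | ⟨h1, h2⟩
      · subst h1; subst h2
        refine ⟨s0, hS2 s0 hs0, s', hS1 s' hs', hφ0, hφ1 s' hs', ?_⟩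
        show Sup W s0 s' (x + (if s' ∈ S2 ∧ s' ≠ s' then h s' - h s else 0) -
          (if s0 ∈ S2 ∧ s0 ≠ s' then h s0 - h s else 0))
        rw [hHb, hH0]
        refine hE.evn hz ?_
        obtain ⟨p, hp⟩ := h3
        obtain ⟨r, hr⟩ := h4
        obtain ⟨u, hu⟩ := hy
        exact ⟨r - p - u, by omega⟩
      · subst h1; subst h2
        refine ⟨s, hS1 s hs, s0, hS2 s0 hs0, hφ1 s hs, hφ0, ?_⟩
        show Sup W s s0 (x + (if s0 ∈ S2 ∧ s0 ≠ s then h s0 - h s' else 0) -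
          (if s ∈ S2 ∧ s ≠ s then h s - h s' else 0))
        rw [hHb, hH0]
        refine hE.evn (hE.symm _ _ _ hz) ?_
        obtain ⟨p, hp⟩ := h3
        obtain ⟨r, hr⟩ := h4
        obtain ⟨u, hu⟩ := hy
        exact ⟨r + p - u, by omega⟩

end SgK4


/-! ### ok4_dig -/

namespace SgK4
variable {V : Type}
/-! dependency (proved elsewhere, may be used) -/



/-! TARGET -/

/-- replacing an unbalanced side by a digon does not create an odd K4 -/
theorem ok4_dig (E E' : V → V → ℤ → Prop) (hE : SGr E) (S S1 S2 : Finset V) (a b : V) (hab : a ≠ b)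
    (hS : S1 ∪ S2 = S) (hI : ∀ t, t ∈ S1 → t ∈ S2 → t = a ∨ t = b)
    (ha1 : a ∈ S1) (hb1 : b ∈ S1) (Y Z : Finset V) (h : V → ℤ) (haY : a ∈ Y) (hbZ : b ∈ Z) (hYZ : Disjoint Y Z)
    (hU : Y ∪ Z = S2) (hY : Conn (Fl E h) Y) (hZ : Conn (Fl E h) Z)
    (he0 : ∃ s ∈ Y, ∃ t ∈ Z, E s t (h t - h s)) (he1 : ∃ s ∈ Y, ∃ t ∈ Z, E s t (h t - h s + 1))
    (hE' : ∀ s ∈ S1, ∀ t ∈ S1, ∀ x, E' s t x → E s t x ∨ IsPQ a b s t) :
    OddK4 E' S1 → OddK4 E S := by
  have hYS2 : ∀ t, t ∈ Y → t ∈ S2 := fun t ht => hU ▸ Finset.mem_union_left _ ht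
  have hZS2 : ∀ t, t ∈ Z → t ∈ S2 := fun t ht => hU ▸ Finset.mem_union_right _ ht
  have hS1S : ∀ t, t ∈ S1 → t ∈ S := fun t ht => hS ▸ Finset.mem_union_left _ ht
  have hS2S : ∀ t, t ∈ S2 → t ∈ S := fun t ht => hS ▸ Finset.mem_union_right _ ht
  have haZ : a ∉ Z := fun h' => Finset.disjoint_left.mp hYZ haY h'
  have hbY : b ∉ Y := fun h' => Finset.disjoint_left.mp hYZ h' hbZ
  have hnY : ∀ t ∈ S1, t ≠ a → t ≠ b → t ∉ Y := by
    intro t ht h1 h2 h3
    rcases hI t ht (hYS2 t h3) with h4 | h4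
    · exact h1 h4
    · exact h2 h4
  have hnZ : ∀ t ∈ S1, t ≠ a → t ≠ b → t ∉ Z := by
    intro t ht h1 h2 h3
    rcases hI t ht (hZS2 t h3) with h4 | h4
    · exact h1 h4
    · exact h2 h4
  set φ : V → V := fun t => if t ∈ Y then a else if t ∈ Z then b else t with hφ
  set H : V → ℤ := fun t => if t ∈ Y then h t - h a else if t ∈ Z then h t - h b else 0 with hH
  have φY : ∀ t ∈ Y, φ t = a := fun t ht => by simp only [hφ, if_pos ht]
  have φZ : ∀ t ∈ Z, φ t = b := fun t ht => by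
    have : t ∉ Y := fun h' => Finset.disjoint_left.mp hYZ h' ht
    simp only [hφ, if_neg this, if_pos ht]
  have φo : ∀ t, t ∉ Y → t ∉ Z → φ t = t := fun t h1 h2 => by simp only [hφ, if_neg h1, if_neg h2]
  have HY : ∀ t ∈ Y, H t = h t - h a := fun t ht => by simp only [hH, if_pos ht]
  have HZ : ∀ t ∈ Z, H t = h t - h b := fun t ht => by
    have : t ∉ Y := fun h' => Finset.disjoint_left.mp hYZ h' ht
    simp only [hH, if_neg this, if_pos ht]
  have Ho : ∀ t, t ∉ Y → t ∉ Z → H t = 0 := fun t h1 h2 => by simp only [hH, if_neg h1, if_neg h2]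
  have φS1 : ∀ t ∈ S1, φ t = t := by
    intro t ht
    by_cases h1 : t = a
    · rw [h1]; exact φY a haY
    · by_cases h2 : t = b
      · rw [h2]; exact φZ b hbZ
      · exact φo t (hnY t ht h1 h2) (hnZ t ht h1 h2)
  have HS1 : ∀ t ∈ S1, H t = 0 := by
    intro t ht
    by_cases h1 : t = a
    · rw [h1, HY a haY]; ring
    · by_cases h2 : t = b
      · rw [h2, HZ b hbZ]; ring
      · exact Ho t (hnY t ht h1 h2) (hnZ t ht h1 h2)
  apply oddK4_quot hE φ H
  · intro t ht
    by_cases h1 : t ∈ Y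
    · rw [φY t h1]; exact ha1
    · by_cases h2 : t ∈ Z
      · rw [φZ t h2]; exact hb1
      · rw [φo t h1 h2]
        rw [← hS] at ht
        rcases Finset.mem_union.mp ht with h3 | h3
        · exact h3
        · rw [← hU] at h3
          rcases Finset.mem_union.mp h3 with h4 | h4
          · exact absurd h4 h1
          · exact absurd h4 h2
  · intro s hs
    by_cases h1 : s = a
    · have hf : S.filter (fun t => φ t = s) = Y := by
        ext t
        rw [Finset.mem_filter, h1]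
        constructor
        · rintro ⟨_, h3⟩
          by_contra h4
          by_cases h5 : t ∈ Z
          · rw [φZ t h5] at h3; exact hab h3.symm
          · rw [φo t h4 h5] at h3; exact h4 (h3 ▸ haY)
        · intro h3
          exact ⟨hS2S t (hYS2 t h3), φY t h3⟩
      rw [hf]
      refine hY.mono fun c hc d hd hcd => ?_
      unfold Fl at *
      rw [HY c hc, HY d hd]
      convert hcd using 1; ring
    · by_cases h2 : s = b
      · have hf : S.filter (fun t => φ t = s) = Z := by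
          ext t
          rw [Finset.mem_filter, h2]
          constructor
          · rintro ⟨_, h3⟩
            by_contra h4
            by_cases h5 : t ∈ Y
            · rw [φY t h5] at h3; exact hab h3
            · rw [φo t h5 h4] at h3; exact h4 (h3 ▸ hbZ)
          · intro h3
            exact ⟨hS2S t (hZS2 t h3), φZ t h3⟩
        rw [hf]
        refine hZ.mono fun c hc d hd hcd => ?_
        unfold Fl at *
        rw [HZ c hc, HZ d hd]
        convert hcd using 1; ring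
      · have hf : S.filter (fun t => φ t = s) = {s} := by
          ext t
          rw [Finset.mem_filter, Finset.mem_singleton]
          constructor
          · rintro ⟨_, h3⟩
            by_cases h4 : t ∈ Y
            · rw [φY t h4] at h3; exact absurd h3.symm h1
            · by_cases h5 : t ∈ Z
              · rw [φZ t h5] at h3; exact absurd h3.symm h2
              · rw [φo t h4 h5] at h3; exact h3
          · rintro rfl
            exact ⟨hS1S t hs, φS1 t hs⟩
        rw [hf]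
        exact Conn.single _ s
  · intro s hs s' hs' x hx hne
    rcases hE' s hs s' hs' x hx with h1 | ⟨h1, h2⟩ | ⟨h1, h2⟩
    · refine ⟨s, hS1S s hs, s', hS1S s' hs', φS1 s hs, φS1 s' hs', ?_⟩
      rw [HS1 s hs, HS1 s' hs']
      convert h1 using 1; ring
    · obtain ⟨p, hp, q, hq, hpq⟩ := he0
      obtain ⟨p', hp', q', hq', hpq'⟩ := he1
      rcases Int.even_or_odd (x - h b + h a) with hev | hod
      · refine ⟨p, hS2S p (hYS2 p hp), q, hS2S q (hZS2 q hq), ?_, ?_, ?_⟩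
        · rw [φY p hp, h1]
        · rw [φZ q hq, h2]
        · rw [HY p hp, HZ q hq]
          apply hE.evn hpq
          convert hev using 1; ring
      · refine ⟨p', hS2S p' (hYS2 p' hp'), q', hS2S q' (hZS2 q' hq'), ?_, ?_, ?_⟩
        · rw [φY p' hp', h1]
        · rw [φZ q' hq', h2]
        · rw [HY p' hp', HZ q' hq']
          apply hE.evn hpq'
          obtain ⟨k, hk⟩ := hod
          exact ⟨k, by linarith⟩
    · obtain ⟨p, hp, q, hq, hpq⟩ := he0
      obtain ⟨p', hp', q', hq', hpq'⟩ := he1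
      rcases Int.even_or_odd (x - h a + h b) with hev | hod
      · refine ⟨q, hS2S q (hZS2 q hq), p, hS2S p (hYS2 p hp), ?_, ?_, ?_⟩
        · rw [φZ q hq, h1]
        · rw [φY p hp, h2]
        · rw [HY p hp, HZ q hq]
          apply hE.evn (hE.symm _ _ _ hpq)
          convert hev using 1; ring
      · refine ⟨q', hS2S q' (hZS2 q' hq'), p', hS2S p' (hYS2 p' hp'), ?_, ?_, ?_⟩
        · rw [φZ q' hq', h1]
        · rw [φY p' hp', h2]
        · rw [HY p' hp', HZ q' hq']
          apply hE.evn (hE.symm _ _ _ hpq')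
          obtain ⟨k, hk⟩ := hod
          exact ⟨k + 1, by linarith⟩

end SgK4

namespace SgK4
variable {V : Type}

theorem OddK4.subset {E : V → V → ℤ → Prop} {S S' : Finset V} (h : OddK4 E S') (hS : S' ⊆ S) : OddK4 E S := by
  obtain ⟨B, p, h1, h2, h3, h4⟩ := h
  exact ⟨B, p, fun i => (h1 i).trans hS, h2, h3, h4⟩

theorem Neg.subset {W : V → V → ℤ → ℕ → Prop} {S S' : Finset V} {g : ℕ} (h : Neg W S g) (hS : S' ⊆ S) : Neg W S' g :=
  fun a x l hw ho => h a x l (hw.mono hS fun _ _ _ _ _ _ h => h) ho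

/-- gluing windings on two sets without edges across -/
theorem wind_union {W : V → V → ℤ → ℕ → Prop} (hW : WGr W) {S S1 S2 : Finset V} (hS : S1 ∪ S2 = S)
    (hsep : ∀ s ∈ S1, ∀ t ∈ S2, s ∉ S2 → t ∉ S1 → ∀ x l, ¬ W s t x l) {f1 f2 : V → ℤ} (h1 : Wind W S1 f1)
    (h2 : Wind W S2 f2) (hag : ∀ t, t ∈ S1 → t ∈ S2 → ∃ k : ℤ, f2 t = f1 t + 6 * k) : ∃ f, Wind W S f := by
  refine ⟨fun t => if t ∈ S1 then f1 t else f2 t, ?_⟩
  have hval : ∀ t ∈ S2, ∃ k : ℤ, f2 t = (if t ∈ S1 then f1 t else f2 t) + 6 * k := by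
    intro t ht
    by_cases ht1 : t ∈ S1
    · rw [if_pos ht1]; exact hag t ht1 ht
    · rw [if_neg ht1]; exact ⟨0, by ring⟩
  intro s hs t ht x l hw
  rw [← hS] at hs ht
  by_cases hb1 : s ∈ S1 ∧ t ∈ S1
  · simp only [if_pos hb1.1, if_pos hb1.2]; exact h1 s hb1.1 t hb1.2 x l hw
  by_cases hb2 : s ∈ S2 ∧ t ∈ S2
  · obtain ⟨k, hk⟩ := h2 s hb2.1 t hb2.2 x l hw
    obtain ⟨k1, hk1⟩ := hval s hb2.1
    obtain ⟨k2, hk2⟩ := hval t hb2.2
    refine ⟨k + k2 - k1, ?_⟩
    simp only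
    have : (if t ∈ S1 then f1 t else f2 t) - (if s ∈ S1 then f1 s else f2 s) + 3 * x + 6 * (k + k2 - k1)
        = f2 t - f2 s + 3 * x + 6 * k := by
      linear_combination hk1 - hk2
    rw [this]; exact hk
  exfalso
  rcases Finset.mem_union.mp hs with hs1 | hs2
  · have ht1 : t ∉ S1 := fun h => hb1 ⟨hs1, h⟩
    have ht2 : t ∈ S2 := (Finset.mem_union.mp ht).resolve_left ht1
    have hs2 : s ∉ S2 := fun h => hb2 ⟨h, ht2⟩
    exact hsep s hs1 t ht2 hs2 ht1 x l hw
  · by_cases hs1 : s ∈ S1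
    · have ht1 : t ∉ S1 := fun h => hb1 ⟨hs1, h⟩
      have ht2 : t ∈ S2 := (Finset.mem_union.mp ht).resolve_left ht1
      exact hb2 ⟨hs2, ht2⟩
    · have ht2 : t ∉ S2 := fun h => hb2 ⟨hs2, h⟩
      have ht1 : t ∈ S1 := (Finset.mem_union.mp ht).resolve_right ht2
      exact hsep t ht1 s hs2 ht2 hs1 (-x) l (hW.symm _ _ _ _ hw)

/-- connectivity facts for a side of a 2-separation -/
theorem side_H {R : V → V → Prop} {S U O : Finset V} {a b : V} (hS : U ∪ O = S)
    (hI : ∀ t, t ∈ U → t ∈ O → t = a ∨ t = b) (haU : a ∈ U) (hbU : b ∈ U) (hab : a ≠ b)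
    (hsep : ∀ s ∈ U, ∀ t ∈ O, s ∉ O → t ∉ U → ¬ R s t)
    (hconn : ∀ s ∈ S, Conn R (S.erase s)) :
    ∀ t ∈ S, ∀ J : Finset V, J ⊆ U.erase t → J.Nonempty → a ∉ J → b ∉ J →
      ∃ x ∈ J, ∃ y ∈ U.erase t, y ∉ J ∧ R x y := by
  intro t ht J hJ hne haJ hbJ
  have hUS : U ⊆ S := by rw [← hS]; exact Finset.subset_union_left
  have hJS : J ⊆ S.erase t := hJ.trans (Finset.erase_subset_erase _ hUS)
  have hproper : J ≠ S.erase t := by
    intro h
    by_cases hta : t = a
    · have : b ∈ S.erase t := Finset.mem_erase.mpr ⟨by rw [hta]; exact hab.symm, hUS hbU⟩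
      rw [← h] at this; exact hbJ this
    · have : a ∈ S.erase t := Finset.mem_erase.mpr ⟨fun h => hta h.symm, hUS haU⟩
      rw [← h] at this; exact haJ this
  obtain ⟨x, hx, y, hy, hyJ, hxy⟩ := (hconn t ht).2 J hJS hne hproper
  have hxU : x ∈ U := (Finset.mem_erase.mp (hJ hx)).2
  have hxO : x ∉ O := by
    intro h
    rcases hI x hxU h with rfl | rfl
    · exact haJ hx
    · exact hbJ hx
  obtain ⟨hyt, hyS⟩ := Finset.mem_erase.mp hy
  have hyU : y ∈ U := by
    by_contra hyU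
    have hyO : y ∈ O := by
      rw [← hS] at hyS; exact (Finset.mem_union.mp hyS).resolve_left hyU
    exact hsep x hxU y hyO hxO hyU hxy
  exact ⟨x, hx, y, Finset.mem_erase.mpr ⟨hyt, hyU⟩, hyJ, hxy⟩

theorem conn_of_H {R : V → V → Prop} (hs : ∀ x y, R x y → R y x) {U : Finset V} {a b : V} (haU : a ∈ U)
    (hab : a ≠ b) (H : ∀ J : Finset V, J ⊆ U.erase b → J.Nonempty → a ∉ J → b ∉ J →
      ∃ x ∈ J, ∃ y ∈ U.erase b, y ∉ J ∧ R x y) : Conn R (U.erase b) := by
  refine ⟨⟨a, Finset.mem_erase.mpr ⟨hab, haU⟩⟩, fun J hJ hne hJn => ?_⟩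
  have hbJ : b ∉ J := fun h => (Finset.mem_erase.mp (hJ h)).1 rfl
  by_cases haJ : a ∈ J
  · have hK : ((U.erase b) \ J).Nonempty := by
      rw [Finset.sdiff_nonempty]; intro h; exact hJn (Finset.Subset.antisymm hJ h)
    obtain ⟨x, hx, y, hy, hy', hxy⟩ := H ((U.erase b) \ J) Finset.sdiff_subset hK
      (fun h => (Finset.mem_sdiff.mp h).2 haJ) (fun h => (Finset.mem_erase.mp (Finset.mem_sdiff.mp h).1).1 rfl)
    obtain ⟨hx1, hx2⟩ := Finset.mem_sdiff.mp hx
    have hyJ : y ∈ J := by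
      by_contra h; exact hy' (Finset.mem_sdiff.mpr ⟨hy, h⟩)
    exact ⟨y, hyJ, x, hx1, hx2, hs _ _ hxy⟩
  · exact H J hJ hne haJ hbJ

/-- all the connectivity facts we need for a side `U` -/
theorem side_facts {R : V → V → Prop} (hs : ∀ x y, R x y → R y x) {S U O : Finset V} {a b : V} (hS : U ∪ O = S)
    (hI : ∀ t, t ∈ U → t ∈ O → t = a ∨ t = b) (haU : a ∈ U) (hbU : b ∈ U) (hab : a ≠ b)
    (haO : a ∈ O) (hbO : b ∈ O)
    (hsep : ∀ s ∈ U, ∀ t ∈ O, s ∉ O → t ∉ U → ¬ R s t)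
    (hconn : ∀ s ∈ S, Conn R (S.erase s)) (hUne : ∃ t ∈ U, t ≠ a ∧ t ≠ b) (hOne : ∃ t ∈ O, t ≠ a ∧ t ≠ b) :
    (∀ t ∈ U, ∀ J : Finset V, J ⊆ U.erase t → J.Nonempty → a ∉ J → b ∉ J →
      ∃ x ∈ J, ∃ y ∈ U.erase t, y ∉ J ∧ R x y) ∧ Conn R (U.erase b) ∧ (∃ s ∈ U, R s b) ∧ Conn R U := by
  have H := side_H hS hI haU hbU hab hsep hconn
  have hUS : U ⊆ S := by rw [← hS]; exact Finset.subset_union_left
  have hOS : O ⊆ S := by rw [← hS]; exact Finset.subset_union_right
  have hcb : Conn R (U.erase b) := conn_of_H hs haU hab (H b (hUS hbU))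
  have hca : Conn R (U.erase a) := conn_of_H hs hbU hab.symm (fun J hJ hne hb ha => H a (hUS haU) J hJ hne ha hb)
  obtain ⟨t1, ht1, ht1a, ht1b⟩ := hUne
  obtain ⟨t0, ht0, ht0a, ht0b⟩ := hOne
  have ht0U : t0 ∉ U := by
    intro h; rcases hI t0 h ht0 with h' | h'
    · exact ht0a h'
    · exact ht0b h'
  have hU0 : U.erase t0 = U := Finset.erase_eq_of_notMem ht0U
  -- an edge from the interior to b, and to a
  have hintb : ∃ x ∈ U, x ≠ a ∧ x ≠ b ∧ R x b := by
    obtain ⟨x, hx, y, hy, hy', hxy⟩ := H a (hUS haU) ((U.erase a).erase b) (Finset.erase_subset _ _)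
      ⟨t1, Finset.mem_erase.mpr ⟨ht1b, Finset.mem_erase.mpr ⟨ht1a, ht1⟩⟩⟩ (by simp) (by simp)
    have hyb : y = b := by
      by_contra h
      exact hy' (Finset.mem_erase.mpr ⟨h, hy⟩)
    simp only [Finset.mem_erase] at hx
    exact ⟨x, hx.2.2, hx.2.1, hx.1, hyb ▸ hxy⟩
  have hinta : ∃ x ∈ U, x ≠ a ∧ x ≠ b ∧ R x a := by
    obtain ⟨x, hx, y, hy, hy', hxy⟩ := H b (hUS hbU) ((U.erase b).erase a) (Finset.erase_subset _ _)
      ⟨t1, Finset.mem_erase.mpr ⟨ht1a, Finset.mem_erase.mpr ⟨ht1b, ht1⟩⟩⟩ (by simp) (by simp)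
    have hya : y = a := by
      by_contra h
      exact hy' (Finset.mem_erase.mpr ⟨h, hy⟩)
    simp only [Finset.mem_erase] at hx
    exact ⟨x, hx.2.2, hx.1, hx.2.1, hya ▸ hxy⟩
  refine ⟨fun t ht => H t (hUS ht), hcb, ?_, ?_⟩
  · obtain ⟨x, hx, _, _, hxb⟩ := hintb; exact ⟨x, hx, hxb⟩
  · refine ⟨⟨a, haU⟩, fun J hJ hne hJn => ?_⟩
    obtain ⟨w, hw, hwJ⟩ : ∃ w ∈ U, w ∉ J := by
      by_contra hcon; push Not at hcon
      exact hJn (Finset.Subset.antisymm hJ hcon)
    by_cases haJ : a ∈ J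
    · by_cases hbJ : b ∈ J
      · -- complement
        obtain ⟨x, hx, y, hy, hy', hxy⟩ := H t0 (hOS ht0) (U \ J) (by rw [hU0]; exact Finset.sdiff_subset)
          ⟨w, Finset.mem_sdiff.mpr ⟨hw, hwJ⟩⟩ (fun h => (Finset.mem_sdiff.mp h).2 haJ)
          (fun h => (Finset.mem_sdiff.mp h).2 hbJ)
        rw [hU0] at hy
        have hyJ : y ∈ J := by
          by_contra h; exact hy' (Finset.mem_sdiff.mpr ⟨hy, h⟩)
        exact ⟨y, hyJ, x, (Finset.mem_sdiff.mp hx).1, (Finset.mem_sdiff.mp hx).2, hs _ _ hxy⟩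
      · by_cases hJb : J = U.erase b
        · obtain ⟨x, hx, hxa, hxb, hxR⟩ := hintb
          exact ⟨x, by rw [hJb]; exact Finset.mem_erase.mpr ⟨hxb, hx⟩, b, hbU, hbJ, hxR⟩
        · have hJsub : J ⊆ U.erase b := fun t ht => Finset.mem_erase.mpr ⟨fun h => hbJ (h ▸ ht), hJ ht⟩
          obtain ⟨x, hx, y, hy, hy', hxy⟩ := hcb.2 J hJsub hne hJb
          exact ⟨x, hx, y, (Finset.mem_erase.mp hy).2, hy', hxy⟩
    · by_cases hbJ : b ∈ J
      · by_cases hJa : J = U.erase a
        · obtain ⟨x, hx, hxa, hxb, hxR⟩ := hinta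
          exact ⟨x, by rw [hJa]; exact Finset.mem_erase.mpr ⟨hxa, hx⟩, a, haU, haJ, hxR⟩
        · have hJsub : J ⊆ U.erase a := fun t ht => Finset.mem_erase.mpr ⟨fun h => haJ (h ▸ ht), hJ ht⟩
          obtain ⟨x, hx, y, hy, hy', hxy⟩ := hca.2 J hJsub hne hJa
          exact ⟨x, hx, y, (Finset.mem_erase.mp hy).2, hy', hxy⟩
      · obtain ⟨x, hx, y, hy, hy', hxy⟩ := H t0 (hOS ht0) J (by rw [hU0]; exact hJ) hne haJ hbJ
        rw [hU0] at hy
        exact ⟨x, hx, y, hy, hy', hxy⟩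

theorem dist_hex (z : ℤ) : ∃ d : ℕ, d ≤ 3 ∧ ∃ k : ℤ, z + 6 * k = d ∨ z + 6 * k = -d := by
  have h1 := Int.emod_nonneg z (by norm_num : (6:ℤ) ≠ 0)
  have h2 := Int.emod_lt_of_pos z (by norm_num : (0:ℤ) < 6)
  have h3 := Int.mul_ediv_add_emod z 6
  set r := z % 6
  set m := z / 6
  by_cases hr : r ≤ 3
  · refine ⟨r.toNat, by omega, -m, Or.inl (by omega)⟩
  · refine ⟨(6 - r).toNat, by omega, -m - 1, Or.inr (by omega)⟩

def IHyp (V : Type) (n : ℕ) : Prop :=
  ∀ m < n, ∀ (S : Finset V) (W : V → V → ℤ → ℕ → Prop) (p q : V), S.card = m → WGr W → ¬ OddK4 (Sup W) S →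
    Neg W S 3 → Neg (NoPQ W p q) S 4 →
    (∀ s ∈ S, ∀ t ∈ S, ∀ x l, W s t x l → ¬ IsPQ p q s t → 1 ≤ l) → ∃ f, Wind W S f

/-- gluing along a 2-separation -/
theorem glue2 (n : ℕ) (ih : IHyp V n) (S S1 S2 : Finset V) (W : V → V → ℤ → ℕ → Prop) (p q a b : V)
    (hW : WGr W) (hK : ¬ OddK4 (Sup W) S) (h3 : Neg W S 3) (h4 : Neg (NoPQ W p q) S 4)
    (hpos : ∀ s ∈ S, ∀ t ∈ S, ∀ x l, W s t x l → ¬ IsPQ p q s t → 1 ≤ l) (hab : a ≠ b)
    (hS : S1 ∪ S2 = S) (hI : ∀ t, t ∈ S1 → t ∈ S2 → t = a ∨ t = b)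
    (ha1 : a ∈ S1) (ha2 : a ∈ S2) (hb1 : b ∈ S1) (hb2 : b ∈ S2) (hc1 : S1.card < n) (hc2 : S2.card < n)
    (hsep : ∀ s ∈ S1, ∀ t ∈ S2, s ∉ S2 → t ∉ S1 → ∀ x l, ¬ W s t x l)
    (hconn : ∀ s ∈ S, Conn (Adj (Sup W)) (S.erase s)) (h1ne : ∃ t ∈ S1, t ≠ a ∧ t ≠ b)
    (h2ne : ∃ t ∈ S2, t ≠ a ∧ t ≠ b)
    (hpq : ∀ s ∈ S2, ∀ t ∈ S2, IsPQ p q s t → IsPQ a b s t) : ∃ f, Wind W S f := by
  have hE : SGr (Sup W) := hW.sup
  have hRs : ∀ x y, Adj (Sup W) x y → Adj (Sup W) y x := fun x y h => Adj.symm hE.symm h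
  have h1S : S1 ⊆ S := by rw [← hS]; exact Finset.subset_union_left
  have h2S : S2 ⊆ S := by rw [← hS]; exact Finset.subset_union_right
  have hI' : ∀ t, t ∈ S2 → t ∈ S1 → t = a ∨ t = b := fun t h1 h2 => hI t h2 h1
  have hS' : S2 ∪ S1 = S := by rw [Finset.union_comm]; exact hS
  have hsepR : ∀ s ∈ S1, ∀ t ∈ S2, s ∉ S2 → t ∉ S1 → ¬ Adj (Sup W) s t := by
    rintro s hs t ht h1 h2 ⟨x, l, h⟩; exact hsep s hs t ht h1 h2 x l h
  have hsepR' : ∀ s ∈ S2, ∀ t ∈ S1, s ∉ S1 → t ∉ S2 → ¬ Adj (Sup W) s t := by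
    intro s hs t ht h1 h2 h; exact hsepR t ht s hs h2 h1 (hRs _ _ h)
  obtain ⟨H1, c1b, n1b, c1⟩ := side_facts hRs hS hI ha1 hb1 hab ha2 hb2 hsepR hconn h1ne h2ne
  obtain ⟨H2, c2b, n2b, c2⟩ := side_facts hRs hS' hI' ha2 hb2 hab ha1 hb1 hsepR' hconn h2ne h1ne
  have hsup1 : ∀ s t x l, W s t x l → Ext W S2 a b s t x l := fun s t x l h => Or.inl h
  by_cases hbal2 : Bal (Sup W) S2
  · obtain ⟨e1, e2, e3, e4⟩ := ext_ok W hW S S1 S2 a b p q hab h1S h2S hpq h3 h4 hpos
    obtain ⟨f1, hf1⟩ := ih S1.card hc1 S1 (Ext W S2 a b) p q rfl e1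
      (fun h => hK (ok4_ext_bal W hW S S1 S2 a b hab hS hI ha1 ha2 hb1 hb2 hbal2 c2b n2b h)) e2 e3 e4
    obtain ⟨f2, hfa, hfb, hf2⟩ := bal_ext W hW S2 a b ha2 hb2 hab hbal2 c2 (f1 a) (f1 b)
      (fun x l hw => hf1 a ha1 b hb1 x l (Or.inr ⟨Or.inl ⟨rfl, rfl⟩, x, by simp, hw⟩))
    refine wind_union hW hS hsep (f1 := f1) (f2 := f2) (fun s hs t ht x l h => hf1 s hs t ht x l (Or.inl h)) hf2 ?_
    intro t ht1 ht2
    rcases hI t ht1 ht2 with rfl | rfl
    · exact ⟨0, by rw [hfa]; ring⟩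
    · exact ⟨0, by rw [hfb]; ring⟩
  by_cases hbal1 : Bal (Sup W) S1
  · obtain ⟨e1, e2, e3, e4⟩ := ext_ok2 W hW S S1 S2 a b p q hab h1S h2S hpq h3 h4 hpos
    obtain ⟨f2, hf2⟩ := ih S2.card hc2 S2 (Ext W S1 a b) a b rfl e1
      (fun h => hK (ok4_ext_bal W hW S S2 S1 a b hab hS' hI' ha2 ha1 hb2 hb1 hbal1 c1b n1b h)) e2 e3 e4
    obtain ⟨f1, hfa, hfb, hf1⟩ := bal_ext W hW S1 a b ha1 hb1 hab hbal1 c1 (f2 a) (f2 b)
      (fun x l hw => hf2 a ha2 b hb2 x l (Or.inr ⟨Or.inl ⟨rfl, rfl⟩, x, by simp, hw⟩))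
    refine wind_union hW hS hsep (f1 := f1) (f2 := f2) hf1 (fun s hs t ht x l h => hf2 s hs t ht x l (Or.inl h)) ?_
    intro t ht1 ht2
    rcases hI t ht1 ht2 with rfl | rfl
    · exact ⟨0, by rw [hfa]; ring⟩
    · exact ⟨0, by rw [hfb]; ring⟩
  -- both unbalanced
  obtain ⟨Y2, Z2, g2, aY2, bZ2, d2, u2, cY2, cZ2, e20, e21⟩ :=
    digon_model (Sup W) hE S2 a b ha2 hb2 hab H2 hbal2
  obtain ⟨Y1, Z1, g1, aY1, bZ1, d1, u1, cY1, cZ1, e10, e11⟩ :=
    digon_model (Sup W) hE S1 a b ha1 hb1 hab H1 hbal1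
  obtain ⟨e1, e2, e3, e4⟩ := ext_ok W hW S S1 S2 a b p q hab h1S h2S hpq h3 h4 hpos
  obtain ⟨f1, hf1⟩ := ih S1.card hc1 S1 (Ext W S2 a b) p q rfl e1
    (fun h => hK (ok4_dig (Sup W) (Sup (Ext W S2 a b)) hE S S1 S2 a b hab hS hI ha1 hb1 Y2 Z2 g2 aY2 bZ2 d2 u2
      cY2 cZ2 e20 e21 (by
        rintro s hs t ht x ⟨l, h | ⟨h, _⟩⟩
        · exact Or.inl ⟨l, h⟩
        · exact Or.inr h) h)) e2 e3 e4
  obtain ⟨d, hd3, hdk⟩ := dist_hex (f1 b - f1 a)
  obtain ⟨r1, r2, r3, r4⟩ := root_ok W hW S S2 a b p q hab ha2 hb2 h2S hpq h3 h4 hpos (f1 a) (f1 b) d hd3 hdk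
    (fun x l hw => hf1 a ha1 b hb1 x l (Or.inr ⟨Or.inl ⟨rfl, rfl⟩, x, by simp, hw⟩))
  obtain ⟨f2, hf2⟩ := ih S2.card hc2 S2 (Root W a b d) a b rfl r1
    (fun h => hK (ok4_dig (Sup W) (Sup (Root W a b d)) hE S S2 S1 a b hab hS' hI' ha2 hb2 Y1 Z1 g1 aY1 bZ1 d1 u1
      cY1 cZ1 e10 e11 (by
        rintro s hs t ht x ⟨l, h | ⟨h, _⟩⟩
        · exact Or.inl ⟨l, h⟩
        · exact Or.inr h) h)) r2 r3 r4
  obtain ⟨k1, hk1⟩ := hf2 a ha2 b hb2 0 d (Or.inr ⟨Or.inl ⟨rfl, rfl⟩, Or.inl ⟨by simp, rfl⟩⟩)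
  obtain ⟨k2, hk2⟩ := hf2 a ha2 b hb2 1 (3 - d) (Or.inr ⟨Or.inl ⟨rfl, rfl⟩, Or.inr ⟨odd_one, rfl⟩⟩)
  have hcast : ((3 - d : ℕ) : ℤ) = 3 - d := by omega
  rw [hcast] at hk2
  have hk1' := abs_le.mp hk1
  have hk2' := abs_le.mp hk2
  have hal : ∃ m : ℤ, f2 b - f2 a + 6 * m = d ∨ f2 b - f2 a + 6 * m = -d := by
    obtain ⟨q1, q2⟩ := hk1'
    obtain ⟨q3, q4⟩ := hk2'
    refine ⟨k1, ?_⟩
    have hj : k2 = k1 ∨ k2 = k1 - 1 ∨ k1 < k2 ∨ k2 < k1 - 1 := by omega
    rcases hj with h | h | h | h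
    · right; subst h; omega
    · left; subst h; omega
    · exfalso; omega
    · exfalso; omega
  obtain ⟨m, hm⟩ := hal
  obtain ⟨k, hk⟩ := hdk
  -- align
  obtain ⟨σ, hσ, hσ2⟩ : ∃ σ : ℤ, (σ = 1 ∨ σ = -1) ∧ ∃ j : ℤ, σ * (f2 b - f2 a) + f1 a = f1 b + 6 * j := by
    rcases hm with hm | hm <;> rcases hk with hk | hk
    · exact ⟨1, Or.inl rfl, k - m, by linarith⟩
    · exact ⟨-1, Or.inr rfl, k + m, by linarith⟩
    · exact ⟨-1, Or.inr rfl, k + m, by linarith⟩
    · exact ⟨1, Or.inl rfl, k - m, by linarith⟩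
  refine wind_union hW hS hsep (f1 := f1) (f2 := fun t => σ * (f2 t - f2 a) + f1 a)
    (fun s hs t ht x l h => hf1 s hs t ht x l (Or.inl h)) ?_ ?_
  · intro s hs t ht x l hw
    obtain ⟨j, hj⟩ := hf2 s hs t ht x l (Or.inl hw)
    rcases hσ with rfl | rfl
    · refine ⟨j, ?_⟩
      have : 1 * (f2 t - f2 a) + f1 a - (1 * (f2 s - f2 a) + f1 a) + 3 * x + 6 * j = f2 t - f2 s + 3 * x + 6 * j := by ring
      simp only; rw [this]; exact hj
    · refine ⟨-j - x, ?_⟩
      have : -1 * (f2 t - f2 a) + f1 a - (-1 * (f2 s - f2 a) + f1 a) + 3 * x + 6 * (-j - x)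
          = -(f2 t - f2 s + 3 * x + 6 * j) := by ring
      simp only; rw [this, abs_neg]; exact hj
  · intro t ht1 ht2
    rcases hI t ht1 ht2 with rfl | rfl
    · exact ⟨0, by ring⟩
    · exact hσ2

theorem wind_exists_aux (n : ℕ) : IHyp V n → ∀ (S : Finset V) (W : V → V → ℤ → ℕ → Prop) (p q : V), S.card = n →
    WGr W → ¬ OddK4 (Sup W) S → Neg W S 3 → Neg (NoPQ W p q) S 4 →
    (∀ s ∈ S, ∀ t ∈ S, ∀ x l, W s t x l → ¬ IsPQ p q s t → 1 ≤ l) → ∃ f, Wind W S f := by
  intro ih S W p q hn hW hK h3 h4 hpos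
  by_cases hcard : S.card ≤ 3
  · exact wind_tri W hW S hcard p q h3 h4 hpos
  have hE : SGr (Sup W) := hW.sup
  have hRs : ∀ x y, Adj (Sup W) x y → Adj (Sup W) y x := fun x y h => Adj.symm hE.symm h
  by_cases hcut : ∃ s ∈ S, ¬ Conn (Adj (Sup W)) (S.erase s)
  · obtain ⟨s, hs, hncon⟩ := hcut
    have hne : (S.erase s).Nonempty := by
      rw [← Finset.card_pos, Finset.card_erase_of_mem hs]; omega
    obtain ⟨J, hJ, hJne, hJn, hJc⟩ : ∃ J ⊆ S.erase s, J.Nonempty ∧ J ≠ S.erase s ∧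
        ∀ a ∈ J, ∀ b ∈ S.erase s, b ∉ J → ¬ Adj (Sup W) a b := by
      by_contra hcon
      push Not at hcon
      exact hncon ⟨hne, fun J h1 h2 h3 => by
        obtain ⟨a, ha, b, hb, hb', hab⟩ := hcon J h1 h2 h3
        exact ⟨a, ha, b, hb, hb', hab⟩⟩
    have hsJ : s ∉ J := fun h => (Finset.mem_erase.mp (hJ h)).1 rfl
    obtain ⟨w, hw, hwJ⟩ : ∃ w ∈ S.erase s, w ∉ J := by
      by_contra hcon; push Not at hcon
      exact hJn (Finset.Subset.antisymm hJ hcon)
    obtain ⟨j, hj⟩ := hJne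
    have hJS : J ⊆ S := hJ.trans (Finset.erase_subset _ _)
    have hS1 : insert s J ⊆ S := Finset.insert_subset hs hJS
    have hS2 : S \ J ⊆ S := Finset.sdiff_subset
    have hU : insert s J ∪ (S \ J) = S := by
      ext t; simp only [Finset.mem_union, Finset.mem_insert, Finset.mem_sdiff]
      constructor
      · rintro ((rfl | h) | ⟨h, _⟩)
        · exact hs
        · exact hJS h
        · exact h
      · intro h; by_cases ht : t ∈ J
        · exact Or.inl (Or.inr ht)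
        · exact Or.inr ⟨h, ht⟩
    have hcd1 : (insert s J).card < n := by
      rw [← hn]; apply Finset.card_lt_card
      refine ⟨hS1, fun h => ?_⟩
      have hm := h (Finset.mem_erase.mp hw).2
      rcases Finset.mem_insert.mp hm with h' | h'
      · exact (Finset.mem_erase.mp hw).1 h'
      · exact hwJ h'
    have hcd2 : (S \ J).card < n := by
      rw [← hn]; apply Finset.card_lt_card
      refine ⟨hS2, fun h => ?_⟩
      exact (Finset.mem_sdiff.mp (h (hJS hj))).2 hj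
    obtain ⟨f1, hf1⟩ := ih _ hcd1 (insert s J) W p q rfl hW (fun h => hK (h.subset hS1)) (h3.subset hS1) (h4.subset hS1)
      (fun a ha b hb => hpos a (hS1 ha) b (hS1 hb))
    obtain ⟨f2, hf2⟩ := ih _ hcd2 (S \ J) W p q rfl hW (fun h => hK (h.subset hS2)) (h3.subset hS2) (h4.subset hS2)
      (fun a ha b hb => hpos a (hS2 ha) b (hS2 hb))
    refine wind_union hW hU (f1 := f1) (f2 := fun t => f2 t + (f1 s - f2 s)) ?_ hf1 ?_ ?_
    · intro a ha b hb ha' hb' x l hw
      rcases Finset.mem_insert.mp ha with rfl | haJ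
      · exact ha' (Finset.mem_sdiff.mpr ⟨hs, hsJ⟩)
      · have hbs : b ≠ s := fun h => hb' (h ▸ Finset.mem_insert_self _ _)
        exact hJc a haJ b (Finset.mem_erase.mpr ⟨hbs, (Finset.mem_sdiff.mp hb).1⟩) (Finset.mem_sdiff.mp hb).2 ⟨x, l, hw⟩
    · intro a ha b hb x l hw
      obtain ⟨k, hk⟩ := hf2 a ha b hb x l hw
      refine ⟨k, ?_⟩
      have : f2 b + (f1 s - f2 s) - (f2 a + (f1 s - f2 s)) + 3 * x + 6 * k = f2 b - f2 a + 3 * x + 6 * k := by ring
      simp only; rw [this]; exact hk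
    · intro t ht1 ht2
      rcases Finset.mem_insert.mp ht1 with rfl | h
      · exact ⟨0, by ring⟩
      · exact absurd h (Finset.mem_sdiff.mp ht2).2
  push Not at hcut
  by_cases hcon2 : ∀ s ∈ S, ∀ t ∈ S, Conn (Adj (Sup W)) ((S.erase s).erase t)
  · obtain ⟨T, hT⟩ := lift_exists S.card S (Sup W) rfl hE hcon2 (by omega) hK (by intro h; omega)
    exact wind_of_lift W hW S T hT h3
  push Not at hcon2
  obtain ⟨a, haS, b, hbS, hncon⟩ := hcon2
  have hab : a ≠ b := by
    rintro rfl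
    apply hncon
    rw [Finset.erase_eq_of_notMem (Finset.notMem_erase a S)]
    exact hcut a haS
  have hne : ((S.erase a).erase b).Nonempty := by
    rw [← Finset.card_pos, Finset.card_erase_of_mem (Finset.mem_erase.mpr ⟨hab.symm, hbS⟩), Finset.card_erase_of_mem haS]
    omega
  obtain ⟨J, hJ, hJne, hJn, hJc⟩ : ∃ J ⊆ (S.erase a).erase b, J.Nonempty ∧ J ≠ (S.erase a).erase b ∧
      ∀ s ∈ J, ∀ t ∈ (S.erase a).erase b, t ∉ J → ¬ Adj (Sup W) s t := by
    by_contra hcon
    push Not at hcon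
    exact hncon ⟨hne, fun J h1 h2 h3 => by
      obtain ⟨a, ha, b, hb, hb', hab⟩ := hcon J h1 h2 h3
      exact ⟨a, ha, b, hb, hb', hab⟩⟩
  have haJ : a ∉ J := fun h => by have := hJ h; simp at this
  have hbJ : b ∉ J := fun h => by have := hJ h; simp at this
  obtain ⟨w, hw, hwJ⟩ : ∃ w ∈ (S.erase a).erase b, w ∉ J := by
    by_contra hcon; push Not at hcon
    exact hJn (Finset.Subset.antisymm hJ hcon)
  obtain ⟨j, hj⟩ := hJne
  have hJS : J ⊆ S := hJ.trans ((Finset.erase_subset _ _).trans (Finset.erase_subset _ _))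
  set S1 : Finset V := insert a (insert b J) with hS1def
  set S2 : Finset V := S \ J with hS2def
  have hS1 : S1 ⊆ S := Finset.insert_subset haS (Finset.insert_subset hbS hJS)
  have hS2 : S2 ⊆ S := Finset.sdiff_subset
  simp only [Finset.mem_erase] at hw
  obtain ⟨hwb, hwa, hwS⟩ := hw
  have hw2 : w ∈ S2 := Finset.mem_sdiff.mpr ⟨hwS, hwJ⟩
  have hj1 : j ∈ S1 := by simp [hS1def, hj]
  have hja : j ≠ a := fun h => haJ (h ▸ hj)
  have hjb : j ≠ b := fun h => hbJ (h ▸ hj)
  have hU : S1 ∪ S2 = S := by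
    ext t; simp only [hS1def, hS2def, Finset.mem_union, Finset.mem_insert, Finset.mem_sdiff]
    constructor
    · rintro ((rfl | rfl | h) | ⟨h, _⟩)
      · exact haS
      · exact hbS
      · exact hJS h
      · exact h
    · intro h; by_cases ht : t ∈ J
      · exact Or.inl (Or.inr (Or.inr ht))
      · exact Or.inr ⟨h, ht⟩
  have hI : ∀ t, t ∈ S1 → t ∈ S2 → t = a ∨ t = b := by
    intro t h1 h2
    simp only [hS1def, Finset.mem_insert] at h1
    rcases h1 with h | h | h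
    · exact Or.inl h
    · exact Or.inr h
    · exact absurd h (Finset.mem_sdiff.mp h2).2
  have ha1 : a ∈ S1 := by simp [hS1def]
  have hb1 : b ∈ S1 := by simp [hS1def]
  have ha2 : a ∈ S2 := Finset.mem_sdiff.mpr ⟨haS, haJ⟩
  have hb2 : b ∈ S2 := Finset.mem_sdiff.mpr ⟨hbS, hbJ⟩
  have hcd1 : S1.card < n := by
    rw [← hn]; apply Finset.card_lt_card
    refine ⟨hS1, fun h => ?_⟩
    have hm := h hwS
    simp only [hS1def, Finset.mem_insert] at hm
    rcases hm with h' | h' | h'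
    · exact hwa h'
    · exact hwb h'
    · exact hwJ h'
  have hcd2 : S2.card < n := by
    rw [← hn]; apply Finset.card_lt_card
    refine ⟨hS2, fun h => ?_⟩
    exact (Finset.mem_sdiff.mp (h (hJS hj))).2 hj
  have hsep : ∀ s ∈ S1, ∀ t ∈ S2, s ∉ S2 → t ∉ S1 → ∀ x l, ¬ W s t x l := by
    intro s hs t ht hs' ht' x l hw
    have hsJ : s ∈ J := by
      simp only [hS1def, Finset.mem_insert] at hs
      rcases hs with rfl | rfl | h
      · exact absurd ha2 hs'
      · exact absurd hb2 hs'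
      · exact h
    simp only [hS1def, Finset.mem_insert, not_or] at ht'
    exact hJc s hsJ t (Finset.mem_erase.mpr ⟨ht'.2.1, Finset.mem_erase.mpr ⟨ht'.1, (Finset.mem_sdiff.mp ht).1⟩⟩) ht'.2.2
      ⟨x, l, hw⟩
  have hsep' : ∀ s ∈ S2, ∀ t ∈ S1, s ∉ S1 → t ∉ S2 → ∀ x l, ¬ W s t x l := by
    intro s hs t ht h1 h2 x l hw
    exact hsep t ht s hs h2 h1 (-x) l (hW.symm _ _ _ _ hw)
  have hU' : S2 ∪ S1 = S := by rw [Finset.union_comm]; exact hU
  have hI' : ∀ t, t ∈ S2 → t ∈ S1 → t = a ∨ t = b := fun t h1 h2 => hI t h2 h1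
  have h1ne : ∃ t ∈ S1, t ≠ a ∧ t ≠ b := ⟨j, hj1, hja, hjb⟩
  have h2ne : ∃ t ∈ S2, t ≠ a ∧ t ≠ b := ⟨w, hw2, hwa, hwb⟩
  by_cases hpq : p = q
  · -- unrooted: use the root pair a, b
    subst hpq
    have hno : ∀ s t x l, W s t x l → ¬ IsPQ p p s t := by
      rintro s t x l hw (⟨rfl, h⟩ | ⟨rfl, h⟩)
      · exact hW.irr _ _ _ _ hw h.symm
      · exact hW.irr _ _ _ _ hw h.symm
    refine glue2 n ih S S1 S2 W a b a b hW hK h3 ?_ ?_ hab hU hI ha1 ha2 hb1 hb2 hcd1 hcd2 hsep hcut h1ne h2ne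
      (fun _ _ _ _ h => h)
    · intro c x l hw ho
      exact h4 c x l (hw.mono subset_rfl fun s _ t _ x l h => ⟨h.1, hno _ _ _ _ h.1⟩) ho
    · intro s hs t ht x l hw _
      exact hpos s hs t ht x l hw (hno _ _ _ _ hw)
  by_cases hcase : ∀ s ∈ S2, ∀ t ∈ S2, IsPQ p q s t → IsPQ a b s t
  · exact glue2 n ih S S1 S2 W p q a b hW hK h3 h4 hpos hab hU hI ha1 ha2 hb1 hb2 hcd1 hcd2 hsep hcut h1ne h2ne hcase
  · push Not at hcase
    obtain ⟨s, hs, t, ht, hst, hnab⟩ := hcase
    have hp2 : p ∈ S2 ∧ q ∈ S2 := by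
      rcases hst with ⟨h1, h2⟩ | ⟨h1, h2⟩
      · exact ⟨h1 ▸ hs, h2 ▸ ht⟩
      · exact ⟨h2 ▸ ht, h1 ▸ hs⟩
    refine glue2 n ih S S2 S1 W p q a b hW hK h3 h4 hpos hab hU' hI' ha2 ha1 hb2 hb1 hcd2 hcd1 hsep' hcut h2ne h1ne ?_
    intro s' hs' t' ht' hst'
    have hp1 : p ∈ S1 ∧ q ∈ S1 := by
      rcases hst' with ⟨h1, h2⟩ | ⟨h1, h2⟩
      · exact ⟨h1 ▸ hs', h2 ▸ ht'⟩
      · exact ⟨h2 ▸ ht', h1 ▸ hs'⟩
    exfalso
    have hpab := hI p hp1.1 hp2.1
    have hqab := hI q hp1.2 hp2.2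
    apply hnab
    rcases hst with ⟨h1, h2⟩ | ⟨h1, h2⟩ <;> rcases hpab with h | h <;> rcases hqab with h' | h'
    · exact absurd (h.trans h'.symm) hpq
    · exact Or.inl ⟨h1.trans h, h2.trans h'⟩
    · exact Or.inr ⟨h1.trans h, h2.trans h'⟩
    · exact absurd (h.trans h'.symm) hpq
    · exact absurd (h.trans h'.symm) hpq
    · exact Or.inr ⟨h1.trans h', h2.trans h⟩
    · exact Or.inl ⟨h1.trans h', h2.trans h⟩
    · exact absurd (h.trans h'.symm) hpq

theorem wind_exists (V : Type) (S : Finset V) (W : V → V → ℤ → ℕ → Prop) (p q : V) (hW : WGr W)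
    (hK : ¬ OddK4 (Sup W) S) (h3 : Neg W S 3) (h4 : Neg (NoPQ W p q) S 4)
    (hpos : ∀ s ∈ S, ∀ t ∈ S, ∀ x l, W s t x l → ¬ IsPQ p q s t → 1 ≤ l) : ∃ f, Wind W S f := by
  have key : ∀ n : ℕ, IHyp V n := by
    intro n
    induction n with
    | zero => intro m hm; exact absurd hm (Nat.not_lt_zero m)
    | succ n ih =>
      intro m hm S W p q hS
      rcases Nat.lt_succ_iff_lt_or_eq.mp hm with h | h
      · exact ih m h S W p q hS
      · subst h; exact wind_exists_aux m ih S W p q hS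
  exact key (S.card + 1) S.card (Nat.lt_succ_self _) S W p q rfl hW hK h3 h4 hpos

end SgK4


namespace SgK4
variable {V : Type}

/-- the weighted signed graph of `(G, S)` -/
def WOf {V : Type} (G : SimpleGraph V) (S : Set (Sym2 V)) : V → V → ℤ → ℕ → Prop := fun a b x l =>
  G.Adj a b ∧ l = 1 ∧ (Odd x ↔ s(a, b) ∈ S)

theorem WOf_wgr {V : Type} (G : SimpleGraph V) (S : Set (Sym2 V)) : WGr (WOf G S) := by
  refine ⟨?_, ?_, ?_⟩
  · rintro a b x l ⟨h1, h2, h3⟩
    refine ⟨h1.symm, h2, ?_⟩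
    rw [Sym2.eq_swap, ← h3, odd_neg]
  · rintro a b x l ⟨h1, h2, h3⟩
    refine ⟨h1, h2, ?_⟩
    rw [← h3]
    constructor
    · rintro ⟨k, hk⟩; exact ⟨k - 1, by omega⟩
    · rintro ⟨k, hk⟩; exact ⟨k + 1, by omega⟩
  · rintro a b x l ⟨h1, h2, h3⟩
    exact h1.ne

theorem WOf_col {V : Type} {G : SimpleGraph V} {S : Set (Sym2 V)} {U : Finset V} (side : V → Bool)
    (hside : ∀ a b, G.Adj a b → side a ≠ side b) {a b : V} {x : ℤ} {l : ℕ} (h : Wk (WOf G S) U a b x l) :
    (side a = side b ↔ Even l) := by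
  induction h with
  | nil a ha => simp
  | @cons a b c x y l m ha h t ih =>
    obtain ⟨h1, h2, h3⟩ := h
    have hs := hside _ _ h1
    subst h2
    rw [show (1 + m) = m + 1 from by ring, Nat.even_add_one, ← ih]
    cases h4 : side a <;> cases h5 : side b <;> cases h6 : side c <;> simp_all

theorem WOf_wk0 {V : Type} {G : SimpleGraph V} {S : Set (Sym2 V)} {U : Finset V} {a b : V} {x : ℤ} {l : ℕ}
    (h : Wk (WOf G S) U a b x l) (hl : l = 0) : x = 0 ∧ a = b := by
  cases h with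
  | nil a ha => exact ⟨rfl, rfl⟩
  | cons ha h t =>
    obtain ⟨h1, h2, h3⟩ := h
    omega

theorem WOf_wk1 {V : Type} {G : SimpleGraph V} {S : Set (Sym2 V)} {U : Finset V} {a b : V} {x : ℤ} {l : ℕ}
    (h : Wk (WOf G S) U a b x l) (hl : l = 1) : G.Adj a b ∧ (Odd x ↔ s(a, b) ∈ S) := by
  cases h with
  | nil a ha => omega
  | cons ha h t =>
    obtain ⟨h1, h2, h3⟩ := h
    obtain ⟨h4, h5⟩ := WOf_wk0 t (by omega)
    subst h5
    rw [h4, add_zero]
    exact ⟨h1, h3⟩

theorem WOf_wk2 {V : Type} {G : SimpleGraph V} {S : Set (Sym2 V)} {U : Finset V} {a b : V} {x : ℤ} {l : ℕ}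
    (h : Wk (WOf G S) U a b x l) (hl : l = 2) (hab : a = b) : ¬ Odd x := by
  cases h with
  | nil a ha => omega
  | @cons _ c _ x1 y l m ha h t =>
    subst hab
    obtain ⟨h1, h2, h3⟩ := h
    obtain ⟨h4, h5⟩ := WOf_wk1 t (by omega)
    rw [Sym2.eq_swap, ← h3] at h5
    rw [Int.not_odd_iff_even]
    simp only [Int.odd_iff] at h5
    rw [Int.even_iff]
    omega

theorem WOf_neg {V : Type} {G : SimpleGraph V} {S : Set (Sym2 V)} {U : Finset V} (side : V → Bool)
    (hside : ∀ a b, G.Adj a b → side a ≠ side b) : Neg (WOf G S) U 4 := by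
  intro a x l h hodd
  have h1 := (WOf_col side hside h).mp rfl
  by_contra hlt
  push Not at hlt
  obtain ⟨k, hk⟩ := h1
  have h2 : l = 0 ∨ l = 2 := by omega
  rcases h2 with h2 | h2
  · have := (WOf_wk0 h h2).1
    rw [this] at hodd
    exact absurd hodd (by decide)
  · exact WOf_wk2 h h2 rfl hodd

theorem conn_rtg {V : Type} {R R' : V → V → Prop} {B : Finset V} (h : Conn R B)
    (hR : ∀ a ∈ B, ∀ b ∈ B, R a b → R' a b) : ∀ u ∈ B, ∀ v ∈ B, Relation.ReflTransGen R' u v := by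
  intro u hu v hv
  by_contra hnot
  set J := B.filter (fun w => Relation.ReflTransGen R' u w) with hJ
  have hsub : J ⊆ B := Finset.filter_subset _ _
  have hne : J.Nonempty := ⟨u, Finset.mem_filter.mpr ⟨hu, Relation.ReflTransGen.refl⟩⟩
  have hneq : J ≠ B := by
    intro h
    apply hnot
    have : v ∈ J := h ▸ hv
    exact (Finset.mem_filter.mp this).2
  obtain ⟨a, ha, b, hb, hb', hab⟩ := h.2 J hsub hne hneq
  apply hb'
  have ha' := Finset.mem_filter.mp ha
  exact Finset.mem_filter.mpr ⟨hb, ha'.2.tail (hR a ha'.1 b hb hab)⟩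

theorem parity_case {fu fv x k : ℤ} (h : |fv - fu + 3 * x + 6 * k| ≤ 1) :
    (fu % 3 = fv % 3 ↔ (fv - fu + x) % 2 = 0) := by
  rw [abs_le] at h
  omega

theorem fin_case {fu fv x : ℤ} {su sv : Prop} (hs : su ↔ ¬ sv) :
    ((fv - fu + 1) % 2 = 0 ↔ (¬ (fu % 2 = 1 ↔ su) ↔ ¬ (fv % 2 = 1 ↔ sv))) ∧
    ((fv - fu + 0) % 2 = 0 ↔ ¬ (¬ (fu % 2 = 1 ↔ su) ↔ ¬ (fv % 2 = 1 ↔ sv))) := by
  by_cases h : sv
  · have h' : ¬ su := fun h2 => hs.mp h2 h
    simp only [h, h', iff_true, iff_false]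
    omega
  · have h' : su := hs.mpr h
    simp only [h, h', iff_true, iff_false]
    omega

/-- from windings of the hexagon to the signed homomorphism to (K33, M) (frozen statement form) -/
theorem final_of_wind
    (main : ∀ (V : Type) (S : Finset V) (W : V → V → ℤ → ℕ → Prop) (p q : V), WGr W →
      ¬ OddK4 (Sup W) S → Neg W S 3 → Neg (NoPQ W p q) S 4 →
      (∀ s ∈ S, ∀ t ∈ S, ∀ x l, W s t x l → ¬ IsPQ p q s t → 1 ≤ l) → ∃ f, Wind W S f) :
    ∀ (V : Type) [Fintype V] (G : SimpleGraph V) (S : Set (Sym2 V)),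
      G.Colorable 2 →
      (¬ ∃ (X : Set V) (B : Fin 4 → Set V),
          (∀ i : Fin 4, ∃ v : V, v ∈ B i) ∧
          (∀ i j : Fin 4, i ≠ j → ∀ v : V, v ∈ B i → v ∉ B j) ∧
          (∀ i : Fin 4, ∀ u : V, u ∈ B i → ∀ v : V, v ∈ B i →
            Relation.ReflTransGen
              (fun a b : V => G.Adj a b ∧ a ∈ B i ∧ b ∈ B i ∧
                ¬ (s(a, b) ∈ S ↔ (a ∈ X ↔ b ∈ X))) u v) ∧
          (∀ i j : Fin 4, i ≠ j → ∃ u : V, u ∈ B i ∧ ∃ v : V, v ∈ B j ∧
            G.Adj u v ∧ (s(u, v) ∈ S ↔ (u ∈ X ↔ v ∈ X)))) →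
      ∃ (X : Set V) (φ : V → Bool × Fin 3),
        ∀ u v : V, G.Adj u v →
          (φ u).1 ≠ (φ v).1 ∧
          ((φ u).2 = (φ v).2 ↔ (s(u, v) ∈ S ↔ (u ∈ X ↔ v ∈ X))) := by
  intro V _ G S hcol hno
  obtain ⟨col⟩ := hcol
  set side : V → Bool := fun v => decide (col v = 0) with hsidedef
  have hside : ∀ a b, G.Adj a b → side a ≠ side b := by
    intro a b hab hs
    have h1 := col.valid hab
    simp only [hsidedef, decide_eq_decide] at hs
    apply h1
    generalize col a = ca at *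
    generalize col b = cb at *
    fin_cases ca <;> fin_cases cb <;> simp_all
  rcases isEmpty_or_nonempty V with hV | hV
  · exact ⟨∅, fun _ => (false, 0), fun u => hV.elim u⟩
  obtain ⟨p⟩ := hV
  have hneg : ∀ W', (∀ a b x l, W' a b x l → WOf G S a b x l) → Neg W' (Finset.univ : Finset V) 4 := by
    intro W' hW' a x l h hodd
    exact WOf_neg side hside a x l (h.mono subset_rfl (fun a _ b _ x l h => hW' a b x l h)) hodd
  obtain ⟨f, hf⟩ := main V Finset.univ (WOf G S) p p (WOf_wgr G S) (by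
      rintro ⟨B, h, h1, h2, h3, h4⟩
      apply hno
      refine ⟨{v | Odd (h v)}, fun i => {v | v ∈ B i}, fun i => (h3 i).1, ?_, ?_, ?_⟩
      · intro i j hij v hv hv'
        exact Finset.disjoint_left.mp (h2 i j hij) hv hv'
      · intro i u hu v hv
        refine conn_rtg (h3 i) ?_ u hu v hv
        rintro a ha b hb ⟨l, h5, h6, h7⟩
        refine ⟨h5, ha, hb, ?_⟩
        rw [← h7]
        simp only [Set.mem_ofPred_eq, Int.odd_iff]
        omega
      · intro i j hij
        obtain ⟨a, ha, b, hb, l, h5, h6, h7⟩ := h4 i j hij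
        refine ⟨a, ha, b, hb, h5, ?_⟩
        rw [← h7]
        simp only [Set.mem_ofPred_eq, Int.odd_iff]
        omega)
      (by
        intro a x l h hodd
        have := hneg _ (fun _ _ _ _ h => h) a x l h hodd
        omega)
      (hneg _ (fun _ _ _ _ h => h.1))
      (by
        rintro s - t - x l ⟨h5, h6, h7⟩ -
        omega)
  refine ⟨{v | ¬ (Odd (f v) ↔ side v = true)}, fun v => (side v, ⟨(f v % 3).toNat, by omega⟩), ?_⟩
  intro u v huv
  refine ⟨hside u v huv, ?_⟩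
  have hsd := hside u v huv
  have key : ((⟨(f u % 3).toNat, by omega⟩ : Fin 3) = ⟨(f v % 3).toNat, by omega⟩ ↔ f u % 3 = f v % 3) := by
    rw [Fin.mk.injEq]; omega
  simp only
  rw [key]
  simp only [Set.mem_ofPred_eq, Int.odd_iff]
  by_cases hS : s(u, v) ∈ S
  · obtain ⟨k, hk⟩ := hf u (Finset.mem_univ _) v (Finset.mem_univ _) 1 1 ⟨huv, rfl, by simp [hS]⟩
    rw [parity_case (show |f v - f u + 3 * 1 + 6 * k| ≤ 1 by exact_mod_cast hk)]
    have hsu : (side u = true) ↔ ¬ (side v = true) := (show ∀ a b : Bool, a ≠ b → (a = true ↔ ¬ b = true) by decide) _ _ hsd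
    simp only [hS, true_iff]
    exact (fin_case (x := 0) hsu).1
  · obtain ⟨k, hk⟩ := hf u (Finset.mem_univ _) v (Finset.mem_univ _) 0 1 ⟨huv, rfl, by simp [hS]⟩
    rw [parity_case (show |f v - f u + 3 * 0 + 6 * k| ≤ 1 by exact_mod_cast hk)]
    have hsu : (side u = true) ↔ ¬ (side v = true) := (show ∀ a b : Bool, a ≠ b → (a = true ↔ ¬ b = true) by decide) _ _ hsd
    simp only [hS, false_iff]
    exact (fin_case (x := 0) hsu).2

end SgK4
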